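import Pool.Agent.Y18.GX.Dec

/-!
# Reduction modulo the places above `p`
-/

set_option autoImplicit false

namespace Pool.Agent.P8H3.GB

open Finset Polynomial Pool.Agent.Y18.GX

/-- from the nonvanishing of the sums in characteristic `p` to the values -/
theorem unit_gen' {p : ℕ} (hp : p.Prime) {N m : ℕ} (ψ : DirichletCharacter ℂ N)
    (hpN : ¬ p ∣ N) (hpφ : ¬ p ∣ N.totient)
    (hpar : ψ (-1) = (-1) ^ m) (hm1 : 1 ≤ m) (hmp : m < p) (heul : m = 1 → ψ (p : ZMod N) ≠ 1)
    (hcore : ∀ (k : Type) [Field k] [CharP k p] [IsAlgClosed k] (χ : MulChar (ZMod N) k),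
      (∀ x, χ x = 1 → ψ x = 1) → χ (-1) = (-1) ^ m →
      ∑ a ∈ range N, χ (a : ZMod N) * Polynomial.aeval ((a : k) / (N : ℕ)) (FF m) ≠ 0)
    (hsum : ∑ a ∈ range N, ψ (a : ZMod N) = 0) :
    IsUnitAt p ((1 - ψ (p : ZMod N) * (p : ℂ) ^ (m - 1)) *
      ((N : ℂ) ^ (m - 1) * ∑ a ∈ range N, ψ (a : ZMod N) *
        (((Polynomial.bernoulli m).eval ((a : ℚ) / N) : ℚ) : ℂ)) / m) := by
  have : Fact p.Prime := ⟨hp⟩
  have hN0' : N ≠ 0 := by
    intro h
    rw [h] at hpN
    exact hpN (dvd_zero _)
  have : NeZero N := ⟨hN0'⟩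
  have hpm : ¬ p ∣ m := fun h => by
    have := Nat.le_of_dvd (by omega) h
    omega
  have hpf : ¬ p ∣ m.factorial := fun h => by
    have := (hp.dvd_factorial).1 h
    omega
  -- the sum in terms of `FF`
  have hT : ((m.factorial : ℕ) : ℂ) * ∑ a ∈ range N, ψ (a : ZMod N) *
      (((Polynomial.bernoulli m).eval ((a : ℚ) / N) : ℚ) : ℂ) =
      ∑ a ∈ range N, ψ (a : ZMod N) * aeval ((a : ℂ) / N) (FF m) := by
    have h1 : ∀ a : ℕ, aeval ((a : ℂ) / N) (FF m) = ((m.factorial : ℕ) : ℂ) *
        ((((Polynomial.bernoulli m).eval ((a : ℚ) / N) : ℚ) : ℂ) - ((_root_.bernoulli m : ℚ) : ℂ)) := by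
      intro a
      rw [← FF_eval]
      push_cast
      rfl
    simp only [h1]
    have h2 : ∑ a ∈ range N, ψ (a : ZMod N) * (((m.factorial : ℕ) : ℂ) *
        ((((Polynomial.bernoulli m).eval ((a : ℚ) / N) : ℚ) : ℂ) - ((_root_.bernoulli m : ℚ) : ℂ))) =
        ((m.factorial : ℕ) : ℂ) * ∑ a ∈ range N, ψ (a : ZMod N) *
      (((Polynomial.bernoulli m).eval ((a : ℚ) / N) : ℚ) : ℂ) -
      ((m.factorial : ℕ) : ℂ) * ((_root_.bernoulli m : ℚ) : ℂ) * ∑ a ∈ range N, ψ (a : ZMod N) := by
      rw [Finset.mul_sum, Finset.mul_sum, ← Finset.sum_sub_distrib]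
      refine Finset.sum_congr rfl fun a _ => ?_
      ring
    rw [h2, hsum, mul_zero, sub_zero]
  set S := ∑ a ∈ range N, ψ (a : ZMod N) *
      (((Polynomial.bernoulli m).eval ((a : ℚ) / N) : ℚ) : ℂ) with hS
  set T := ∑ a ∈ range N, ψ (a : ZMod N) * aeval ((a : ℂ) / N) (FF m) with hTd
  set E := 1 - ψ (p : ZMod N) * (p : ℂ) ^ (m - 1) with hE
  -- the valuations
  have hval : ∀ B : ValuationSubring ℂ, B.valuation (p : ℂ) < 1 → B.valuation T = 1 ∧ B.valuation E = 1 := by
    intro B hB
    have hch := charP_res B hp hB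
    have hm' : ∀ a, ψ a ∈ B := char_mem B hN0' ψ
    set χ := liftChar B ψ hm' with hχ
    set ρ := IsLocalRing.residue B with hρ
    have hc1 : ∀ a, ((χ a : B) : ℂ) = ψ a := fun a => rfl
    have hnk : ∀ n : ℕ, ¬ p ∣ n → ((n : ℕ) : IsLocalRing.ResidueField B) ≠ 0 := fun n hn h =>
      hn ((CharP.cast_eq_zero_iff (IsLocalRing.ResidueField B) p n).1 h)
    -- the reduction of a value is `1` only if the value is `1`
    have hred : ∀ x, ρ (χ x) = 1 → ψ x = 1 := by
      intro x hx
      by_contra hne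
      by_cases hu : IsUnit x
      · refine red_ne_one hp hB hpφ (χ x) ?_ ?_ hx
        · apply Subtype.ext
          push_cast
          rw [hc1]
          obtain ⟨U, rfl⟩ := hu
          rw [← map_pow, ← Units.val_pow_eq_pow_val, ZMod.pow_totient, Units.val_one, map_one]
        · intro h
          exact hne (congrArg Subtype.val h)
      · have h1 : χ x = 0 := MulChar.map_nonunit _ hu
        rw [h1, map_zero] at hx
        exact zero_ne_one hx
    constructor
    · -- `T`
      have hNB : IsUnit (N : B) := by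
        rw [← IsLocalRing.residue_ne_zero_iff_isUnit, map_natCast]
        exact hnk N hpN
      obtain ⟨ν, hν⟩ := hNB.exists_right_inv
      have hνC : ∀ a : ℕ, (((a : B) * ν : B) : ℂ) = (a : ℂ) / (N : ℕ) := by
        intro a
        have h1 : (N : ℂ) * (ν : ℂ) = 1 := by
          have := congrArg (Subtype.val) hν
          push_cast at this
          exact this
        have h2 : (N : ℂ) ≠ 0 := by exact_mod_cast hN0'
        push_cast
        field_simp
        linear_combination (a : ℂ) * h1
      let k' := AlgebraicClosure (IsLocalRing.ResidueField B)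
      have hchk : CharP k' p := charP_of_injective_algebraMap
        (algebraMap (IsLocalRing.ResidueField B) k').injective p
      set ρ' : B →+* k' := (algebraMap (IsLocalRing.ResidueField B) k').comp ρ with hρ'
      have hnk' : ∀ n : ℕ, ¬ p ∣ n → ((n : ℕ) : k') ≠ 0 := fun n hn h =>
        hn ((CharP.cast_eq_zero_iff k' p n).1 h)
      have hνk : ∀ a : ℕ, ρ' ((a : B) * ν) = (a : k') / (N : ℕ) := by
        intro a
        have h1 : (N : k') * ρ' ν = 1 := by
          have := congrArg ρ' hν
          rwa [map_mul, map_natCast, map_one] at this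
        have h2 := hnk' N hpN
        rw [map_mul, map_natCast, eq_div_iff h2]
        linear_combination (a : k') * h1
      set TB : B := ∑ a ∈ range N, χ (a : ZMod N) * aeval ((a : B) * ν) (FF m)
        with hTB
      have e1 : (TB : ℂ) = T := by
        have h1 : (TB : ℂ) = B.subtype TB := rfl
        rw [h1, hTB, hTd, map_sum]
        refine Finset.sum_congr rfl fun a _ => ?_
        rw [map_mul]
        have h2 : B.subtype (aeval ((a : B) * ν) (FF m)) = aeval (B.subtype ((a : B) * ν)) (FF m) :=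
          (Polynomial.aeval_algHom_apply B.subtype.toIntAlgHom ((a : B) * ν) (FF m)).symm
        rw [h2]
        have h4 : B.subtype ((a : B) * ν) = (a : ℂ) / (N : ℕ) := hνC a
        rw [h4]
        rfl
      have e2 : ρ' TB = ∑ a ∈ range N, (χ.ringHomComp ρ') (a : ZMod N) *
          aeval ((a : k') / (N : ℕ)) (FF m) := by
        rw [hTB, map_sum]
        refine Finset.sum_congr rfl fun a _ => ?_
        rw [map_mul]
        have h2 : ρ' (aeval ((a : B) * ν) (FF m)) = aeval (ρ' ((a : B) * ν)) (FF m) :=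
          (Polynomial.aeval_algHom_apply ρ'.toIntAlgHom ((a : B) * ν) (FF m)).symm
        rw [h2, hνk]
        rfl
      rw [← e1]
      apply val_of_res
      intro h0
      have h1 : ρ' TB = 0 := by
        rw [hρ', RingHom.comp_apply, hρ, h0, map_zero]
      rw [e2] at h1
      refine hcore k' (χ.ringHomComp ρ') ?_ ?_ h1
      · intro x hx
        apply hred
        apply (algebraMap (IsLocalRing.ResidueField B) k').injective
        rw [map_one]
        exact hx
      · have h1 : χ (-1) = (-1) ^ m := by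
          apply Subtype.ext
          push_cast
          rw [hc1]
          exact hpar
        have h2 : (χ.ringHomComp ρ') (-1) = ρ' (χ (-1)) := rfl
        rw [h2, h1, map_pow, map_neg, map_one]
    · -- the Euler factor
      have h1 : ((1 - χ (p : ZMod N) * (p : B) ^ (m - 1) : B) : ℂ) = E := by
        rw [hE]
        push_cast
        rfl
      rw [← h1]
      apply val_of_res
      have hp0 : ((p : ℕ) : IsLocalRing.ResidueField B) = 0 :=
        (CharP.cast_eq_zero_iff (IsLocalRing.ResidueField B) p p).2 dvd_rfl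
      have h2 : IsLocalRing.residue B (1 - χ (p : ZMod N) * (p : B) ^ (m - 1)) =
          1 - ρ (χ (p : ZMod N)) * ((p : ℕ) : IsLocalRing.ResidueField B) ^ (m - 1) := by
        rw [hρ, map_sub, map_one, map_mul (IsLocalRing.residue B),
          map_pow, map_natCast (IsLocalRing.residue B)]
      rw [h2, hp0]
      rcases Nat.lt_or_ge 1 m with h4 | h4
      · rw [zero_pow (by omega), mul_zero, sub_zero]
        exact one_ne_zero
      · have h5 : m = 1 := by omega
        subst h5
        rw [Nat.sub_self, pow_zero, mul_one]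
        intro h6
        exact heul rfl (hred _ (sub_eq_zero.1 h6).symm)
  -- the conclusion
  have hz : E * ((N : ℂ) ^ (m - 1) * S) / m = E * (N : ℂ) ^ (m - 1) * T / (((m.factorial : ℕ) : ℂ) * m) := by
    rw [← hT]
    have h1 : ((m.factorial : ℕ) : ℂ) ≠ 0 := by exact_mod_cast (Nat.factorial_pos m).ne'
    field_simp
  rw [hz]
  have hv1 : ∀ B : ValuationSubring ℂ, B.valuation (p : ℂ) < 1 →
      B.valuation (E * (N : ℂ) ^ (m - 1) * T / (((m.factorial : ℕ) : ℂ) * m)) = 1 := by
    intro B hB
    obtain ⟨h1, h2⟩ := hval B hB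
    rw [map_div₀, map_mul, map_mul, map_mul, map_pow, h1, h2, nat_val hp hB hpN, nat_val hp hB hpm,
      nat_val hp hB hpf]
    simp
  refine unit_of_val hp ?_ hv1
  intro h0
  obtain ⟨B, hB⟩ := exists_over hp
  have h1 := hv1 B hB
  rw [h0, map_zero] at h1
  exact zero_ne_one h1

/-- if the conductor of `ψ` is not a divisor of `d` then `ψ(x) ≠ 1` for some `x = 1` modulo `d` -/
lemma exists_ne {N d : ℕ} (hN : N ≠ 0) (ψ : DirichletCharacter ℂ N) (hd : d ∣ N) (hc : ¬ ψ.conductor ∣ d) :
    ∃ x : ℕ, x < N ∧ x.Coprime N ∧ x ≡ 1 [MOD d] ∧ ψ (x : ZMod N) ≠ 1 := by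
  have : NeZero N := ⟨hN⟩
  by_contra hcon
  push Not at hcon
  apply hc
  apply DirichletCharacter.conductor_dvd_of_mem_conductorSet (χ := ψ) (d := d)
  show ψ.FactorsThrough d
  rw [DirichletCharacter.factorsThrough_iff_ker_unitsMap hd]
  intro U hU
  rw [MonoidHom.mem_ker] at hU ⊢
  have h3 : ((U : ZMod N).cast : ZMod d) = 1 := by
    have := congrArg Units.val hU
    simpa [ZMod.unitsMap] using this
  have haU : (((U : ZMod N).val : ℕ) : ZMod N) = U := by rw [ZMod.natCast_val, ZMod.cast_id', id_eq]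
  have h4 : (U : ZMod N).val ≡ 1 [MOD d] := by
    rw [← ZMod.natCast_eq_natCast_iff, Nat.cast_one, ← h3, ZMod.natCast_val]
  have h5 := hcon (U : ZMod N).val (ZMod.val_lt _) (ZMod.val_coe_unit_coprime U) h4
  apply Units.ext
  rw [MulChar.coe_toUnitHom, ← haU, h5, Units.val_one]

end Pool.Agent.P8H3.GB
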