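import Pool.Agent.P8H3.GB.Asm

/-!
# All conductors `2^a 3^b ≥ p^11`
-/

set_option autoImplicit false

namespace Pool.Agent.P8H3.GB

open Finset Polynomial Pool.Agent.Y18.GX

/-- `p^2 - 1 = 2^n 3^n' u` -/
lemma exists_fac {p : ℕ} (hp : p.Prime) (h5 : 5 ≤ p) : ∃ n n' u, p ^ 2 - 1 = 2 ^ n * 3 ^ n' * u ∧ u.Coprime 2 ∧
    u.Coprime 3 ∧ 1 ≤ n ∧ 1 ≤ n' ∧ p ^ 2 % 3 = 1 ∧ p ^ 2 % 4 = 1 := by
  have hpodd : p % 2 = 1 := by
    rcases hp.eq_two_or_odd with h | h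
    · omega
    · exact h
  have hp3' : p % 3 ≠ 0 := by
    intro h
    have := (Nat.prime_dvd_prime_iff_eq Nat.prime_three hp).1 (Nat.dvd_of_mod_eq_zero h)
    omega
  have hq3 : p ^ 2 % 3 = 1 := by
    have : p % 3 = 1 ∨ p % 3 = 2 := by omega
    rw [Nat.pow_mod]
    rcases this with h | h <;> rw [h]
  have hq4 : p ^ 2 % 4 = 1 := by
    have : p % 4 = 1 ∨ p % 4 = 3 := by omega
    rw [Nat.pow_mod]
    rcases this with h | h <;> rw [h]
  have hpos : p ^ 2 - 1 ≠ 0 := by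
    have : 25 ≤ p ^ 2 := by nlinarith
    omega
  obtain ⟨n, x, hx, hx2⟩ := Nat.exists_eq_pow_mul_and_not_dvd hpos 2 (by norm_num)
  have hx0 : x ≠ 0 := by
    rintro rfl
    exact hx (dvd_zero _)
  obtain ⟨n', u, hu, hu2⟩ := Nat.exists_eq_pow_mul_and_not_dvd hx0 3 (by norm_num)
  have hodd : ¬ 2 ∣ u := fun h => hx (by rw [hu2]; exact h.mul_left _)
  refine ⟨n, n', u, by rw [hx2, hu2]; ring, ?_, ?_, ?_, ?_, hq3, hq4⟩
  · rw [Nat.coprime_comm, Nat.Prime.coprime_iff_not_dvd Nat.prime_two]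
    exact hodd
  · rw [Nat.coprime_comm, Nat.Prime.coprime_iff_not_dvd Nat.prime_three]
    exact hu
  · rcases Nat.eq_zero_or_pos n with h | h
    · exfalso
      subst h
      rw [pow_zero, one_mul] at hx2
      apply hx
      omega
    · exact h
  · rcases Nat.eq_zero_or_pos n' with h | h
    · exfalso
      subst h
      rw [pow_zero, one_mul] at hu2
      apply hu
      rw [← hu2]
      have h1 : 3 ∣ 2 ^ n * x := by
        rw [← hx2]
        omega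
      exact (Nat.Coprime.dvd_mul_left (Nat.Coprime.pow_right _ (by norm_num))).1 h1
    · exact h

lemma geom_mod (q n d : ℕ) (h : q % d = 1 % d) : (∑ r ∈ range n, q ^ r) % d = n % d := by
  induction n with
  | zero => simp
  | succ n ih =>
    rw [Finset.sum_range_succ, Nat.add_mod, ih, Nat.pow_mod, h, ← Nat.pow_mod, one_pow, ← Nat.add_mod]

/-- the power of `3` large -/
theorem unit_three {p : ℕ} (hp : p.Prime) (h5 : 5 ≤ p) {n n' u : ℕ} (hpu : p ^ 2 - 1 = 2 ^ n * 3 ^ n' * u)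
    (hu3 : u.Coprime 3) (hq3 : p ^ 2 % 3 = 1) (hq4 : p ^ 2 % 4 = 1) {a b m : ℕ} (hm1 : 1 ≤ m)
    (hmp : m ≤ p - 1) (hsize : m * 2 ^ a * 3 ^ (2 * n') ≤ 3 ^ b) {N : ℕ} (hN : N = 2 ^ a * 3 ^ b)
    (ψ : DirichletCharacter ℂ N) (hprim : ψ.IsPrimitive) (hpar : ψ (-1) = (-1) ^ m) :
    IsUnitAt p (lValue p m ψ) := by
  subst hN
  have hA : Adm 2 (p ^ 2) := Or.inr ⟨rfl, hq4⟩
  obtain ⟨c, hc1, hc2, -⟩ := pow_dvd_geom hA a
  have hg : p ^ (2 * 2 ^ a) = (p ^ 2) ^ 2 ^ a := by rw [← pow_mul]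
  refine part_one hp h5 (ℓ := 3) (Or.inr rfl) (N₁ := 2 ^ a) (g := 2 * 2 ^ a) (n := n')
    (Nat.Coprime.pow_left _ (by norm_num)) ?_ (even_two_mul _) ?_ ?_ ?_ hm1 hmp hsize ψ ?_ hpar
  · intro h
    have := (Nat.prime_dvd_prime_iff_eq hp Nat.prime_two).1 (hp.dvd_of_dvd_pow h)
    omega
  · rw [hg, hc1]
    have h1 : (2 ^ a).totient ∣ 2 ^ a := by
      rcases Nat.eq_zero_or_pos a with h | h
      · subst h
        simp
      · rw [Nat.totient_prime_pow Nat.prime_two h]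
        have e1 : 2 ^ a = 2 ^ (a - 1) * 2 := by
          rw [← pow_succ]
          congr 1
          omega
        rw [e1]
        exact mul_dvd_mul dvd_rfl (by norm_num)
    exact (h1.trans (dvd_mul_right _ _)).mul_left _
  · rw [hg, hc1, hpu]
    exact ((dvd_mul_left _ _).mul_right _).mul_right _
  · rw [hg, hc1, hpu]
    intro h
    have e1 : 2 ^ n * 3 ^ n' * u * (2 ^ a * c) = 3 ^ n' * (2 ^ n * u * (2 ^ a * c)) := by ring
    rw [e1, pow_succ] at h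
    have h1 := Nat.dvd_of_mul_dvd_mul_left (by positivity) h
    have h2 : ¬ 3 ∣ 2 ^ a * c := by
      intro h3
      have h4 := geom_mod (p ^ 2) (2 ^ a) 3 hq3
      rw [hc2, Nat.mod_eq_zero_of_dvd h3] at h4
      have h5 := Nat.Prime.dvd_of_dvd_pow Nat.prime_three (Nat.dvd_of_mod_eq_zero h4.symm)
      omega
    have h3 : ¬ 3 ∣ 2 ^ n * u := by
      intro h3
      rcases (Nat.prime_three.dvd_mul).1 h3 with h4 | h4
      · have h5 := Nat.Prime.dvd_of_dvd_pow Nat.prime_three h4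
        omega
      · have h5 := Nat.dvd_gcd h4 (dvd_refl 3)
        rw [hu3] at h5
        omega
    rcases (Nat.prime_three.dvd_mul).1 h1 with h4 | h4
    · exact h3 h4
    · exact h2 h4
  · rw [DirichletCharacter.isPrimitive_def] at hprim
    rw [hprim]
    exact dvd_mul_left _ _

/-- the power of `2` large -/
theorem unit_two {p : ℕ} (hp : p.Prime) (h5 : 5 ≤ p) {n n' u : ℕ} (hpu : p ^ 2 - 1 = 2 ^ n * 3 ^ n' * u)
    (hu2 : u.Coprime 2) (hq3 : p ^ 2 % 3 = 1) (hq4 : p ^ 2 % 4 = 1) {a b m : ℕ} (hm1 : 1 ≤ m)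
    (hmp : m ≤ p - 1) (hsize : m * 3 ^ b * 2 ^ (2 * n) ≤ 2 ^ a) {N : ℕ} (hN : N = 2 ^ a * 3 ^ b)
    (ψ : DirichletCharacter ℂ N) (hprim : ψ.IsPrimitive) (hpar : ψ (-1) = (-1) ^ m) :
    IsUnitAt p (lValue p m ψ) := by
  rw [mul_comm] at hN
  subst hN
  have hA : Adm 3 (p ^ 2) := Or.inl ⟨rfl, hq3⟩
  obtain ⟨c, hc1, hc2, -⟩ := pow_dvd_geom hA b
  have hg : p ^ (2 * 3 ^ b) = (p ^ 2) ^ 3 ^ b := by rw [← pow_mul]
  refine part_one hp h5 (ℓ := 2) (Or.inl rfl) (N₁ := 3 ^ b) (g := 2 * 3 ^ b) (n := n)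
    (Nat.Coprime.pow_left _ (by norm_num)) ?_ (even_two_mul _) ?_ ?_ ?_ hm1 hmp hsize ψ ?_ hpar
  · intro h
    have := (Nat.prime_dvd_prime_iff_eq hp Nat.prime_three).1 (hp.dvd_of_dvd_pow h)
    omega
  · rw [hg, hc1]
    have h1 : (3 ^ b).totient ∣ 2 * 3 ^ b := by
      rcases Nat.eq_zero_or_pos b with h | h
      · subst h
        simp
      · rw [Nat.totient_prime_pow Nat.prime_three h]
        have e1 : 3 ^ b = 3 ^ (b - 1) * 3 := by
          rw [← pow_succ]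
          congr 1
          omega
        rw [e1]
        have : 3 ^ (b - 1) * (3 - 1) = 2 * 3 ^ (b - 1) := by ring
        rw [this]
        exact mul_dvd_mul dvd_rfl (dvd_mul_right _ _)
    have h2 : 2 ∣ p ^ 2 - 1 := by omega
    refine h1.trans ?_
    exact mul_dvd_mul h2 (dvd_mul_right _ _)
  · rw [hg, hc1, hpu]
    exact ((dvd_mul_right _ _).mul_right _).mul_right _
  · rw [hg, hc1, hpu]
    intro h
    have e1 : 2 ^ n * 3 ^ n' * u * (3 ^ b * c) = 2 ^ n * (3 ^ n' * u * (3 ^ b * c)) := by ring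
    rw [e1, pow_succ] at h
    have h1 := Nat.dvd_of_mul_dvd_mul_left (by positivity) h
    have h2 : ¬ 2 ∣ 3 ^ b * c := by
      intro h3
      have h4 := geom_mod (p ^ 2) (3 ^ b) 2 (by omega)
      rw [hc2, Nat.mod_eq_zero_of_dvd h3] at h4
      have h5 := Nat.Prime.dvd_of_dvd_pow Nat.prime_two (Nat.dvd_of_mod_eq_zero h4.symm)
      omega
    have h3 : ¬ 2 ∣ 3 ^ n' * u := by
      intro h3
      rcases (Nat.prime_two.dvd_mul).1 h3 with h4 | h4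
      · have h5 := Nat.Prime.dvd_of_dvd_pow Nat.prime_two h4
        omega
      · have h5 := Nat.dvd_gcd h4 (dvd_refl 2)
        rw [hu2] at h5
        omega
    rcases (Nat.prime_two.dvd_mul).1 h1 with h4 | h4
    · exact h3 h4
    · exact h2 h4
  · rw [DirichletCharacter.isPrimitive_def] at hprim
    rw [hprim]
    exact dvd_mul_left _ _

/-- all conductors `2^a 3^b ≥ p^11` -/
theorem unit_all {p : ℕ} (hp : p.Prime) (h5 : 5 ≤ p) {a b m : ℕ} (hm1 : 1 ≤ m)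
    (hmp : m ≤ p - 1) {N : ℕ} (hN : N = 2 ^ a * 3 ^ b) (hsize : p ^ 11 ≤ N)
    (ψ : DirichletCharacter ℂ N) (hprim : ψ.IsPrimitive) (hpar : ψ (-1) = (-1) ^ m) :
    IsUnitAt p (lValue p m ψ) := by
  obtain ⟨n, n', u, hpu, hu2, hu3, hn, hn', hq3, hq4⟩ := exists_fac hp h5
  rcases Nat.lt_or_ge (3 ^ b) (m * 2 ^ a * 3 ^ (2 * n')) with hs3 | hs3
  swap
  · exact unit_three hp h5 hpu hu3 hq3 hq4 hm1 hmp hs3 hN ψ hprim hpar
  rcases Nat.lt_or_ge (2 ^ a) (m * 3 ^ b * 2 ^ (2 * n)) with hs2 | hs2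
  swap
  · exact unit_two hp h5 hpu hu2 hq3 hq4 hm1 hmp hs2 hN ψ hprim hpar
  -- `L = 2^n 3^n' < p^2`
  set L := 2 ^ n * 3 ^ n' with hL
  have hu0 : 1 ≤ u := by
    rcases Nat.eq_zero_or_pos u with h | h
    · rw [h, Nat.coprime_zero_left] at hu2
      omega
    · exact h
  have hLp : L ≤ p ^ 2 := by
    have h1 : L ≤ L * u := Nat.le_mul_of_pos_right _ hu0
    omega
  have hL4 : L ^ 4 ≤ p ^ 8 := by
    calc L ^ 4 ≤ (p ^ 2) ^ 4 := Nat.pow_le_pow_left hLp 4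
      _ = p ^ 8 := by ring
  set m' := max m 2 with hm'
  have hm'p : m' ≤ p := by
    rw [hm']
    omega
  have hmp' : m ≤ p := by omega
  have hp0 : 0 < p := hp.pos
  have hi : 2 ^ (2 * n + 2) * 3 ^ n' ≤ 2 ^ a := by
    by_contra hcon
    push Not at hcon
    have h1 : N < 16 * (m * L ^ 4) := by
      calc N = 2 ^ a * 3 ^ b := hN
        _ < 2 ^ a * (m * 2 ^ a * 3 ^ (2 * n')) := Nat.mul_lt_mul_of_pos_left hs3 (by positivity)
        _ = 2 ^ a * 2 ^ a * (m * 3 ^ (2 * n')) := by ring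
        _ ≤ (2 ^ (2 * n + 2) * 3 ^ n') * (2 ^ (2 * n + 2) * 3 ^ n') * (m * 3 ^ (2 * n')) :=
          Nat.mul_le_mul_right _ (Nat.mul_le_mul hcon.le hcon.le)
        _ = 16 * (m * L ^ 4) := by
          rw [hL]
          ring
    have h2 : 16 * (m * L ^ 4) ≤ p ^ 11 := by
      calc 16 * (m * L ^ 4) ≤ (p * p) * (p * p ^ 8) :=
            Nat.mul_le_mul (by nlinarith) (Nat.mul_le_mul hmp' hL4)
        _ = p ^ 11 := by ring
    omega
  have hii : m' * 2 ^ n * 3 ^ (2 * n') ≤ 3 ^ b := by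
    by_contra hcon
    push Not at hcon
    have h1 : N < m * (m' * m') * L ^ 4 := by
      calc N = 2 ^ a * 3 ^ b := hN
        _ < m * 3 ^ b * 2 ^ (2 * n) * 3 ^ b := Nat.mul_lt_mul_of_pos_right hs2 (by positivity)
        _ = 3 ^ b * 3 ^ b * (m * 2 ^ (2 * n)) := by ring
        _ ≤ (m' * 2 ^ n * 3 ^ (2 * n')) * (m' * 2 ^ n * 3 ^ (2 * n')) * (m * 2 ^ (2 * n)) :=
          Nat.mul_le_mul_right _ (Nat.mul_le_mul hcon.le hcon.le)
        _ = m * (m' * m') * L ^ 4 := by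
          rw [hL]
          ring
    have h2 : m * (m' * m') * L ^ 4 ≤ p ^ 11 := by
      calc m * (m' * m') * L ^ 4 ≤ p * (p * p) * p ^ 8 :=
            Nat.mul_le_mul (Nat.mul_le_mul hmp' (Nat.mul_le_mul hm'p hm'p)) hL4
        _ = p ^ 11 := by ring
    omega
  have ha : 2 * n + 2 ≤ a := by
    have h1 : 2 ^ (2 * n + 2) ≤ 2 ^ a := by
      calc 2 ^ (2 * n + 2) ≤ 2 ^ (2 * n + 2) * 3 ^ n' := Nat.le_mul_of_pos_right _ (by positivity)
        _ ≤ 2 ^ a := hi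
    exact (Nat.pow_le_pow_iff_right (by norm_num)).1 h1
  have hb : 2 * n' ≤ b := by
    have h1 : 3 ^ (2 * n') ≤ 3 ^ b := by
      calc 3 ^ (2 * n') = 1 * 1 * 3 ^ (2 * n') := by ring
        _ ≤ m' * 2 ^ n * 3 ^ (2 * n') := by
          refine Nat.mul_le_mul_right _ (Nat.mul_le_mul ?_ (Nat.one_le_pow _ _ (by norm_num)))
          rw [hm']
          omega
        _ ≤ 3 ^ b := hii
    exact (Nat.pow_le_pow_iff_right (by norm_num)).1 h1
  refine unit_big hp h5 hpu hu2 hu3 hn hn' hm1 hmp (by omega) hb ?_ hN ψ hprim hpar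
  -- the size condition
  have ea : 2 ^ a = 2 ^ (a - n) * 2 ^ n := by
    rw [← pow_add]
    congr 1
    omega
  have eb : 3 ^ b = 3 ^ (b - n') * 3 ^ n' := by
    rw [← pow_add]
    congr 1
    omega
  have ea' : 2 ^ a = 2 * 2 ^ (a - 1) := by
    rw [← pow_succ']
    congr 1
    omega
  have h1 : 2 * (2 * (2 ^ n * 3 ^ b)) ≤ 2 ^ (a - n) * 3 ^ (b - n') := by
    have h2 : 2 ^ (n + 2) * 3 ^ n' ≤ 2 ^ (a - n) := by
      have h3 : 2 ^ (n + 2) * 3 ^ n' * 2 ^ n ≤ 2 ^ (a - n) * 2 ^ n := by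
        rw [← ea]
        calc 2 ^ (n + 2) * 3 ^ n' * 2 ^ n = 2 ^ (2 * n + 2) * 3 ^ n' := by ring
          _ ≤ 2 ^ a := hi
      exact Nat.le_of_mul_le_mul_right h3 (by positivity)
    calc 2 * (2 * (2 ^ n * 3 ^ b)) = (2 ^ (n + 2) * 3 ^ n') * 3 ^ (b - n') := by
          rw [eb]
          ring
      _ ≤ 2 ^ (a - n) * 3 ^ (b - n') := Nat.mul_le_mul_right _ h2
  have h2 : 2 * (m' * (2 ^ (a - 1) * 3 ^ n')) ≤ 2 ^ (a - n) * 3 ^ (b - n') := by
    have h3 : m' * 2 ^ n * 3 ^ n' ≤ 3 ^ (b - n') := by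
      have h4 : m' * 2 ^ n * 3 ^ n' * 3 ^ n' ≤ 3 ^ (b - n') * 3 ^ n' := by
        rw [← eb]
        calc m' * 2 ^ n * 3 ^ n' * 3 ^ n' = m' * 2 ^ n * 3 ^ (2 * n') := by ring
          _ ≤ 3 ^ b := hii
      exact Nat.le_of_mul_le_mul_right h4 (by positivity)
    calc 2 * (m' * (2 ^ (a - 1) * 3 ^ n')) = (2 * 2 ^ (a - 1)) * (m' * 3 ^ n') := by ring
      _ = 2 ^ (a - n) * (m' * 2 ^ n * 3 ^ n') := by
          rw [← ea', ea]
          ring
      _ ≤ 2 ^ (a - n) * 3 ^ (b - n') := Nat.mul_le_mul_left _ h3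
  rw [← hm']
  omega

end Pool.Agent.P8H3.GB
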