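import Pool.Agent.P8H3.GB.Main
import Pool.Agent.P8H3.GB.Red
import Pool.Agent.P8H3.GB.Val

/-!
# Conductors `2^a 3^b`, for all primes `p ≥ 5`
-/

set_option autoImplicit false

namespace Pool.Agent.P8H3.GB

open Finset Polynomial Pool.Agent.Y18.GX

section prim
variable {a b N : ℕ} (hN : N = 2 ^ a * 3 ^ b) (ψ : DirichletCharacter ℂ N) (hprim : ψ.IsPrimitive)

include hN hprim in
/-- primitivity at `2` -/
lemma prim_two (ha : 1 ≤ a) (x : ℕ) (h3 : x ≡ 1 [MOD 3 ^ b]) (h2 : x ≡ 1 + 2 ^ (a - 1) [MOD 2 ^ a]) :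
    ψ (x : ZMod N) ≠ 1 := by
  have hN0 : N ≠ 0 := by rw [hN]; positivity
  have h2a : 2 ^ a = 2 * 2 ^ (a - 1) := by
    rw [← pow_succ']
    congr 1
    omega
  obtain ⟨y, hyN, hyc, hy1, hy2⟩ := exists_ne (d := 2 ^ (a - 1) * 3 ^ b) hN0 ψ
    (by rw [hN, h2a]; exact ⟨2, by ring⟩)
    (by
      rw [DirichletCharacter.isPrimitive_def] at hprim
      rw [hprim]
      intro h
      have h4 := Nat.le_of_dvd (by positivity) h
      rw [hN, h2a] at h4
      have : 0 < 2 ^ (a - 1) * 3 ^ b := by positivity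
      nlinarith)
  have hy3 : y ≡ 1 [MOD 3 ^ b] := hy1.of_dvd (dvd_mul_left _ _)
  have hy4 : y ≡ 1 [MOD 2 ^ (a - 1)] := hy1.of_dvd (dvd_mul_right _ _)
  have hcop : Nat.Coprime (2 ^ a) (3 ^ b) := Nat.Coprime.pow _ _ (by norm_num)
  -- `y` modulo `2^a`
  have hcase : y ≡ 1 [MOD 2 ^ a] ∨ y ≡ 1 + 2 ^ (a - 1) [MOD 2 ^ a] := by
    have h5 : (2 ^ (a - 1) : ℤ) ∣ (y : ℤ) - 1 := by
      have := (Nat.modEq_iff_dvd.1 hy4.symm)
      push_cast at this
      exact this
    obtain ⟨c, hc⟩ := h5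
    rcases Int.even_or_odd' c with ⟨d, hd | hd⟩
    · left
      apply Nat.ModEq.symm
      rw [Nat.modEq_iff_dvd]
      refine ⟨d, ?_⟩
      push_cast
      have e1 : (2 : ℤ) ^ a = 2 * 2 ^ (a - 1) := by exact_mod_cast h2a
      rw [e1]
      linear_combination hc + (2 : ℤ) ^ (a - 1) * hd
    · right
      apply Nat.ModEq.symm
      rw [Nat.modEq_iff_dvd]
      refine ⟨d, ?_⟩
      push_cast
      have e1 : (2 : ℤ) ^ a = 2 * 2 ^ (a - 1) := by exact_mod_cast h2a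
      rw [e1]
      linear_combination hc + (2 : ℤ) ^ (a - 1) * hd
  rcases hcase with h | h
  · exfalso
    apply hy2
    have h6 : y ≡ 1 [MOD N] := by
      rw [hN]
      exact (Nat.modEq_and_modEq_iff_modEq_mul hcop).1 ⟨h, hy3⟩
    rw [(ZMod.natCast_eq_natCast_iff _ _ _).2 h6]
    simp
  · have h6 : x ≡ y [MOD N] := by
      rw [hN]
      exact (Nat.modEq_and_modEq_iff_modEq_mul hcop).1 ⟨h2.trans h.symm, h3.trans hy3.symm⟩
    rw [(ZMod.natCast_eq_natCast_iff _ _ _).2 h6]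
    exact hy2

include hN hprim in
/-- primitivity at `3` -/
lemma prim_three (hb : 2 ≤ b) (x : ℕ) (h2 : x ≡ 1 [MOD 2 ^ a]) (h3 : x ≡ 1 + 3 ^ (b - 1) [MOD 3 ^ b]) :
    ψ (x : ZMod N) ≠ 1 := by
  have hN0 : N ≠ 0 := by rw [hN]; positivity
  have h3b : 3 ^ b = 3 * 3 ^ (b - 1) := by
    rw [← pow_succ']
    congr 1
    omega
  obtain ⟨y, hyN, hyc, hy1, hy2⟩ := exists_ne (d := 2 ^ a * 3 ^ (b - 1)) hN0 ψ
    (by rw [hN, h3b]; exact ⟨3, by ring⟩)
    (by
      rw [DirichletCharacter.isPrimitive_def] at hprim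
      rw [hprim]
      intro h
      have h4 := Nat.le_of_dvd (by positivity) h
      rw [hN, h3b] at h4
      have : 0 < 2 ^ a * 3 ^ (b - 1) := by positivity
      nlinarith)
  have hy3 : y ≡ 1 [MOD 3 ^ (b - 1)] := hy1.of_dvd (dvd_mul_left _ _)
  have hy4 : y ≡ 1 [MOD 2 ^ a] := hy1.of_dvd (dvd_mul_right _ _)
  have hy0 : 1 ≤ y := by
    rcases Nat.eq_zero_or_pos y with h | h
    · exfalso
      rw [h, Nat.coprime_zero_left] at hyc
      have : 3 ≤ 3 ^ b := by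
        calc 3 = 3 ^ 1 := (pow_one 3).symm
          _ ≤ 3 ^ b := Nat.pow_le_pow_right (by norm_num) (by omega)
      have h4 : 0 < 2 ^ a := by positivity
      rw [hN] at hyc
      nlinarith
    · exact h
  obtain ⟨c, hc⟩ := (Nat.modEq_iff_dvd' hy0).1 hy3.symm
  intro hx
  apply hy2
  have h5 : x ^ c ≡ y [MOD N] := by
    rw [hN]
    refine (Nat.modEq_and_modEq_iff_modEq_mul (Nat.Coprime.pow _ _ (by norm_num))).1 ⟨?_, ?_⟩
    · have := h2.pow c
      rw [one_pow] at this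
      exact this.trans hy4.symm
    · have e1 : y = 1 + 3 ^ (b - 1) * c := by omega
      rw [e1]
      refine (h3.pow c).trans (one_add_pow_mod ?_ c)
      rw [← pow_add]
      exact pow_dvd_pow _ (by omega)
  rw [← (ZMod.natCast_eq_natCast_iff _ _ _).2 h5]
  push_cast
  rw [map_pow, hx, one_pow]

end prim

/-- both exponents large -/
theorem unit_big {p : ℕ} (hp : p.Prime) (h5 : 5 ≤ p) {n n' u : ℕ} (hpu : p ^ 2 - 1 = 2 ^ n * 3 ^ n' * u)
    (hu2 : u.Coprime 2) (hu3 : u.Coprime 3) (hn : 1 ≤ n) (hn' : 1 ≤ n') {a b m : ℕ} (hm1 : 1 ≤ m)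
    (hmp : m ≤ p - 1) (ha : 2 * n + 1 ≤ a) (hb : 2 * n' ≤ b)
    (hC : 2 * (2 ^ n * 3 ^ b) + max m 2 * (2 ^ (a - 1) * 3 ^ n') ≤ 2 ^ (a - n) * 3 ^ (b - n'))
    {N : ℕ} (hN : N = 2 ^ a * 3 ^ b) (ψ : DirichletCharacter ℂ N) (hprim : ψ.IsPrimitive)
    (hpar : ψ (-1) = (-1) ^ m) : IsUnitAt p (lValue p m ψ) := by
  have hpF : Fact p.Prime := ⟨hp⟩
  have hp2 : ¬ p ∣ 2 := fun h => by have := (Nat.prime_dvd_prime_iff_eq hp Nat.prime_two).1 h; omega
  have hp3 : ¬ p ∣ 3 := fun h => by have := (Nat.prime_dvd_prime_iff_eq hp Nat.prime_three).1 h; omega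
  have hpodd : p % 2 = 1 := by
    rcases hp.eq_two_or_odd with h | h
    · omega
    · exact h
  have hp3' : p % 3 ≠ 0 := by
    intro h
    have := (Nat.prime_dvd_prime_iff_eq Nat.prime_three hp).1 (Nat.dvd_of_mod_eq_zero h)
    omega
  have hq3 : p ^ 2 % 3 = 1 := by
    have : p % 3 = 1 ∨ p % 3 = 2 := by omega
    rw [Nat.pow_mod]
    rcases this with h | h <;> rw [h]
  have hq4 : p ^ 2 % 4 = 1 := by
    have : p % 4 = 1 ∨ p % 4 = 3 := by omega
    rw [Nat.pow_mod]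
    rcases this with h | h <;> rw [h]
  have hNgt : 1 < N := by
    rw [hN]
    have h1 : 2 ≤ 2 ^ a := by
      calc 2 = 2 ^ 1 := (pow_one 2).symm
        _ ≤ 2 ^ a := Nat.pow_le_pow_right (by norm_num) (by omega)
    have h2 : 1 ≤ 3 ^ b := Nat.one_le_pow _ _ (by norm_num)
    nlinarith
  have hpN : ¬ p ∣ N := by
    intro h
    rw [hN] at h
    rcases (hp.dvd_mul).1 h with h | h
    · exact hp2 (hp.dvd_of_dvd_pow h)
    · exact hp3 (hp.dvd_of_dvd_pow h)
  have hpφ : ¬ p ∣ N.totient := by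
    intro h
    rw [hN] at h
    have h1 := hp.dvd_of_dvd_pow (h.trans (totient_dvd_six a b))
    have h2 : p ∣ 2 * 3 := h1
    rcases (hp.dvd_mul).1 h2 with h | h
    · exact hp2 h
    · exact hp3 h
  have hψ1 : ψ ≠ 1 := by
    have : NeZero N := ⟨by omega⟩
    intro h
    rw [h, DirichletCharacter.isPrimitive_def, DirichletCharacter.conductor_one] at hprim
    omega
  have heven : 2 ∣ p ^ 2 - 1 := by omega
  have hP2 := prim_two hN ψ hprim (by omega)
  have hP3 := prim_three hN ψ hprim (by omega)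
  rw [lValue_eq (by omega)]
  refine unit_gen' hp ψ hpN hpφ hpar hm1 (by omega) ?_ ?_ (sum_char (by omega) ψ hψ1)
  · -- the Euler factor
    intro _ hψp
    have h1 := ker_loc (N₁ := 3 ^ b) (K := a) (ℓ := 2) (n := n) (q := p ^ 2) (u := 3 ^ n' * u) (A := 3 ^ b)
        (by rw [hN, mul_comm]) ψ (Nat.Coprime.pow_left _ (by norm_num)) (Or.inr ⟨rfl, hq4⟩) (by omega) hn
        hP2 (by rw [hpu]; ring)
        (Nat.Coprime.mul_left (Nat.Coprime.pow_left _ (by norm_num)) hu2) (by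
          rw [Nat.totient_prime_pow Nat.prime_three (by omega)]
          have e1 : 3 ^ b = 3 ^ (b - 1) * 3 := by
            rw [← pow_succ]
            congr 1
            omega
          have e2 : 3 ^ (b - 1) ∣ 3 ^ b := by
            rw [e1]
            exact dvd_mul_right _ _
          rw [mul_comm]
          exact mul_dvd_mul heven e2) (Nat.Coprime.pow_left _ (by norm_num)) heven p
        ((Nat.Prime.coprime_iff_not_dvd hp).2 hpN) (by rw [hψp, one_pow])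
    have h2 : 2 ^ (a - n) ∣ 2 ^ n * (3 ^ n' * u) := by
      have e1 : 2 ^ n * (3 ^ n' * u) = (p + 1) * (p - 1) := by
        rw [← mul_assoc, ← hpu, ← one_pow 2, Nat.sq_sub_sq, one_pow]
      rw [e1]
      rcases h1 with h1 | h1
      · exact h1.mul_left _
      · exact h1.mul_right _
    have h3 : 2 ^ (n + 1) ∣ 2 ^ n * (3 ^ n' * u) := (pow_dvd_pow _ (by omega)).trans h2
    rw [pow_succ] at h3
    have h4 : 2 ∣ 3 ^ n' * u := Nat.dvd_of_mul_dvd_mul_left (by positivity) h3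
    have h5 : (3 ^ n' * u).Coprime 2 := Nat.Coprime.mul_left (Nat.Coprime.pow_left _ (by norm_num)) hu2
    have h6 := Nat.dvd_gcd h4 (dvd_refl 2)
    rw [h5] at h6
    omega
  · -- the sum
    intro k _ _ _ χ hχ hχm hS
    obtain ⟨T, hT2, hT3⟩ := Nat.chineseRemainder (Nat.Coprime.pow a b (by norm_num : Nat.Coprime 2 3))
      (2 ^ a - 1) 1
    have hT2' : T + 1 ≡ 0 [MOD 2 ^ a] := by
      have h1 := hT2.add_right 1
      have h2 : 2 ^ a - 1 + 1 = 2 ^ a := Nat.sub_add_cancel (Nat.one_le_pow _ _ (by norm_num))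
      rw [h2] at h1
      exact h1.trans (Nat.modEq_zero_iff_dvd.2 dvd_rfl)
    have hnk : ∀ n : ℕ, ¬ p ∣ n → ((n : ℕ) : k) ≠ 0 := fun n hn h =>
      hn ((CharP.cast_eq_zero_iff k p n).1 h)
    have hpf : ¬ p ∣ m.factorial := fun h => by
      have := (hp.dvd_factorial).1 h
      omega
    let D : Dt k p :=
      { a := a, b := b, n := n, n' := n', u := u, g := 2, q := p ^ 2, L := 2 ^ n * 3 ^ n', 
        M := 2 ^ (a - n) * 3 ^ (b - n'), N := N, T := T, m := m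
        hq := rfl, h3 := hq3, h4 := hq4, hqu := hpu, hu2 := hu2, hu3 := hu3, hn := hn, hn' := hn'
        ha := ha, hb := hb, hN := hN, hM := rfl, hL := rfl, hT2 := hT2', hT3 := hT3, χ := χ
        prim2 := fun x h1 h2 h3 => hP2 x h1 h2 (hχ _ h3)
        prim3 := fun x h1 h2 h3 => hP3 x h1 h2 (hχ _ h3)
        hpar := hχm, F := FF m, c₀ := _, hF := fun x => FF_aeval_refl m x, hS := hS }
    refine D.contra h5 hm1 (show m < p by omega) (FF_natDegree m) ?_ hC
    show ((((FF m).coeff m : ℤ)) : k) ≠ 0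
    rw [FF_coeff m hm1]
    have := hnk _ hpf
    push_cast
    exact this

end Pool.Agent.P8H3.GB
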