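import Pool.Agent.Y18.GX.Core

/-!
# The polynomials `∑ ζ^t f(x + t/L)` and sums of periodic functions
-/

set_option autoImplicit false

namespace Pool.Agent.P8H3.GB

open Finset Polynomial Pool.Agent.Y18.GX

section
variable {k : Type*} [Field k]

lemma sum_pow_zero {ζ : k} {L : ℕ} (h : ζ ^ L = 1) (h1 : ζ ≠ 1) : ∑ t ∈ range L, ζ ^ t = 0 := by
  have h2 := geom_sum_mul ζ L
  rw [h, sub_self] at h2
  exact (mul_eq_zero.1 h2).resolve_right (sub_ne_zero.2 h1)

lemma sum_t_pow (ζ : k) (n : ℕ) :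
    (ζ - 1) * ∑ t ∈ range n, (t : k) * ζ ^ t = n * ζ ^ n - ζ * ∑ t ∈ range n, ζ ^ t := by
  induction n with
  | zero => simp
  | succ n ih =>
    rw [Finset.sum_range_succ, mul_add, ih, Finset.sum_range_succ]
    push_cast
    ring

lemma sum_t_pow' {ζ : k} {L : ℕ} (h : ζ ^ L = 1) (h1 : ζ ≠ 1) :
    (ζ - 1) * ∑ t ∈ range L, (t : k) * ζ ^ t = L := by
  rw [sum_t_pow, sum_pow_zero h h1, h]
  ring

/-- the polynomial `∑ ζ^t f(x + t/L)` -/
noncomputable def QQ (L : ℕ) (f : k[X]) (ζ : k) : k[X] := ∑ t ∈ range L, C (ζ ^ t) * taylor ((t : k) / L) f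

lemma QQ_degree {L m : ℕ} {f : k[X]} (hf : f.natDegree ≤ m) {ζ : k} (h : ζ ^ L = 1) (h1 : ζ ≠ 1) :
    (QQ L f ζ).degree < m := by
  rw [degree_lt_iff_coeff_zero]
  intro i hi
  rcases hi.eq_or_lt with h2 | h2
  · rw [← h2, QQ, finsetSum_coeff]
    simp only [coeff_C_mul, taylor_coeff_top f m hf]
    rw [← Finset.sum_mul, sum_pow_zero h h1, zero_mul]
  · rw [QQ, finsetSum_coeff]
    refine Finset.sum_eq_zero fun t _ => ?_
    rw [coeff_C_mul, coeff_eq_zero_of_natDegree_lt, mul_zero]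
    rw [natDegree_taylor]
    omega

lemma QQ_coeff {L m : ℕ} {f : k[X]} (hm : 1 ≤ m) (hf : f.natDegree ≤ m) {ζ : k} (h : ζ ^ L = 1) (h1 : ζ ≠ 1)
    (hL : (L : k) ≠ 0) : (ζ - 1) * (QQ L f ζ).coeff (m - 1) = m * f.coeff m := by
  rw [QQ, finsetSum_coeff]
  simp only [coeff_C_mul, taylor_coeff_sub f m hm hf]
  have h2 : ∑ t ∈ range L, ζ ^ t * (f.coeff (m - 1) + m * f.coeff m * ((t : k) / L)) =
      f.coeff (m - 1) * ∑ t ∈ range L, ζ ^ t + (m * f.coeff m / L) * ∑ t ∈ range L, (t : k) * ζ ^ t := by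
    rw [Finset.mul_sum, Finset.mul_sum, ← Finset.sum_add_distrib]
    refine Finset.sum_congr rfl fun t _ => ?_
    ring
  rw [h2, sum_pow_zero h h1, mul_zero, zero_add, mul_left_comm, sum_t_pow' h h1, div_mul_cancel₀ _ hL]

lemma QQ_eval {L M N : ℕ} (hN : N = M * L) (hNk : (N : k) ≠ 0) (F : ℤ[X]) (ζ : k) (x : ℕ) :
    (QQ L (F.map (Int.castRingHom k)) ζ).eval ((x : k) / N) =
      ∑ t ∈ range L, ζ ^ t * aeval (((x + M * t : ℕ) : k) / N) F := by
  have hL : (L : k) ≠ 0 := by
    intro h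
    apply hNk
    rw [hN]
    push_cast
    rw [h, mul_zero]
  rw [QQ, eval_finsetSum]
  refine Finset.sum_congr rfl fun t _ => ?_
  have hx : (x : k) / N + (t : k) / L = ((x + M * t : ℕ) : k) / N := by
    have hM : (M : k) ≠ 0 := by
      intro h
      apply hNk
      rw [hN]
      push_cast
      rw [h, zero_mul]
    rw [hN]
    push_cast
    field_simp
  rw [eval_mul, eval_C, taylor_eval, hx, eval_map, aeval_def]
  rfl

/-- two relations with polynomials of degree `m - 1` are impossible -/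
theorem two_rel {p m : ℕ} [Fact p.Prime] [CharP k p] (hm : 2 ≤ m) (hmp : m < p) (hp2 : p ≠ 2) {P Q : k[X]}
    (hP : P.degree < m) (hQ : Q.degree < m) (s r₁ r₂ : k) (hr : r₁ ≠ r₂) (hP0 : P.coeff (m - 1) ≠ 0)
    (x₁ x₂ : k) (h : k) (hh : h ≠ 0)
    (h1 : ∀ i : ℕ, i < m → P.eval (x₁ + i * h + r₁) + s * Q.eval (x₁ + i * h - r₁) = 0)
    (h2 : ∀ i : ℕ, i < m → P.eval (x₂ + i * h + r₂) + s * Q.eval (x₂ + i * h - r₂) = 0) : False := by
  have key : ∀ (x r : k), (∀ i : ℕ, i < m → P.eval (x + i * h + r) + s * Q.eval (x + i * h - r) = 0) →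
      taylor r P + C s * taylor (-r) Q = 0 := by
    intro x r hx
    refine eq_zero_of_degree_lt_of_eval_index_eq_zero (s := range m) (f := taylor r P + C s * taylor (-r) Q)
        (v := fun i : ℕ => x + (i : k) * h) ?_ ?_ ?_
    · intro i hi j hj hij
      have hi' : i < m := by simpa using hi
      have hj' : j < m := by simpa using hj
      simp only at hij
      have h3 : (i : k) * h = (j : k) * h := by linear_combination hij
      have h4 : (i : k) = (j : k) := mul_right_cancel₀ hh h3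
      rw [CharP.cast_eq_iff_mod_eq k p, Nat.mod_eq_of_lt (by omega), Nat.mod_eq_of_lt (by omega)] at h4
      exact h4
    · rw [card_range]
      refine lt_of_le_of_lt (degree_add_le _ _) (max_lt ?_ ?_)
      · rwa [degree_taylor]
      · refine lt_of_le_of_lt (degree_mul_le _ _) ?_
        rw [degree_taylor]
        refine lt_of_le_of_lt (add_le_add degree_C_le le_rfl) ?_
        rwa [zero_add]
    · intro i hi
      rw [eval_add, eval_mul, eval_C, taylor_eval, taylor_eval, ← hx i (mem_range.1 hi)]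
      congr 3
      ring
  have hPn : P.natDegree ≤ m - 1 := by
    by_cases h0 : P = 0
    · rw [h0, natDegree_zero]
      omega
    · have := (natDegree_lt_iff_degree_lt h0).2 hP
      omega
  have hQn : Q.natDegree ≤ m - 1 := by
    by_cases h0 : Q = 0
    · rw [h0, natDegree_zero]
      omega
    · have := (natDegree_lt_iff_degree_lt h0).2 hQ
      omega
  have e1 := key x₁ r₁ h1
  have e2 := key x₂ r₂ h2
  have c1 := congrArg (fun f => f.coeff (m - 1)) e1
  have c2 := congrArg (fun f => f.coeff (m - 1 - 1)) e1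
  have c3 := congrArg (fun f => f.coeff (m - 1 - 1)) e2
  simp only [coeff_add, coeff_C_mul, coeff_zero, taylor_coeff_top P (m - 1) hPn, taylor_coeff_top Q (m - 1) hQn,
    taylor_coeff_sub P (m - 1) (by omega) hPn, taylor_coeff_sub Q (m - 1) (by omega) hQn] at c1 c2 c3
  have h3 : ((m - 1 : ℕ) : k) * (r₁ - r₂) * (P.coeff (m - 1) - s * Q.coeff (m - 1)) = 0 := by
    linear_combination c2 - c3
  have hm0 : ((m - 1 : ℕ) : k) ≠ 0 := by
    intro h0
    rw [CharP.cast_eq_zero_iff k p] at h0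
    have := Nat.le_of_dvd (by omega) h0
    omega
  have h20 : (2 : k) ≠ 0 := by
    intro h0
    have h1 : ((2 : ℕ) : k) = 0 := by exact_mod_cast h0
    rw [CharP.cast_eq_zero_iff k p] at h1
    exact hp2 ((Nat.prime_dvd_prime_iff_eq Fact.out Nat.prime_two).1 h1)
  rcases mul_eq_zero.1 h3 with h4 | h4
  · rcases mul_eq_zero.1 h4 with h5 | h5
    · exact hm0 h5
    · exact hr (sub_eq_zero.1 h5)
  · have h5 : 2 * P.coeff (m - 1) = 0 := by linear_combination c1 + h4
    rcases mul_eq_zero.1 h5 with h6 | h6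
    · exact h20 h6
    · exact hP0 h6

/-- the sum over a period of a function composed with the multiplication by a number prime to the period -/
lemma sum_mul_period (H : ℕ → k) (L Y Y' : ℕ) (hL : 0 < L) (hY : Y * Y' ≡ 1 [MOD L]) (hH : ∀ j, H (j + L) = H j) :
    ∑ c ∈ range L, H (c * Y) = ∑ c ∈ range L, H c := by
  have hmod : ∀ x, H (x % L) = H x := by
    intro x
    conv_rhs => rw [← Nat.mod_add_div x L]
    generalize x / L = j
    induction j with
    | zero => simp
    | succ j ih =>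
      rw [Nat.mul_succ, ← add_assoc, hH]
      exact ih
  refine Finset.sum_bij' (fun c _ => c * Y % L) (fun c _ => c * Y' % L) ?_ ?_ ?_ ?_ ?_
  · intro c _
    exact mem_range.2 (Nat.mod_lt _ hL)
  · intro c _
    exact mem_range.2 (Nat.mod_lt _ hL)
  · intro c hc
    have h1 : c * Y % L * Y' ≡ c [MOD L] := by
      calc c * Y % L * Y' ≡ c * Y * Y' [MOD L] := (Nat.mod_modEq _ _).mul_right _
        _ = c * (Y * Y') := by ring
        _ ≡ c * 1 [MOD L] := hY.mul_left c
        _ = c := mul_one c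
    have h2 : c * Y % L * Y' % L = c % L := h1
    rw [h2, Nat.mod_eq_of_lt (mem_range.1 hc)]
  · intro c hc
    have h1 : c * Y' % L * Y ≡ c [MOD L] := by
      calc c * Y' % L * Y ≡ c * Y' * Y [MOD L] := (Nat.mod_modEq _ _).mul_right _
        _ = c * (Y * Y') := by ring
        _ ≡ c * 1 [MOD L] := hY.mul_left c
        _ = c := mul_one c
    have h2 : c * Y' % L * Y % L = c % L := h1
    rw [h2, Nat.mod_eq_of_lt (mem_range.1 hc)]
  · intro c _
    rw [hmod]

end

end Pool.Agent.P8H3.GB
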