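import Pool.Agent.P8H3.GB.Gen
import Pool.Agent.P8H3.GB.Pol

/-!
# Nonvanishing of the character sums for large `2^a` and `3^b`
-/

set_option autoImplicit false

namespace Pool.Agent.P8H3.GB

open Finset Polynomial Pool.Agent.Y18.GX

/-- congruences modulo `2^a 3^b` -/
lemma modEq_of {a b x y : ℕ} (h2 : (x : ZMod (2 ^ a)) = y) (h3 : (x : ZMod (3 ^ b)) = y) :
    x ≡ y [MOD 2 ^ a * 3 ^ b] :=
  (Nat.modEq_and_modEq_iff_modEq_mul (Nat.Coprime.pow _ _ (by norm_num))).1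
    ⟨(ZMod.natCast_eq_natCast_iff _ _ _).1 h2, (ZMod.natCast_eq_natCast_iff _ _ _).1 h3⟩

/-- `1 + M c = (1 + M)^c` -/
lemma one_add_pow_mod {M N : ℕ} (hM : N ∣ M * M) (c : ℕ) : (1 + M) ^ c ≡ 1 + M * c [MOD N] := by
  rw [← ZMod.natCast_eq_natCast_iff]
  have h0 : ((M : ℕ) : ZMod N) ^ 2 = 0 := by
    have := (ZMod.natCast_eq_zero_iff (M * M) N).2 hM
    push_cast at this
    rw [sq]
    exact this
  have h := one_add_pow_of_sq ((M : ℕ) : ZMod N) h0 c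
  push_cast
  rw [h]
  ring

/-- the four sign patterns -/
lemma sign_cases {a b n n' M N T x : ℕ} (hN : N = 2 ^ a * 3 ^ b) (hM : M = 2 ^ (a - n) * 3 ^ (b - n'))
    (hT2 : T + 1 ≡ 0 [MOD 2 ^ a]) (hT3 : T ≡ 1 [MOD 3 ^ b])
    (h2 : 2 ^ (a - n) ∣ x - 1 ∨ 2 ^ (a - n) ∣ x + 1) (h3 : 3 ^ (b - n') ∣ x - 1 ∨ 3 ^ (b - n') ∣ x + 1)
    (hx : 1 ≤ x) : ∃ e d : ℕ, x ≡ (N - 1) ^ e * T ^ d [MOD M] := by
  have hN1 : 1 ≤ N := by rw [hN]; exact Nat.pos_of_ne_zero (by positivity)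
  have hcop : Nat.Coprime (2 ^ (a - n)) (3 ^ (b - n')) := Nat.Coprime.pow _ _ (by norm_num)
  have hd2 : 2 ^ (a - n) ∣ N := by
    rw [hN]
    exact (pow_dvd_pow _ (Nat.sub_le _ _)).mul_right _
  have hd3 : 3 ^ (b - n') ∣ N := by
    rw [hN]
    exact (pow_dvd_pow _ (Nat.sub_le _ _)).mul_left _
  have hneg : ∀ d : ℕ, d ∣ N → ((N - 1 : ℕ) : ZMod d) = -1 := by
    intro d hd
    rw [Nat.cast_sub hN1, (ZMod.natCast_eq_zero_iff N d).2 hd]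
    simp
  have hT2' : (T : ZMod (2 ^ (a - n))) = -1 := by
    have h1 : T + 1 ≡ 0 [MOD 2 ^ (a - n)] := hT2.of_dvd (pow_dvd_pow _ (Nat.sub_le _ _))
    have h4 := (ZMod.natCast_eq_natCast_iff _ _ _).2 h1
    push_cast at h4
    exact eq_neg_of_add_eq_zero_left h4
  have hT3' : (T : ZMod (3 ^ (b - n'))) = 1 := by
    have h1 : T ≡ 1 [MOD 3 ^ (b - n')] := hT3.of_dvd (pow_dvd_pow _ (Nat.sub_le _ _))
    have h4 := (ZMod.natCast_eq_natCast_iff _ _ _).2 h1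
    push_cast at h4
    exact h4
  have hx1 : ∀ d : ℕ, d ∣ x - 1 → (x : ZMod d) = 1 := by
    intro d hd
    have h4 := (ZMod.natCast_eq_zero_iff (x - 1) d).2 hd
    rw [Nat.cast_sub hx] at h4
    push_cast at h4
    exact sub_eq_zero.1 h4
  have hx2 : ∀ d : ℕ, d ∣ x + 1 → (x : ZMod d) = -1 := by
    intro d hd
    have h4 := (ZMod.natCast_eq_zero_iff (x + 1) d).2 hd
    push_cast at h4
    exact eq_neg_of_add_eq_zero_left h4
  have key : ∀ e d : ℕ, (x : ZMod (2 ^ (a - n))) = (-1) ^ e * (-1) ^ d → (x : ZMod (3 ^ (b - n'))) = (-1) ^ e →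
      x ≡ (N - 1) ^ e * T ^ d [MOD M] := by
    intro e d h4 h5
    rw [hM]
    refine modEq_of ?_ ?_
    · push_cast
      rw [hneg _ hd2, hT2', h4]
    · push_cast
      rw [hneg _ hd3, hT3', h5, one_pow, mul_one]
  rcases h2 with h2 | h2 <;> rcases h3 with h3 | h3
  · exact ⟨0, 0, key 0 0 (by rw [hx1 _ h2]; simp) (by rw [hx1 _ h3]; simp)⟩
  · exact ⟨1, 1, key 1 1 (by rw [hx1 _ h2]; simp) (by rw [hx2 _ h3]; simp)⟩
  · exact ⟨0, 1, key 0 1 (by rw [hx2 _ h2]; simp) (by rw [hx1 _ h3]; simp)⟩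
  · exact ⟨1, 0, key 1 0 (by rw [hx2 _ h2]; simp) (by rw [hx2 _ h3]; simp)⟩

/-- generation by `-1`, `T` and `1 + M` -/
lemma gen_big {a b n n' M N T x : ℕ} (hN : N = 2 ^ a * 3 ^ b) (hM : M = 2 ^ (a - n) * 3 ^ (b - n'))
    (ha : 2 * n ≤ a) (hb : 2 * n' ≤ b)
    (hT2 : T + 1 ≡ 0 [MOD 2 ^ a]) (hT3 : T ≡ 1 [MOD 3 ^ b])
    (h2 : 2 ^ (a - n) ∣ x - 1 ∨ 2 ^ (a - n) ∣ x + 1) (h3 : 3 ^ (b - n') ∣ x - 1 ∨ 3 ^ (b - n') ∣ x + 1)
    (hx : 1 ≤ x) (hN2 : 1 < N) : ∃ e d c : ℕ, x ≡ (N - 1) ^ e * T ^ d * (1 + M) ^ c [MOD N] := by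
  obtain ⟨e, d, hed⟩ := sign_cases hN hM hT2 hT3 h2 h3 hx
  have hN1 : 1 ≤ N := by rw [hN]; exact Nat.pos_of_ne_zero (by positivity)
  have hMN : N ∣ M * M := by
    rw [hN, hM]
    have e1 : 2 ^ (a - n) * 3 ^ (b - n') * (2 ^ (a - n) * 3 ^ (b - n')) =
        2 ^ (a - n + (a - n)) * 3 ^ (b - n' + (b - n')) := by rw [pow_add, pow_add]; ring
    rw [e1]
    exact mul_dvd_mul (pow_dvd_pow _ (by omega)) (pow_dvd_pow _ (by omega))
  have hMdN : M ∣ N := by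
    rw [hN, hM]
    exact mul_dvd_mul (pow_dvd_pow _ (by omega)) (pow_dvd_pow _ (by omega))
  -- the square of the sign is `1`
  set ρ := (N - 1) ^ e * T ^ d with hρ
  have hneg : ((N - 1 : ℕ) : ZMod N) = -1 := by
    rw [Nat.cast_sub hN1, ZMod.natCast_self]
    simp
  have hTsq : T * T ≡ 1 [MOD N] := by
    rw [hN]
    refine modEq_of ?_ ?_
    · have h4 := (ZMod.natCast_eq_natCast_iff _ _ _).2 hT2
      push_cast at h4 ⊢
      rw [eq_neg_of_add_eq_zero_left h4]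
      ring
    · have h4 := (ZMod.natCast_eq_natCast_iff _ _ _).2 hT3
      push_cast at h4 ⊢
      rw [h4]
      ring
  have hρ2 : ρ * ρ ≡ 1 [MOD N] := by
    rw [← ZMod.natCast_eq_natCast_iff] at hTsq ⊢
    push_cast at hTsq ⊢
    rw [hρ]
    push_cast
    rw [hneg]
    have e1 : ((-1 : ZMod N) ^ e * T ^ d) * ((-1) ^ e * T ^ d) = ((-1) * (-1)) ^ e * (T * T) ^ d := by
      rw [mul_pow, mul_pow]
      ring
    rw [e1, hTsq]
    simp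
  have hxρ : x * ρ ≡ 1 [MOD M] := (hed.mul_right ρ).trans (hρ2.of_dvd hMdN)
  have hpos : 1 ≤ x * ρ := by
    rcases Nat.eq_zero_or_pos (x * ρ) with h0 | h0
    · exfalso
      rcases Nat.mul_eq_zero.1 h0 with h4 | h4
      · omega
      · rw [h4] at hρ2
        rw [zero_mul] at hρ2
        have h5 : N ∣ 1 := (Nat.modEq_iff_dvd' (Nat.zero_le 1)).1 hρ2
        have h6 : N = 1 := Nat.dvd_one.1 h5
        omega
    · exact h0
  obtain ⟨c, hc⟩ := (Nat.modEq_iff_dvd' hpos).1 hxρ.symm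
  refine ⟨e, d, c, ?_⟩
  have h5 : x * ρ = 1 + M * c := by omega
  calc x = x * 1 := (mul_one x).symm
    _ ≡ x * (ρ * ρ) [MOD N] := (hρ2.symm.mul_left x)
    _ = ρ * (x * ρ) := by ring
    _ = ρ * (1 + M * c) := by rw [h5]
    _ ≡ ρ * (1 + M) ^ c [MOD N] := (one_add_pow_mod hMN c).symm.mul_left ρ

end Pool.Agent.P8H3.GB
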