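import Mathlib

/-!
# The checker for the prime `5`

The elements `u + v θ`, `0 ≤ u, v < 5`, of the field with `25` elements, `θ^2 + θ + 2 = 0`, are coded by the numbers
`u + 5 v`.
-/

set_option autoImplicit false

namespace Pool.Agent.P8H3.GB

/-- product -/
def mulc (u v : ℕ) : ℕ :=
  (u % 5 * (v % 5) + 3 * (u / 5 * (v / 5))) % 5 + 5 * ((u % 5 * (v / 5) + u / 5 * (v % 5) + 4 * (u / 5 * (v / 5))) % 5)

/-- sum with a number -/
def addc (c u : ℕ) : ℕ := (c + u % 5) % 5 + 5 * (u / 5 % 5)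

/-- `θ^r` -/
def powc : ℕ → ℕ
  | 0 => 1
  | r + 1 => mulc 5 (powc r)

/-- `∑_{c < n} f(i + c) z^c` -/
def horner (z : ℕ) (f : ℕ → ℕ) : ℕ → ℕ → ℕ
  | _, 0 => 0
  | i, n + 1 => addc (f i) (mulc z (horner z f (i + 1) n))

/-- the values of the polynomials `FF m`, `1 ≤ m ≤ 4`, modulo `5` -/
def Fv (m x : ℕ) : ℕ :=
  if m = 1 then x
  else if m = 2 then 2 * (x * x) + 3 * x
  else if m = 3 then x * x * x + x * x + 3 * x
  else 4 * (x * x * (x * x)) + 2 * (x * x * x) + 4 * (x * x)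

/-- the value of the coefficient -/
def tm (N Ni m T w y e d c : ℕ) : ℕ :=
  Fv m (Nat.mod (Nat.mul (Nat.mul (Nat.mul (Nat.pow (N - 1) e) (Nat.pow T d)) (Nat.pow w c)) y) N * Ni % 5)

/-- the coefficient -/
def cf (N Ni m s T w y c : ℕ) : ℕ :=
  (tm N Ni m T w y 0 0 c + s * tm N Ni m T w y 0 1 c +
    (if m % 2 = 0 then 1 else 4) * (tm N Ni m T w y 1 0 c + s * tm N Ni m T w y 1 1 c)) % 5

/-- the generators modulo `2^a` and `3^b` -/
def g2 (a : ℕ) : ℕ := if a ≤ 5 then 5 else 1 + Nat.pow 2 (a - 3)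

def g3 (b : ℕ) : ℕ := if b ≤ 1 then 1 else 1 + Nat.pow 3 (b - 1)

/-- conditions for `T` and `w` -/
def okTw (a b T w : ℕ) : Bool :=
  Nat.beq ((T + 1) % Nat.pow 2 a) 0 && Nat.beq (T % Nat.pow 3 b) (1 % Nat.pow 3 b) &&
    Nat.beq (w % Nat.pow 2 a) (g2 a % Nat.pow 2 a) && Nat.beq (w % Nat.pow 3 b) (g3 b % Nat.pow 3 b)

/-- the exponents `r` which are possible for `χ(w) = θ^r` -/
def okr (a b w r : ℕ) : Bool :=
  (List.range 24).all fun j =>
    (!(Nat.beq (Nat.pow w j % Nat.pow 2 a) (1 % Nat.pow 2 a) && Nat.beq (Nat.pow w j % Nat.pow 3 b) (1 % Nat.pow 3 b)) ||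
      Nat.beq (r * j % 24) 0) &&
    (!(Nat.beq (Nat.pow w j % Nat.pow 2 a) ((1 + Nat.pow 2 (a - 1)) % Nat.pow 2 a) &&
      Nat.beq (Nat.pow w j % Nat.pow 3 b) (1 % Nat.pow 3 b)) || !(Nat.beq (r * j % 24) 0)) &&
    (!(Nat.ble 2 b && Nat.beq (Nat.pow w j % Nat.pow 2 a) (1 % Nat.pow 2 a) &&
      Nat.beq (Nat.pow w j % Nat.pow 3 b) ((1 + Nat.pow 3 (b - 1)) % Nat.pow 3 b)) || !(Nat.beq (r * j % 24) 0))

/-- the possible signs -/
def oks (a b m s : ℕ) : Bool :=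
  (!(Nat.beq a 2) || Nat.beq s 4) && (!(Nat.beq b 0) || Nat.beq s (if m % 2 = 0 then 1 else 4)) &&
    (!(Nat.beq b 1) || Nat.beq s (if m % 2 = 0 then 4 else 1))

/-- the check -/
def chk (a b m T w : ℕ) : Bool :=
  let N := Nat.mul (Nat.pow 2 a) (Nat.pow 3 b)
  let Ni := Nat.pow N 3 % 5
  okTw a b T w && [1, 4].all fun s => (List.range 24).all fun r =>
    !(oks a b m s && okr a b w r) ||
      [1, 5, 7].any fun y => !(Nat.beq (horner (powc r) (cf N Ni m s T w y) 0 24) 0)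

end Pool.Agent.P8H3.GB
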