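import Pool.Agent.P8H3.GB.Chk

/-!
# The finite list of conductors for the prime `5`
-/

set_option autoImplicit false

namespace Pool.Agent.P8H3.GB

/-- the entries `(a, b, T, w, l)`: the conductor `2^a 3^b`, the numbers `T`, `w` for the checker, and the list of
the weights `m` -/
def rows : List (ℕ × ℕ × ℕ × ℕ × List ℕ) :=
  [(2, 0, 3, 1, [2, 3, 4]),
   (2, 1, 7, 1, [1, 2, 3, 4]),
   (2, 2, 19, 13, [1, 2, 3]),
   (2, 3, 55, 37, [1, 2, 3, 4]),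
   (2, 4, 163, 109, [1, 2, 3, 4]),
   (3, 0, 7, 5, [1, 2, 3, 4]),
   (3, 1, 7, 13, [2, 3, 4]),
   (3, 2, 55, 13, [1, 2, 3, 4]),
   (3, 3, 55, 37, [1, 2, 3, 4]),
   (3, 4, 487, 109, [1, 2, 3, 4]),
   (3, 5, 487, 325, [1, 2, 3, 4]),
   (4, 0, 15, 5, [1, 3, 4]),
   (4, 1, 31, 37, [1, 2, 4]),
   (4, 2, 127, 85, [1, 2, 3, 4]),
   (4, 3, 271, 37, [1, 2, 3, 4]),
   (4, 4, 1135, 757, [1, 2, 3, 4]),
   (4, 5, 2431, 325, [1, 2, 3, 4]),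
   (5, 0, 31, 5, [1, 2, 3, 4]),
   (5, 1, 31, 37, [1, 2, 3, 4]),
   (5, 2, 127, 229, [1, 2, 3, 4]),
   (5, 3, 703, 37, [1, 2, 3, 4]),
   (5, 4, 2431, 2053, [1, 2, 3, 4]),
   (5, 5, 2431, 325, [1, 2, 3, 4]),
   (5, 6, 10207, 18469, [1, 2, 3, 4]),
   (6, 0, 63, 9, [1, 2, 3, 4]),
   (6, 1, 127, 73, [1, 2, 3, 4]),
   (6, 2, 127, 265, [1, 2, 3, 4]),
   (6, 3, 703, 1225, [1, 2, 3, 4]),
   (6, 4, 2431, 2377, [1, 2, 3, 4]),
   (6, 5, 2431, 11017, [1, 2, 3, 4]),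
   (6, 6, 33535, 21385, [1, 2, 3, 4]),
   (6, 7, 126847, 99145, [1, 2, 3, 4]),
   (7, 0, 127, 17, [1, 2, 3, 4]),
   (7, 1, 127, 145, [1, 2, 3, 4]),
   (7, 2, 127, 913, [1, 2, 3, 4]),
   (7, 3, 2431, 145, [1, 2, 3, 4]),
   (7, 4, 2431, 8209, [1, 2, 3, 4]),
   (7, 5, 2431, 1297, [1, 2, 3, 4]),
   (7, 6, 33535, 73873, [1, 2, 3, 4]),
   (7, 7, 126847, 11665, [1, 2, 3, 4]),
   (8, 1, 511, 289, [1, 2, 3, 4]),
   (8, 2, 1279, 1057, [1, 2, 3, 4]),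
   (8, 3, 5887, 4897, [1, 2, 3, 4]),
   (8, 4, 12799, 9505, [1, 2, 3, 4]),
   (8, 5, 33535, 44065, [1, 2, 3, 4]),
   (8, 6, 33535, 85537, [1, 2, 3, 4]),
   (8, 7, 406783, 396577, [1, 2, 3, 4]),
   (8, 8, 406783, 769825, [1, 2, 3, 4]),
   (9, 1, 511, 577, [1, 2, 3, 4]),
   (9, 2, 3583, 3649, [1, 2, 3, 4]),
   (9, 3, 12799, 577, [1, 2, 3, 4]),
   (9, 4, 12799, 32833, [1, 2, 3, 4]),
   (9, 5, 95743, 5185, [1, 2, 3, 4]),
   (10, 2, 8191, 4225, [1, 2, 3, 4]),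
   (10, 3, 26623, 19585, [1, 2, 3, 4]),
   (10, 4, 54271, 38017, [1, 2, 3, 4]),
   (11, 2, 8191, 14593, [1, 2, 3, 4]),
   (11, 3, 26623, 2305, [1, 2, 3, 4]),
   (11, 4, 137215, 131329, [1, 2, 3, 4]),
   (12, 3, 81919, 78337, [1, 2, 3, 4]),
   (12, 4, 303103, 152065, [1, 2, 3, 4]),
   (13, 4, 303103, 525313, [1, 2, 3, 4]),
   (14, 4, 966655, 608257, [1, 2, 3, 4])]

theorem rows_chk : (rows.all fun r => r.2.2.2.2.all fun m => chk r.1 r.2.1 m r.2.2.1 r.2.2.2.1) = true := by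
  decide +kernel

/-- membership in the list -/
def inRows (a b : ℕ) : Bool := rows.any fun r => Nat.beq r.1 a && Nat.beq r.2.1 b

/-- the small conductors are in the list -/
theorem rows_mem' : ((List.range 15).all fun a => (List.range 9).all fun b => Nat.ble a 1 ||
    Nat.ble (4 * Nat.pow 2 a * 9) (Nat.pow 3 b) || Nat.ble (4 * Nat.pow 3 b * 64) (Nat.pow 2 a) ||
    (Nat.ble 7 a && Nat.ble 2 b && Nat.ble (384 * Nat.pow 3 b + 144 * Nat.pow 2 a) (Nat.pow 2 a * Nat.pow 3 b)) ||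
    inRows a b) = true := by
  decide +kernel

theorem rows_mem (a : ℕ) (ha : a < 15) (b : ℕ) (hb : b < 9) (ha2 : 2 ≤ a) :
    4 * 2 ^ a * 9 ≤ 3 ^ b ∨ 4 * 3 ^ b * 64 ≤ 2 ^ a ∨
    (7 ≤ a ∧ 2 ≤ b ∧ 384 * 3 ^ b + 144 * 2 ^ a ≤ 2 ^ a * 3 ^ b) ∨
    ∃ r ∈ rows, r.1 = a ∧ r.2.1 = b := by
  have h1 := List.all_eq_true.1 (List.all_eq_true.1 rows_mem' a (List.mem_range.2 ha)) b (List.mem_range.2 hb)
  simp only [Bool.or_eq_true, Bool.and_eq_true, Nat.ble_eq] at h1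
  rcases h1 with (((h | h) | h) | h) | h
  · omega
  · exact Or.inl h
  · exact Or.inr (Or.inl h)
  · exact Or.inr (Or.inr (Or.inl ⟨h.1.1, h.1.2, h.2⟩))
  · refine Or.inr (Or.inr (Or.inr ?_))
    unfold inRows at h
    rw [List.any_eq_true] at h
    obtain ⟨r, hr, hr2⟩ := h
    simp only [Bool.and_eq_true, Nat.beq_eq] at hr2
    exact ⟨r, hr, hr2⟩

/-- the exceptional triples -/
def Exc (a b m : ℕ) : Prop :=
  (a = 0 ∧ b = 0 ∧ m = 4) ∨ (a = 2 ∧ b = 0 ∧ m = 1) ∨ (a = 3 ∧ b = 1 ∧ m = 1) ∨ (a = 4 ∧ b = 0 ∧ m = 2) ∨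
    (a = 4 ∧ b = 1 ∧ m = 3) ∨ (a = 2 ∧ b = 2 ∧ m = 4)

/-- the exceptional triples, as a Boolean function -/
def excB (a b m : ℕ) : Bool :=
  (Nat.beq a 0 && Nat.beq b 0 && Nat.beq m 4) || (Nat.beq a 2 && Nat.beq b 0 && Nat.beq m 1) ||
    (Nat.beq a 3 && Nat.beq b 1 && Nat.beq m 1) || (Nat.beq a 4 && Nat.beq b 0 && Nat.beq m 2) ||
    (Nat.beq a 4 && Nat.beq b 1 && Nat.beq m 3) || (Nat.beq a 2 && Nat.beq b 2 && Nat.beq m 4)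

lemma excB_iff (a b m : ℕ) (h : excB a b m = true) : Exc a b m := by
  unfold excB at h
  unfold Exc
  simp only [Bool.or_eq_true, Bool.and_eq_true, Nat.beq_eq] at h
  tauto

theorem rows_m' : (rows.all fun r => [1, 2, 3, 4].all fun m =>
    (r.2.2.2.2.any fun x => Nat.beq x m) || excB r.1 r.2.1 m) = true := by
  decide +kernel

theorem rows_m (r : ℕ × ℕ × ℕ × ℕ × List ℕ) (hr : r ∈ rows) (m : ℕ) (hm : m < 5) (hm1 : 1 ≤ m) :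
    m ∈ r.2.2.2.2 ∨ Exc r.1 r.2.1 m := by
  have h1 := List.all_eq_true.1 (List.all_eq_true.1 rows_m' r hr) m (by
    have : m = 1 ∨ m = 2 ∨ m = 3 ∨ m = 4 := by omega
    rcases this with h | h | h | h <;> simp [h])
  rw [Bool.or_eq_true] at h1
  rcases h1 with h | h
  · left
    rw [List.any_eq_true] at h
    obtain ⟨x, hx, hx2⟩ := h
    rw [Nat.beq_eq] at hx2
    rwa [← hx2]
  · exact Or.inr (excB_iff _ _ _ h)

end Pool.Agent.P8H3.GB
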