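import Pool.Agent.P8H3.GB.Snd

/-!
# Soundness of the checker, conclusion
-/

set_option autoImplicit false

namespace Pool.Agent.P8H3.GB

open Finset Polynomial Pool.Agent.Y18.GX

section
variable {k : Type*} [Field k] [CharP k 5]

omit [CharP k 5] in
lemma FF_one' (x : k) : aeval x (FF 1) = x := by
  have h0 : zc 1 0 = 1 := zc_eq (by norm_num) (by norm_num [Nat.factorial])
  rw [FF, Finset.sum_range_one, h0]
  simp [aeval_monomial]

lemma Fv_eq {m : ℕ} (hm1 : 1 ≤ m) (hm4 : m ≤ 4) (x : ℕ) : aeval (x : k) (FF m) = (Fv m x : k) := by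
  have h5 := five (k := k)
  unfold Fv
  interval_cases m
  · rw [FF_one']
    simp
  · rw [FF_two]
    simp
    linear_combination (-(x : k)) * h5
  · rw [FF_three]
    simp
    linear_combination ((x : k) ^ 3 - 2 * (x : k) ^ 2) * h5
  · rw [FF_four]
    simp
    linear_combination (4 * (x : k) ^ 4 - 10 * (x : k) ^ 3 + 4 * (x : k) ^ 2) * h5

lemma tm_eq {N m : ℕ} (hm1 : 1 ≤ m) (hm4 : m ≤ 4) (hN5 : N % 5 ≠ 0) (T w y e d c : ℕ) :
    aeval ((((N - 1) ^ e * T ^ d * w ^ c * y % N : ℕ) : k) / (N : ℕ)) (FF m) =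
      (tm N (N ^ 3 % 5) m T w y e d c : k) := by
  have hNk : ((N : ℕ) : k) ≠ 0 := by
    intro h
    rw [CharP.cast_eq_zero_iff k 5] at h
    omega
  have h4 : ((N ^ 3 % 5 : ℕ) : k) * (N : k) = 1 := by
    have h1 : (N ^ 3 % 5 * N) % 5 = 1 := by
      rw [Nat.mul_mod, Nat.mod_mod, ← Nat.mul_mod, ← pow_succ, Nat.pow_mod]
      have h2 : N % 5 = 1 ∨ N % 5 = 2 ∨ N % 5 = 3 ∨ N % 5 = 4 := by omega
      rcases h2 with h | h | h | h <;> rw [h]
    have h2 := cast_mod (k := k) (N ^ 3 % 5 * N)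
    rw [h1] at h2
    push_cast at h2 ⊢
    exact h2.symm
  have h5 : ∀ x : ℕ, (x : k) / (N : ℕ) = ((x * (N ^ 3 % 5) % 5 : ℕ) : k) := by
    intro x
    rw [cast_mod, div_eq_iff hNk]
    push_cast
    rw [mul_assoc, h4, mul_one]
  rw [h5, Fv_eq hm1 hm4]
  rfl

/-- soundness of the checker -/
theorem chk_sound {a b m T w N : ℕ} (hN : N = 2 ^ a * 3 ^ b) (ha2 : 2 ≤ a) (hm1 : 1 ≤ m) (hm4 : m ≤ 4)
    (hchk : chk a b m T w = true) [IsAlgClosed k] (χ : MulChar (ZMod N) k)
    (prim2 : ∀ x : ℕ, x ≡ 1 [MOD 3 ^ b] → x ≡ 1 + 2 ^ (a - 1) [MOD 2 ^ a] → χ (x : ZMod N) ≠ 1)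
    (prim3 : 2 ≤ b → ∀ x : ℕ, x ≡ 1 [MOD 2 ^ a] → x ≡ 1 + 3 ^ (b - 1) [MOD 3 ^ b] → χ (x : ZMod N) ≠ 1)
    (prim31 : b = 1 → ∀ x : ℕ, x ≡ 1 [MOD 2 ^ a] → x ≡ 2 [MOD 3] → χ (x : ZMod N) ≠ 1)
    (hpar : χ (-1) = (-1) ^ m)
    (hS : ∑ x ∈ range N, χ (x : ZMod N) * aeval ((x : k) / (N : ℕ)) (FF m) = 0) : False := by
  have : Fact (Nat.Prime 5) := ⟨by norm_num⟩
  have h5k := five (k := k)
  have h2k : (2 : k) ≠ 0 := by exact_mod_cast ne_of_not_dvd (k := k) 2 (by norm_num)
  have hN4 : 4 ≤ N := by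
    rw [hN]
    have h1 : 4 ≤ 2 ^ a := by
      calc 4 = 2 ^ 2 := by norm_num
        _ ≤ 2 ^ a := Nat.pow_le_pow_right (by norm_num) ha2
    have h2 : 1 ≤ 3 ^ b := Nat.one_le_pow _ _ (by norm_num)
    nlinarith
  have hN5 : N % 5 ≠ 0 := by
    intro h
    have h1 : 5 ∣ 2 ^ a * 3 ^ b := by
      rw [← hN]
      exact Nat.dvd_of_mod_eq_zero h
    rcases (Nat.Prime.dvd_mul (by norm_num)).1 h1 with h2 | h2
    · have := Nat.Prime.dvd_of_dvd_pow (by norm_num : Nat.Prime 5) h2
      omega
    · have := Nat.Prime.dvd_of_dvd_pow (by norm_num : Nat.Prime 5) h2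
      omega
  -- unfold the check
  unfold chk at hchk
  simp only [Bool.and_eq_true] at hchk
  obtain ⟨hTw, hall⟩ := hchk
  unfold okTw at hTw
  simp only [Bool.and_eq_true, Nat.beq_eq] at hTw
  obtain ⟨⟨⟨hT2, hT3⟩, hw2⟩, hw3⟩ := hTw
  have hT2' : (T : ZMod (2 ^ a)) = -1 := by
    have h1 : T + 1 ≡ 0 [MOD 2 ^ a] := by
      unfold Nat.ModEq
      rw [Nat.zero_mod]
      exact hT2
    have h4 := (ZMod.natCast_eq_natCast_iff _ _ _).2 h1
    push_cast at h4
    exact eq_neg_of_add_eq_zero_left h4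
  have hT3m : T ≡ 1 [MOD 3 ^ b] := hT3
  have hT3' : (T : ZMod (3 ^ b)) = 1 := by
    have h4 := (ZMod.natCast_eq_natCast_iff _ _ _).2 hT3m
    push_cast at h4
    exact h4
  have hw2' : (w : ZMod (2 ^ a)) = g2 a := (ZMod.natCast_eq_natCast_iff _ _ _).2 hw2
  have hw3' : (w : ZMod (3 ^ b)) = g3 b := (ZMod.natCast_eq_natCast_iff _ _ _).2 hw3
  -- the orders of the generators
  have hg2 : (g2 a : ZMod (2 ^ a)) ^ 8 = 1 := by
    unfold g2
    split_ifs with h
    · have h1 : 5 ^ 8 ≡ 1 [MOD 2 ^ a] :=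
        (show 5 ^ 8 ≡ 1 [MOD 2 ^ 5] from rfl).of_dvd (pow_dvd_pow _ h)
      have h4 := (ZMod.natCast_eq_natCast_iff _ _ _).2 h1
      push_cast at h4
      exact_mod_cast h4
    · have hd : 2 ^ a ∣ 2 ^ (a - 3) * 2 ^ (a - 3) := by
        rw [← pow_add]
        exact pow_dvd_pow _ (by omega)
      have h1 : (1 + 2 ^ (a - 3)) ^ 8 ≡ 1 [MOD 2 ^ a] := by
        refine (one_add_pow_mod hd 8).trans ?_
        have : 2 ^ (a - 3) * 8 = 2 ^ a := by
          have e : (8 : ℕ) = 2 ^ 3 := by norm_num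
          rw [e, ← pow_add]
          congr 1
          omega
        rw [this]
        simp [Nat.ModEq]
      have h4 := (ZMod.natCast_eq_natCast_iff _ _ _).2 h1
      push_cast at h4
      have e2 : Nat.pow 2 (a - 3) = 2 ^ (a - 3) := rfl
      rw [e2]
      push_cast
      exact h4
  have hg3 : (g3 b : ZMod (3 ^ b)) ^ 3 = 1 := by
    unfold g3
    split_ifs with h
    · simp
    · have hd : 3 ^ b ∣ 3 ^ (b - 1) * 3 ^ (b - 1) := by
        rw [← pow_add]
        exact pow_dvd_pow _ (by omega)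
      have h1 : (1 + 3 ^ (b - 1)) ^ 3 ≡ 1 [MOD 3 ^ b] := by
        refine (one_add_pow_mod hd 3).trans ?_
        have : 3 ^ (b - 1) * 3 = 3 ^ b := by
          rw [← pow_succ]
          congr 1
          omega
        rw [this]
        simp [Nat.ModEq]
      have h4 := (ZMod.natCast_eq_natCast_iff _ _ _).2 h1
      push_cast at h4
      have e2 : Nat.pow 3 (b - 1) = 3 ^ (b - 1) := rfl
      rw [e2]
      push_cast
      exact h4
  have hsq : ∀ z : ℕ, (z : ZMod (2 ^ a)) = -1 → (z : ZMod (3 ^ b)) = 1 → z ^ 2 ≡ 1 [MOD N] := by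
    intro z h1 h2
    have : z ^ 2 ≡ 1 [MOD 2 ^ a * 3 ^ b] := by
      refine modEq_of ?_ ?_
      · push_cast
        rw [h1]
        ring
      · push_cast
        rw [h2]
        ring
    rw [hN]
    exact this
  have hT22 : T ^ 2 ≡ 1 [MOD N] := hsq T hT2' hT3'
  have hwL : w ^ 24 ≡ 1 [MOD N] := by
    have : w ^ 24 ≡ 1 [MOD 2 ^ a * 3 ^ b] := by
      refine modEq_of ?_ ?_
      · push_cast
        rw [hw2', show 24 = 8 * 3 by norm_num, pow_mul, hg2, one_pow]
      · push_cast
        rw [hw3', show 24 = 3 * 8 by norm_num, pow_mul, hg3, one_pow]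
    rw [hN]
    exact this
  have hcop : ∀ z n : ℕ, z ^ n ≡ 1 [MOD N] → n ≠ 0 → z.Coprime N := by
    intro z n h hn
    have h1 := (ZMod.natCast_eq_natCast_iff _ _ _).2 h
    push_cast at h1
    have h2 : IsUnit ((z : ZMod N) ^ n) := by
      rw [h1]
      exact isUnit_one
    exact (ZMod.isUnit_iff_coprime _ _).1 ((isUnit_pow_iff hn).1 h2)
  have hTN := hcop T 2 hT22 (by norm_num)
  have hwN := hcop w 24 hwL (by norm_num)
  -- generation
  have hgen : ∀ x : ℕ, x.Coprime N → χ (x : ZMod N) ^ (25 - 1) = 1 →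
      ∃ e d c : ℕ, x ≡ (N - 1) ^ e * T ^ d * w ^ c [MOD N] := by
    intro x hx hx1
    have hx2 : x.Coprime (2 ^ a) := Nat.Coprime.coprime_dvd_right (by rw [hN]; exact dvd_mul_right _ _) hx
    have hx0 : 1 ≤ x := by
      rcases Nat.eq_zero_or_pos x with h | h
      · rw [h, Nat.coprime_zero_left] at hx
        omega
      · exact h
    have hxodd : x % 2 = 1 := by
      have h1 : x.Coprime 2 := Nat.Coprime.coprime_dvd_right (dvd_pow_self 2 (by omega)) hx2
      rcases Nat.mod_two_eq_zero_or_one x with h | h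
      · exfalso
        have := Nat.dvd_gcd (Nat.dvd_of_mod_eq_zero h) (dvd_refl 2)
        rw [h1] at this
        omega
      · exact h
    refine gen_of hN (by omega) hT2' hT3' hw2' hw3' hg2 hg3 ?_ ?_
    · -- modulo `2^a`
      rcases Nat.lt_or_ge 5 a with h | h
      · have h1 := ker_loc (N₁ := 3 ^ b) (K := a) (ℓ := 2) (n := 3) (q := 25) (u := 3) (A := 3 ^ b)
          (by rw [hN, mul_comm]) χ (Nat.Coprime.pow_left _ (by norm_num)) (Or.inr ⟨rfl, by norm_num⟩) (by omega)
          (by norm_num) prim2 (by norm_num) (by norm_num) (by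
            rcases Nat.eq_zero_or_pos b with h0 | h0
            · subst h0
              simp
            · rw [Nat.totient_prime_pow Nat.prime_three h0]
              have e1 : 3 ^ b = 3 ^ (b - 1) * 3 := by
                rw [← pow_succ]
                congr 1
                omega
              rw [e1]
              exact ⟨36, by ring⟩) (Nat.Coprime.pow_left _ (by norm_num)) (by norm_num) x hx hx1
        obtain ⟨s, i, hsi⟩ := near_one (by omega : 2 * 3 ≤ a) (by norm_num) hx0 h1
        refine ⟨s, i, ?_⟩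
        rw [hsi]
        unfold g2
        rw [if_neg (by omega)]
        rfl
      · obtain ⟨i, -, s, -, hs⟩ := odd_gen (x % 32) (Nat.mod_lt _ (by norm_num)) (by omega)
        refine ⟨s, i, ?_⟩
        have h1 : x ≡ 31 ^ s * 5 ^ i [MOD 2 ^ 5] := hs
        have h2 := h1.of_dvd (pow_dvd_pow 2 h)
        have h4 := (ZMod.natCast_eq_natCast_iff _ _ _).2 h2
        rw [h4]
        unfold g2
        rw [if_pos h]
        have h6 : 32 ≡ 0 [MOD 2 ^ a] := (show 32 ≡ 0 [MOD 2 ^ 5] from rfl).of_dvd (pow_dvd_pow 2 h)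
        have h7 := (ZMod.natCast_eq_natCast_iff _ _ _).2 h6
        push_cast at h7
        have h8 : (31 : ZMod (2 ^ a)) = -1 := by linear_combination h7
        push_cast
        rw [h8]
    · -- modulo `3^b`
      rcases Nat.lt_or_ge 1 b with h | h
      · have h1 := ker_loc (N₁ := 2 ^ a) (K := b) (ℓ := 3) (n := 1) (q := 25) (u := 8) (A := 2 ^ a)
          hN χ (Nat.Coprime.pow_left _ (by norm_num)) (Or.inl ⟨rfl, by norm_num⟩) (by omega)
          (by norm_num) (prim3 h) (by norm_num) (by norm_num) (by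
            rw [Nat.totient_prime_pow Nat.prime_two (by omega)]
            have e1 : 2 ^ a = 2 ^ (a - 1) * 2 := by
              rw [← pow_succ]
              congr 1
              omega
            rw [e1]
            exact ⟨48, by ring⟩) (Nat.Coprime.pow_left _ (by norm_num)) (by norm_num) x hx hx1
        obtain ⟨s, i, hsi⟩ := near_one (by omega : 2 * 1 ≤ b) (by norm_num) hx0 h1
        refine ⟨s, i, ?_⟩
        rw [hsi]
        unfold g3
        rw [if_neg (by omega)]
        rfl
      · have hb01 : b = 0 ∨ b = 1 := by omega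
        rcases hb01 with rfl | rfl
        · exact ⟨0, 0, Subsingleton.elim (α := ZMod 1) _ _⟩
        · have hx3 : x.Coprime 3 := Nat.Coprime.coprime_dvd_right (by rw [hN]; exact Dvd.intro_left _ rfl) hx
          have h3 : ¬ 3 ∣ x := by
            intro h4
            have := Nat.dvd_gcd h4 (dvd_refl 3)
            rw [hx3] at this
            omega
          have h4 : x % 3 = 1 ∨ x % 3 = 2 := by omega
          rcases h4 with h4 | h4
          · refine ⟨0, 0, ?_⟩
            have h6 : x ≡ 1 [MOD 3 ^ 1] := h4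
            have h7 := (ZMod.natCast_eq_natCast_iff _ _ _).2 h6
            rw [h7]
            simp
          · refine ⟨1, 0, ?_⟩
            have h6 : x + 1 ≡ 0 [MOD 3 ^ 1] := by
              unfold Nat.ModEq
              omega
            have h7 := (ZMod.natCast_eq_natCast_iff _ _ _).2 h6
            push_cast at h7
            rw [eq_neg_of_add_eq_zero_left h7]
            simp
  -- the root of unity
  obtain ⟨θ, hθ⟩ : ∃ θ : k, θ ^ 2 + θ + 2 = 0 := by
    have hdeg : (X ^ 2 + X + C 2 : k[X]).degree ≠ 0 := by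
      have : (X ^ 2 + X + C 2 : k[X]).degree = 2 := by compute_degree!
      rw [this]
      norm_num
    obtain ⟨θ, hθ⟩ := IsAlgClosed.exists_root _ hdeg
    refine ⟨θ, ?_⟩
    simpa [IsRoot] using hθ
  have hprimθ := theta_prim hθ
  have hz24 : χ (w : ZMod N) ^ 24 = 1 := by
    rw [← map_pow]
    have h4 := (ZMod.natCast_eq_natCast_iff _ _ _).2 hwL
    push_cast at h4
    rw [h4, map_one]
  obtain ⟨r, hr24, hr⟩ := hprimθ.eq_pow_of_pow_eq_one hz24
  -- the sign
  have hTsq : χ (T : ZMod N) ^ 2 = 1 := by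
    rw [← map_pow]
    have h4 := (ZMod.natCast_eq_natCast_iff _ _ _).2 hT22
    push_cast at h4
    rw [h4, map_one]
  have hTcase : χ (T : ZMod N) = 1 ∨ χ (T : ZMod N) = -1 := by
    have h1 : (χ (T : ZMod N) - 1) * (χ (T : ZMod N) + 1) = 0 := by linear_combination hTsq
    rcases mul_eq_zero.1 h1 with h2 | h2
    · exact Or.inl (sub_eq_zero.1 h2)
    · exact Or.inr (eq_neg_of_add_eq_zero_left h2)
  obtain ⟨s, hs14, hs⟩ : ∃ s : ℕ, (s = 1 ∨ s = 4) ∧ χ (T : ZMod N) = (s : k) := by
    rcases hTcase with h | h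
    · exact ⟨1, Or.inl rfl, by rw [h]; simp⟩
    · exact ⟨4, Or.inr rfl, by rw [h]; push_cast; linear_combination (-1 : k) * h5k⟩
  have hs1 : s = 1 → χ (T : ZMod N) = 1 := fun h => by rw [hs, h]; simp
  have hneg1 : ((1 : k)) ≠ -1 := fun h => h2k (by linear_combination h)
  have hs4 : χ (T : ZMod N) = -1 → s = 4 := by
    intro h
    rcases hs14 with h1 | h1
    · exact absurd ((hs1 h1).symm.trans h) hneg1
    · exact h1
  have hs4' : χ (T : ZMod N) = 1 → s = 1 := by
    intro h
    rcases hs14 with h1 | h1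
    · exact h1
    · exfalso
      rw [h1, h] at hs
      push_cast at hs
      exact hneg1 (by linear_combination h5k + hs)
  have hmpar : ((-1 : k)) ^ m = if m % 2 = 0 then 1 else -1 := by
    split_ifs with h
    · exact (Nat.even_iff.2 h).neg_one_pow
    · exact (Nat.odd_iff.2 (by omega)).neg_one_pow
  have hoks : oks a b m s = true := by
    unfold oks
    simp only [Bool.and_eq_true, Bool.or_eq_true, Bool.not_eq_true', Nat.beq_eq, ← Bool.not_eq_true]
    refine ⟨⟨?_, ?_⟩, ?_⟩
    · by_cases h : a = 2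
      · right
        apply hs4
        rcases hTcase with h1 | h1
        · exfalso
          refine prim2 T hT3m ?_ h1
          subst h
          have h6 : (T + 1) % 2 ^ 2 = 0 := hT2
          unfold Nat.ModEq
          norm_num at h6 ⊢
          omega
        · exact h1
      · exact Or.inl h
    · by_cases h : b = 0
      · right
        have h1 : (T : ZMod N) = -1 := by
          subst h
          rw [pow_zero, mul_one] at hN
          subst hN
          exact hT2'
        have h3 : χ (T : ZMod N) = (-1) ^ m := by rw [h1, hpar]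
        rw [hmpar] at h3
        split_ifs at h3 ⊢ with h4
        · exact hs4' h3
        · exact hs4 h3
      · exact Or.inl h
    · by_cases h : b = 1
      · right
        have h1 := prim31 h (T * (N - 1)) ?_ ?_
        · have h3 : ((T * (N - 1) : ℕ) : ZMod N) = -(T : ZMod N) := by
            rw [Nat.cast_mul, Nat.cast_sub (by omega), ZMod.natCast_self]
            simp
          have h4 : χ ((T * (N - 1) : ℕ) : ZMod N) = (-1) ^ m * χ (T : ZMod N) := by
            rw [h3, ← hpar, ← map_mul, neg_one_mul]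
          rw [h4, hmpar] at h1
          split_ifs at h1 ⊢ with h6
          · apply hs4
            rcases hTcase with h7 | h7
            · rw [h7] at h1
              simp at h1
            · exact h7
          · apply hs4'
            rcases hTcase with h7 | h7
            · exact h7
            · rw [h7] at h1
              simp at h1
        · rw [← ZMod.natCast_eq_natCast_iff]
          rw [Nat.cast_mul, Nat.cast_sub (by omega), hT2',
            (ZMod.natCast_eq_zero_iff N _).2 (by rw [hN]; exact dvd_mul_right _ _)]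
          simp
        · subst h
          rw [← ZMod.natCast_eq_natCast_iff]
          have h8 : (T : ZMod 3) = 1 := by
            have := hT3'
            rwa [pow_one] at this
          rw [Nat.cast_mul, Nat.cast_sub (by omega), h8,
            (ZMod.natCast_eq_zero_iff N _).2 (by rw [hN]; exact Dvd.intro_left _ rfl)]
          decide
      · exact Or.inl h
  have hpowj : ∀ j, χ ((w ^ j : ℕ) : ZMod N) = θ ^ (r * j) := by
    intro j
    push_cast
    rw [map_pow, ← hr, ← pow_mul]
  have hdvd : ∀ j, θ ^ (r * j) = 1 ↔ r * j % 24 = 0 := by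
    intro j
    rw [hprimθ.pow_eq_one_iff_dvd]
    exact Nat.dvd_iff_mod_eq_zero
  have hokr : okr a b w r = true := by
    unfold okr
    rw [List.all_eq_true]
    intro j _
    simp only [Bool.and_eq_true, Bool.or_eq_true, Bool.not_eq_true', Nat.beq_eq, ← Bool.not_eq_true,
      Nat.ble_eq]
    have e2 : ∀ x, Nat.pow 2 x = 2 ^ x := fun _ => rfl
    have e3 : ∀ x, Nat.pow 3 x = 3 ^ x := fun _ => rfl
    have ew : Nat.pow w j = w ^ j := rfl
    simp only [e2, e3, ew]
    refine ⟨⟨?_, ?_⟩, ?_⟩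
    · by_cases h : w ^ j % 2 ^ a = 1 % 2 ^ a ∧ w ^ j % 3 ^ b = 1 % 3 ^ b
      · right
        rw [← hdvd, ← hpowj]
        have h1 : w ^ j ≡ 1 [MOD 2 ^ a * 3 ^ b] :=
          (Nat.modEq_and_modEq_iff_modEq_mul (Nat.Coprime.pow _ _ (by norm_num))).1 h
        rw [← hN] at h1
        rw [(ZMod.natCast_eq_natCast_iff _ _ _).2 h1]
        simp
      · exact Or.inl h
    · by_cases h : w ^ j % 2 ^ a = (1 + 2 ^ (a - 1)) % 2 ^ a ∧ w ^ j % 3 ^ b = 1 % 3 ^ b
      · right
        rw [← hdvd, ← hpowj]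
        exact prim2 (w ^ j) h.2 h.1
      · exact Or.inl h
    · by_cases h : (2 ≤ b ∧ w ^ j % 2 ^ a = 1 % 2 ^ a) ∧ w ^ j % 3 ^ b = (1 + 3 ^ (b - 1)) % 3 ^ b
      · right
        rw [← hdvd, ← hpowj]
        exact prim3 h.1.1 (w ^ j) h.1.2 h.2
      · exact Or.inl h
  have h1 := List.all_eq_true.1 hall s (by rcases hs14 with h | h <;> simp [h])
  have h2 := List.all_eq_true.1 h1 r (List.mem_range.2 hr24)
  rw [hoks, hokr] at h2
  simp only [Bool.and_self, Bool.not_true, Bool.false_or, List.any_eq_true] at h2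
  obtain ⟨y, hy, hyh⟩ := h2
  have hy157 : y = 1 ∨ y = 5 ∨ y = 7 := by simpa using hy
  have hyN : y.Coprime N := by
    rw [hN]
    refine Nat.Coprime.mul_right (Nat.Coprime.pow_right _ ?_) (Nat.Coprime.pow_right _ ?_) <;>
      rcases hy157 with h | h | h <;> rw [h] <;> norm_num
  have key := rel_main (g := 2) (q := 25) (L := 24) hN (by norm_num) (by norm_num) (by norm_num) (by norm_num)
    (by norm_num) χ (FF m) hS hTN hwN hT22 hwL (by norm_num) hgen y hyN
  simp only [tm_eq (k := k) hm1 hm4 hN5, hs, hpar, ← hr] at key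
  have hI : II θ (powc r) = θ ^ r := II_powc hθ r
  have hH := II_horner hθ (powc r) (cf N (N ^ 3 % 5) m s T w y) 0 24
  rw [hI] at hH
  have h3 : ∑ c ∈ range 24, ((cf N (N ^ 3 % 5) m s T w y (0 + c) : ℕ) : k) * (θ ^ r) ^ c = 0 := by
    rw [← key]
    rw [Finset.sum_range_succ (fun e => _) 1, Finset.sum_range_one, Finset.sum_range_succ (fun d => _) 1,
      Finset.sum_range_one, Finset.sum_range_succ (fun d => _) 1, Finset.sum_range_one, ← Finset.sum_add_distrib,
      ← Finset.sum_add_distrib, ← Finset.sum_add_distrib]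
    refine Finset.sum_congr rfl fun c _ => ?_
    rw [zero_add]
    unfold cf
    rw [cast_mod, hmpar]
    split_ifs with h
    · push_cast
      ring
    · push_cast
      linear_combination (((tm N (N ^ 3 % 5) m T w y 1 0 c : ℕ) : k) +
        s * ((tm N (N ^ 3 % 5) m T w y 1 1 c : ℕ) : k)) * (θ ^ r) ^ c * h5k
  rw [h3] at hH
  have h4 := II_zero hθ _ (horner_lt _ _ _ _) hH
  have hyh' : Nat.beq (horner (powc r) (cf N (N ^ 3 % 5) m s T w y) 0 24) 0 = false := by
    have e1 : Nat.mul (Nat.pow 2 a) (Nat.pow 3 b) = N := hN.symm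
    have e2 : Nat.pow N 3 % 5 = N ^ 3 % 5 := rfl
    rw [e1] at hyh
    simpa using hyh
  rw [h4] at hyh'
  exact absurd hyh' (by decide)

end

end Pool.Agent.P8H3.GB
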