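import Pool.Agent.P8H3.GB.AllP
import Pool.Agent.P8H3.GB.Sound
import Pool.Agent.P8H3.GB.Rows
import Pool.Agent.Results.MP_c2a07f_nt.FiveAndPowersOfThree

/-!
# The prime `5` and all conductors `2^a 3^b`
-/

set_option autoImplicit false

namespace Pool.Agent.P8H3.GB

open Finset Polynomial Pool.Agent.Y18.GX

/-- primitivity at `3`, `b = 1` -/
lemma prim_three_one {a N : ℕ} (hN : N = 2 ^ a * 3 ^ 1) (ψ : DirichletCharacter ℂ N) (hprim : ψ.IsPrimitive)
    (x : ℕ) (h2 : x ≡ 1 [MOD 2 ^ a]) (h3 : x ≡ 2 [MOD 3]) : ψ (x : ZMod N) ≠ 1 := by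
  have hN0 : N ≠ 0 := by rw [hN]; positivity
  obtain ⟨y, hyN, hyc, hy1, hy2⟩ := exists_ne (d := 2 ^ a) hN0 ψ (by rw [hN]; exact dvd_mul_right _ _)
    (by
      rw [DirichletCharacter.isPrimitive_def] at hprim
      rw [hprim]
      intro h
      have h4 := Nat.le_of_dvd (by positivity) h
      rw [hN] at h4
      have : 0 < 2 ^ a := by positivity
      omega)
  have hy3 : y.Coprime 3 := Nat.Coprime.coprime_dvd_right (by rw [hN]; exact Dvd.intro_left _ rfl) hyc
  have hcop : Nat.Coprime (2 ^ a) (3 ^ 1) := Nat.Coprime.pow _ _ (by norm_num)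
  have h4 : y % 3 = 1 ∨ y % 3 = 2 := by
    have : ¬ 3 ∣ y := by
      intro h
      have := Nat.dvd_gcd h (dvd_refl 3)
      rw [hy3] at this
      omega
    omega
  rcases h4 with h4 | h4
  · exfalso
    apply hy2
    have h6 : y ≡ 1 [MOD N] := by
      rw [hN]
      exact (Nat.modEq_and_modEq_iff_modEq_mul hcop).1 ⟨hy1, h4⟩
    rw [(ZMod.natCast_eq_natCast_iff _ _ _).2 h6]
    simp
  · have h6 : x ≡ y [MOD N] := by
      rw [hN]
      refine (Nat.modEq_and_modEq_iff_modEq_mul hcop).1 ⟨h2.trans hy1.symm, ?_⟩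
      rw [pow_one]
      exact h3.trans h4.symm
    rw [(ZMod.natCast_eq_natCast_iff _ _ _).2 h6]
    exact hy2

/-- the Euler factor at `5` -/
lemma euler_five {a b N : ℕ} (hN : N = 2 ^ a * 3 ^ b) (ha2 : 2 ≤ a) (ψ : DirichletCharacter ℂ N)
    (hprim : ψ.IsPrimitive) (h20 : ¬ (a = 2 ∧ b = 0)) (h31 : ¬ (a = 3 ∧ b = 1)) :
    ψ ((5 : ℕ) : ZMod N) ≠ 1 := by
  intro h5
  have prim2 := prim_two hN ψ hprim (by omega)
  have h5N : (5 : ℕ).Coprime N := by
    rw [hN]
    exact Nat.Coprime.mul_right (Nat.Coprime.pow_right _ (by norm_num)) (Nat.Coprime.pow_right _ (by norm_num))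
  have ha : a ≤ 5 := by
    by_contra hcon
    have h1 := ker_loc (N₁ := 3 ^ b) (K := a) (ℓ := 2) (n := 3) (q := 25) (u := 3) (A := 3 ^ b)
          (by rw [hN, mul_comm]) ψ (Nat.Coprime.pow_left _ (by norm_num)) (Or.inr ⟨rfl, by norm_num⟩) (by omega)
          (by norm_num) prim2 (by norm_num) (by norm_num) (by
            rcases Nat.eq_zero_or_pos b with h0 | h0
            · subst h0
              simp
            · rw [Nat.totient_prime_pow Nat.prime_three h0]
              have e1 : 3 ^ b = 3 ^ (b - 1) * 3 := by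
                rw [← pow_succ]
                congr 1
                omega
              rw [e1]
              exact ⟨36, by ring⟩) (Nat.Coprime.pow_left _ (by norm_num)) (by norm_num) 5 h5N
              (by rw [h5, one_pow])
    have h2 : 2 ^ 3 ∣ 2 ^ (a - 3) := pow_dvd_pow _ (by omega)
    rcases h1 with h1 | h1
    · have := h2.trans h1
      norm_num at this
    · have := h2.trans h1
      norm_num at this
  have hb : b ≤ 2 := by
    by_contra hcon
    have h1 := ker_loc (N₁ := 2 ^ a) (K := b) (ℓ := 3) (n := 1) (q := 25) (u := 8) (A := 2 ^ a)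
          hN ψ (Nat.Coprime.pow_left _ (by norm_num)) (Or.inl ⟨rfl, by norm_num⟩) (by omega)
          (by norm_num) (prim_three hN ψ hprim (by omega)) (by norm_num) (by norm_num) (by
            rw [Nat.totient_prime_pow Nat.prime_two (by omega)]
            have e1 : 2 ^ a = 2 ^ (a - 1) * 2 := by
              rw [← pow_succ]
              congr 1
              omega
            rw [e1]
            exact ⟨48, by ring⟩) (Nat.Coprime.pow_left _ (by norm_num)) (by norm_num) 5 h5N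
            (by rw [h5, one_pow])
    have h2 : 3 ^ 2 ∣ 3 ^ (b - 1) := pow_dvd_pow _ (by omega)
    rcases h1 with h1 | h1
    · have := h2.trans h1
      norm_num at this
    · have := h2.trans h1
      norm_num at this
  have hpow : ∀ j : ℕ, ψ ((5 ^ j : ℕ) : ZMod N) = 1 := by
    intro j
    have : ((5 ^ j : ℕ) : ZMod N) = ((5 : ℕ) : ZMod N) ^ j := by push_cast; rfl
    rw [this, map_pow, h5, one_pow]
  have hb012 : b = 0 ∨ b = 1 ∨ b = 2 := by omega
  have ha2345 : a = 2 ∨ a = 3 ∨ a = 4 ∨ a = 5 := by omega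
  rcases hb012 with rfl | rfl | rfl
  · rcases ha2345 with rfl | rfl | rfl | rfl
    · exact h20 ⟨rfl, rfl⟩
    · exact prim2 (5 ^ 1) (by decide) (by decide) (hpow 1)
    · exact prim2 (5 ^ 2) (by decide) (by decide) (hpow 2)
    · exact prim2 (5 ^ 4) (by decide) (by decide) (hpow 4)
  · rcases ha2345 with rfl | rfl | rfl | rfl
    · exact prim_three_one hN ψ hprim (5 ^ 1) (by decide) (by decide) (hpow 1)
    · exact h31 ⟨rfl, rfl⟩
    · exact prim2 (5 ^ 2) (by decide) (by decide) (hpow 2)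
    · exact prim2 (5 ^ 4) (by decide) (by decide) (hpow 4)
  · rcases ha2345 with rfl | rfl | rfl | rfl
    · exact prim_three hN ψ hprim (by norm_num) (5 ^ 4) (by decide) (by decide) (hpow 4)
    · exact prim_three hN ψ hprim (by norm_num) (5 ^ 4) (by decide) (by decide) (hpow 4)
    · exact prim_three hN ψ hprim (by norm_num) (5 ^ 4) (by decide) (by decide) (hpow 4)
    · exact prim_three hN ψ hprim (by norm_num) (5 ^ 16) (by decide) (by decide) (hpow 16)

/-- the small conductors -/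
theorem unit_small {a b m T w N : ℕ} (hN : N = 2 ^ a * 3 ^ b) (ha2 : 2 ≤ a) (hm1 : 1 ≤ m) (hm4 : m ≤ 4)
    (hchk : chk a b m T w = true) (ψ : DirichletCharacter ℂ N) (hprim : ψ.IsPrimitive) (hpar : ψ (-1) = (-1) ^ m)
    (hexc : ¬ Exc a b m) : IsUnitAt 5 (lValue 5 m ψ) := by
  have hp : Nat.Prime 5 := by norm_num
  have hNgt : 1 < N := by
    rw [hN]
    have h1 : 2 ≤ 2 ^ a := by
      calc 2 = 2 ^ 1 := (pow_one 2).symm
        _ ≤ 2 ^ a := Nat.pow_le_pow_right (by norm_num) (by omega)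
    have h2 : 1 ≤ 3 ^ b := Nat.one_le_pow _ _ (by norm_num)
    nlinarith
  have hpN : ¬ 5 ∣ N := by
    intro h
    rw [hN] at h
    rcases (hp.dvd_mul).1 h with h | h
    · have := hp.dvd_of_dvd_pow h
      omega
    · have := hp.dvd_of_dvd_pow h
      omega
  have hpφ : ¬ 5 ∣ N.totient := by
    intro h
    rw [hN] at h
    have h1 := hp.dvd_of_dvd_pow (h.trans (totient_dvd_six a b))
    omega
  have hψ1 : ψ ≠ 1 := by
    have : NeZero N := ⟨by omega⟩
    intro h
    rw [h, DirichletCharacter.isPrimitive_def, DirichletCharacter.conductor_one] at hprim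
    omega
  rw [lValue_eq (by omega)]
  refine unit_gen' hp ψ hpN hpφ hpar hm1 (by omega) ?_ ?_ (sum_char (by omega) ψ hψ1)
  · intro hm
    refine euler_five hN ha2 ψ hprim ?_ ?_
    · rintro ⟨rfl, rfl⟩
      exact hexc (Or.inr (Or.inl ⟨rfl, rfl, hm⟩))
    · rintro ⟨rfl, rfl⟩
      exact hexc (Or.inr (Or.inr (Or.inl ⟨rfl, rfl, hm⟩)))
  · intro k _ _ _ χ hχ hχm hS
    refine chk_sound hN ha2 hm1 hm4 hchk χ ?_ ?_ ?_ hχm hS
    · intro x h1 h2 h3
      exact prim_two hN ψ hprim (by omega) x h1 h2 (hχ _ h3)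
    · intro hb x h1 h2 h3
      exact prim_three hN ψ hprim hb x h1 h2 (hχ _ h3)
    · rintro rfl x h1 h2 h3
      exact prim_three_one hN ψ hprim x h1 h2 (hχ _ h3)

/-- all conductors `2^a 3^b` for the prime `5` -/
theorem unit_five {a b m N : ℕ} (hN : N = 2 ^ a * 3 ^ b) (hm1 : 1 ≤ m) (hm4 : m ≤ 4)
    (ψ : DirichletCharacter ℂ N) (hprim : ψ.IsPrimitive) (hpar : ψ (-1) = (-1) ^ m)
    (hexc : ¬ Exc a b m) : IsUnitAt 5 (lValue 5 m ψ) := by
  have hp : Nat.Prime 5 := by norm_num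
  have hpu : 5 ^ 2 - 1 = 2 ^ 3 * 3 ^ 1 * 1 := by norm_num
  rcases Nat.eq_zero_or_pos a with h0 | h0
  · -- `a = 0`
    subst h0
    rw [pow_zero, one_mul] at hN
    subst hN
    have h1 := Pool.Agent.Results.MP_c2a07f_nt.FiveAndPowersOfThree.result b m hm1 hm4
      (by
        rintro rfl rfl
        exact hexc (Or.inl ⟨rfl, rfl, rfl⟩)) ψ hprim hpar
    exact h1
  rcases Nat.lt_or_ge a 2 with h1 | ha2
  · -- `a = 1`
    exfalso
    have : a = 1 := by omega
    subst this
    have hN0 : N ≠ 0 := by rw [hN]; positivity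
    obtain ⟨y, hyN, hyc, hy1, hy2⟩ := exists_ne (d := 3 ^ b) hN0 ψ (by rw [hN]; exact dvd_mul_left _ _)
      (by
        rw [DirichletCharacter.isPrimitive_def] at hprim
        rw [hprim]
        intro h
        have h4 := Nat.le_of_dvd (by positivity) h
        rw [hN] at h4
        have : 0 < 3 ^ b := by positivity
        omega)
    apply hy2
    have hy3 : y.Coprime 2 := Nat.Coprime.coprime_dvd_right (by rw [hN]; exact ⟨3 ^ b, by ring⟩) hyc
    have hodd : y % 2 = 1 := by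
      rcases Nat.mod_two_eq_zero_or_one y with h | h
      · exfalso
        have := Nat.dvd_gcd (Nat.dvd_of_mod_eq_zero h) (dvd_refl 2)
        rw [hy3] at this
        omega
      · exact h
    have h6 : y ≡ 1 [MOD N] := by
      rw [hN]
      exact (Nat.modEq_and_modEq_iff_modEq_mul (Nat.Coprime.pow _ _ (by norm_num))).1 ⟨hodd, hy1⟩
    rw [(ZMod.natCast_eq_natCast_iff _ _ _).2 h6]
    simp
  rcases Nat.lt_or_ge (3 ^ b) (4 * 2 ^ a * 9) with hs3 | hs3
  swap
  · refine unit_three hp le_rfl (n := 3) (n' := 1) (u := 1) hpu (by norm_num) (by norm_num) (by norm_num) hm1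
      (by omega) ?_ hN ψ hprim hpar
    calc m * 2 ^ a * 3 ^ (2 * 1) ≤ 4 * 2 ^ a * 9 := Nat.mul_le_mul (Nat.mul_le_mul_right _ hm4) (by norm_num)
      _ ≤ 3 ^ b := hs3
  rcases Nat.lt_or_ge (2 ^ a) (4 * 3 ^ b * 64) with hs2 | hs2
  swap
  · refine unit_two hp le_rfl (n := 3) (n' := 1) (u := 1) hpu (by norm_num) (by norm_num) (by norm_num) hm1
      (by omega) ?_ hN ψ hprim hpar
    calc m * 3 ^ b * 2 ^ (2 * 3) ≤ 4 * 3 ^ b * 64 := Nat.mul_le_mul (Nat.mul_le_mul_right _ hm4) (by norm_num)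
      _ ≤ 2 ^ a := hs2
  by_cases hC : 7 ≤ a ∧ 2 ≤ b ∧ 384 * 3 ^ b + 144 * 2 ^ a ≤ 2 ^ a * 3 ^ b
  · obtain ⟨ha7, hb2, hC⟩ := hC
    refine unit_big hp le_rfl (n := 3) (n' := 1) (u := 1) hpu (by norm_num) (by norm_num) (by norm_num)
      (by norm_num) hm1 (by omega) (by omega) (by omega) ?_ hN ψ hprim hpar
    have ea : 2 ^ a = 2 ^ (a - 3) * 8 := by
      have : (8 : ℕ) = 2 ^ 3 := by norm_num
      rw [this, ← pow_add]
      congr 1
      omega
    have eb : 3 ^ b = 3 ^ (b - 1) * 3 := by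
      rw [← pow_succ]
      congr 1
      omega
    have ea' : 2 ^ a = 2 * 2 ^ (a - 1) := by
      rw [← pow_succ']
      congr 1
      omega
    have h1 : max m 2 ≤ 4 := by omega
    have h2 : 24 * (2 * (2 ^ 3 * 3 ^ b) + max m 2 * (2 ^ (a - 1) * 3 ^ 1)) ≤ 24 * (2 ^ (a - 3) * 3 ^ (b - 1)) := by
      calc 24 * (2 * (2 ^ 3 * 3 ^ b) + max m 2 * (2 ^ (a - 1) * 3 ^ 1)) ≤
            24 * (2 * (2 ^ 3 * 3 ^ b) + 4 * (2 ^ (a - 1) * 3 ^ 1)) :=
              Nat.mul_le_mul_left _ (Nat.add_le_add_left (Nat.mul_le_mul_right _ h1) _)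
        _ = 384 * 3 ^ b + 144 * (2 * 2 ^ (a - 1)) := by ring
        _ = 384 * 3 ^ b + 144 * 2 ^ a := by rw [← ea']
        _ ≤ 2 ^ a * 3 ^ b := hC
        _ = 24 * (2 ^ (a - 3) * 3 ^ (b - 1)) := by rw [ea, eb]; ring
    exact Nat.le_of_mul_le_mul_left h2 (by norm_num)
  · -- the finite list
    have hA : ∀ n, n ≤ a → 2 ^ n ≤ 2 ^ a := fun n h => Nat.pow_le_pow_right (by norm_num) h
    have hB : ∀ n, n ≤ b → 3 ^ n ≤ 3 ^ b := fun n h => Nat.pow_le_pow_right (by norm_num) h
    have hbig : 384 < 2 ^ a → 144 < 3 ^ b → 55296 ≤ (2 ^ a - 384) * (3 ^ b - 144) → 7 ≤ a → 2 ≤ b → False := by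
      intro h1 h2 h3 h4 h5
      apply hC
      refine ⟨h4, h5, ?_⟩
      obtain ⟨x, hx⟩ : ∃ x, 2 ^ a = x + 384 := ⟨2 ^ a - 384, by omega⟩
      obtain ⟨y, hy⟩ : ∃ y, 3 ^ b = y + 144 := ⟨3 ^ b - 144, by omega⟩
      rw [hx, hy] at h3 ⊢
      rw [Nat.add_sub_cancel, Nat.add_sub_cancel] at h3
      have e : (x + 384) * (y + 144) = x * y + 144 * x + 384 * y + 55296 := by ring
      rw [e]
      linarith
    have ha15 : a < 15 := by
      by_contra hcon
      have h1 := hA 15 (by omega)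
      norm_num at h1
      have hb5 : 5 ≤ b := by
        by_contra hcon2
        have : 3 ^ b ≤ 3 ^ 4 := Nat.pow_le_pow_right (by norm_num) (by omega)
        norm_num at this
        omega
      have h2 := hB 5 hb5
      norm_num at h2
      refine hbig (by omega) (by omega) ?_ (by omega) (by omega)
      calc 55296 ≤ 32384 * 99 := by norm_num
        _ ≤ (2 ^ a - 384) * (3 ^ b - 144) := Nat.mul_le_mul (by omega) (by omega)
    have hb9 : b < 9 := by
      by_contra hcon
      have h1 := hB 9 (by omega)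
      norm_num at h1
      have ha10 : 10 ≤ a := by
        by_contra hcon2
        have : 2 ^ a ≤ 2 ^ 9 := Nat.pow_le_pow_right (by norm_num) (by omega)
        norm_num at this
        omega
      have h2 := hA 10 ha10
      norm_num at h2
      refine hbig (by omega) (by omega) ?_ (by omega) (by omega)
      calc 55296 ≤ 640 * 19539 := by norm_num
        _ ≤ (2 ^ a - 384) * (3 ^ b - 144) := Nat.mul_le_mul (by omega) (by omega)
    rcases rows_mem a ha15 b hb9 ha2 with h | h | h | ⟨r, hr, hra, hrb⟩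
    · omega
    · omega
    · exact absurd h hC
    · have h1 := List.all_eq_true.1 rows_chk r hr
      rcases rows_m r hr m (by omega) hm1 with h2 | h2
      · have h3 := List.all_eq_true.1 h1 m h2
        rw [hra, hrb] at h3
        exact unit_small hN ha2 hm1 hm4 h3 ψ hprim hpar hexc
      · rw [hra, hrb] at h2
        exact absurd h2 hexc

end Pool.Agent.P8H3.GB
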