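import Pool.Agent.P8H3.GB.Rel
import Pool.Agent.Y18.GX.Class

/-!
# Characters modulo `2^a 3^b` with values in a field of characteristic `p`
-/

set_option autoImplicit false

namespace Pool.Agent.P8H3.GB

open Finset Pool.Agent.Y18.GX

section
variable {N₁ Q : ℕ} {R : Type*} [CommMonoidWithZero R] (h : N₁.Coprime Q) (ψ : MulChar (ZMod (N₁ * Q)) R)

/-- the first component -/
noncomputable def fstR : MulChar (ZMod N₁) R where
  toFun x := ψ ((ZMod.chineseRemainder h).symm (x, 1))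
  map_one' := by
    have : ((1 : ZMod N₁), (1 : ZMod Q)) = 1 := rfl
    rw [this, map_one, map_one]
  map_mul' x y := by
    have : ((x * y : ZMod N₁), (1 : ZMod Q)) = (x, 1) * (y, 1) := by simp
    rw [this, map_mul, map_mul]
  map_nonunit' x hx := by
    apply ψ.map_nonunit
    intro h1
    apply hx
    have h2 := h1.map (ZMod.chineseRemainder h)
    rw [RingEquiv.apply_symm_apply, Prod.isUnit_iff] at h2
    exact h2.1

/-- the second component -/
noncomputable def sndR : MulChar (ZMod Q) R where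
  toFun x := ψ ((ZMod.chineseRemainder h).symm (1, x))
  map_one' := by
    have : ((1 : ZMod N₁), (1 : ZMod Q)) = 1 := rfl
    rw [this, map_one, map_one]
  map_mul' x y := by
    have : ((1 : ZMod N₁), (x * y : ZMod Q)) = (1, x) * (1, y) := by simp
    rw [this, map_mul, map_mul]
  map_nonunit' x hx := by
    apply ψ.map_nonunit
    intro h1
    apply hx
    have h2 := h1.map (ZMod.chineseRemainder h)
    rw [RingEquiv.apply_symm_apply, Prod.isUnit_iff] at h2
    exact h2.2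

lemma decR_mul (x : ZMod (N₁ * Q)) : ψ x = fstR h ψ ((ZMod.chineseRemainder h) x).1 *
    sndR h ψ ((ZMod.chineseRemainder h) x).2 := by
  have h1 : fstR h ψ ((ZMod.chineseRemainder h) x).1 * sndR h ψ ((ZMod.chineseRemainder h) x).2 =
      ψ ((ZMod.chineseRemainder h).symm (((ZMod.chineseRemainder h) x).1, 1)) *
      ψ ((ZMod.chineseRemainder h).symm (1, ((ZMod.chineseRemainder h) x).2)) := rfl
  rw [h1, ← map_mul, ← map_mul]
  simp

lemma decR_nat (a : ℕ) : ψ (a : ZMod (N₁ * Q)) = fstR h ψ (a : ZMod N₁) * sndR h ψ (a : ZMod Q) := by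
  rw [decR_mul h ψ, map_natCast]
  rfl

/-- the value of the second component -/
lemma sndR_nat (x c : ℕ) (h1 : x ≡ 1 [MOD N₁]) (h2 : x ≡ c [MOD Q]) :
    sndR h ψ (c : ZMod Q) = ψ (x : ZMod (N₁ * Q)) := by
  rw [decR_nat h ψ, (ZMod.natCast_eq_natCast_iff _ _ _).2 h1, (ZMod.natCast_eq_natCast_iff _ _ _).2 h2,
    Nat.cast_one, map_one, one_mul]

end

section
variable {k : Type*} [Field k]

/-- If `χ(x)^(q-1) = 1` then `x` is `±1` modulo `ℓ^(K-n)`. -/
lemma ker_loc {N N₁ ℓ K n q u A : ℕ} (hN : N = N₁ * ℓ ^ K) (χ : MulChar (ZMod N) k) (hcop : N₁.Coprime ℓ)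
    (hAdm : Adm ℓ q) (hn : 2 * n ≤ K) (hn1 : 1 ≤ n)
    (hprim : ∀ x : ℕ, x ≡ 1 [MOD N₁] → x ≡ 1 + ℓ ^ (K - 1) [MOD ℓ ^ K] → χ (x : ZMod N) ≠ 1)
    (hq : q - 1 = ℓ ^ n * u) (hu : u.Coprime ℓ) (hA : N₁.totient ∣ (q - 1) * A) (hAc : A.Coprime ℓ)
    (heven : 2 ∣ q - 1) (x : ℕ) (hx : x.Coprime N) (h1 : χ (x : ZMod N) ^ (q - 1) = 1) :
    ℓ ^ (K - n) ∣ x - 1 ∨ ℓ ^ (K - n) ∣ x + 1 := by
  subst hN
  have hℓ := hAdm.prime
  have h : N₁.Coprime (ℓ ^ K) := hcop.pow_right K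
  have hxN : x.Coprime N₁ := Nat.Coprime.coprime_dvd_right (dvd_mul_right _ _) hx
  have hxQ : x.Coprime (ℓ ^ K) := Nat.Coprime.coprime_dvd_right (dvd_mul_left _ _) hx
  have hxℓ : x.Coprime ℓ := Nat.Coprime.coprime_dvd_right (dvd_pow_self ℓ (by omega)) hxQ
  have hprim' : sndR h χ ((1 + ℓ ^ (K - 1) : ℕ) : ZMod (ℓ ^ K)) ≠ 1 := by
    obtain ⟨y, hy1, hy2⟩ := Nat.chineseRemainder h 1 (1 + ℓ ^ (K - 1))
    rw [sndR_nat h χ y _ hy1 hy2]
    exact hprim y hy1 hy2
  refine kernel (sndR h χ) hAdm hn hn1 hprim' hq hu hxℓ ?_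
  set z := sndR h χ (x : ZMod (ℓ ^ K)) ^ (q - 1) with hz
  set w := fstR h χ (x : ZMod N₁) ^ (q - 1) with hw
  have hwz : w * z = 1 := by
    rw [hz, hw, ← mul_pow, ← decR_nat h χ]
    exact h1
  have hwA : w ^ A = 1 := by
    have h2 : ((x : ZMod N₁)) ^ N₁.totient = 1 := by
      have := ZMod.pow_totient (ZMod.unitOfCoprime x hxN)
      have h3 := congrArg Units.val this
      push_cast at h3
      rwa [ZMod.coe_unitOfCoprime] at h3
    obtain ⟨c, hc⟩ := hA
    rw [hw, ← pow_mul, hc, pow_mul, ← map_pow, h2, map_one, one_pow]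
  have hzA : z ^ A = 1 := by
    have h2 := congrArg (· ^ A) hwz
    simp only [mul_pow, hwA, one_mul, one_pow] at h2
    exact h2
  have hzℓ : z ^ ℓ ^ K = 1 := by
    have h2 : ((x : ZMod (ℓ ^ K))) ^ (ℓ ^ K).totient = 1 := by
      have := ZMod.pow_totient (ZMod.unitOfCoprime x hxQ)
      have h3 := congrArg Units.val this
      push_cast at h3
      rwa [ZMod.coe_unitOfCoprime] at h3
    have h3 : (ℓ ^ K).totient ∣ (q - 1) * ℓ ^ K := by
      rw [Nat.totient_prime_pow hℓ (by omega)]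
      have h4 : ℓ - 1 ∣ q - 1 := by
        rcases hAdm with ⟨h5, -⟩ | ⟨h5, -⟩
        · rw [h5]
          exact heven
        · rw [h5]
          exact one_dvd _
      rw [mul_comm (q - 1)]
      exact mul_dvd_mul (pow_dvd_pow _ (by omega)) h4
    obtain ⟨c, hc⟩ := h3
    rw [hz, ← pow_mul, hc, pow_mul, ← map_pow, h2, map_one, one_pow]
  have h3 : orderOf z ∣ 1 := by
    have h4 := Nat.dvd_gcd (orderOf_dvd_of_pow_eq_one hzA) (orderOf_dvd_of_pow_eq_one hzℓ)
    rwa [hAc.pow_right K] at h4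
  exact orderOf_eq_one_iff.1 (Nat.dvd_one.1 h3)

end

section
variable {k : Type*} [Field k] {p : ℕ} [Fact p.Prime] [CharP k p]

/-- `φ(2^a 3^b)` divides a power of `6` -/
lemma totient_dvd_six (a b : ℕ) : (2 ^ a * 3 ^ b).totient ∣ 6 ^ (a + b + 1) := by
  rw [Nat.totient_mul (Nat.Coprime.pow _ _ (by norm_num))]
  have h3 : (2 ^ a).totient ∣ 2 ^ a := by
    rcases Nat.eq_zero_or_pos a with h | h
    · subst h
      simp
    · rw [Nat.totient_prime_pow Nat.prime_two h]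
      exact Dvd.intro_left _ (by
        show 2 * (2 ^ (a - 1) * (2 - 1)) = 2 ^ a
        have : 2 ^ a = 2 ^ (a - 1) * 2 := by rw [← pow_succ]; congr 1; omega
        omega)
  have h4 : (3 ^ b).totient ∣ 2 * 3 ^ b := by
    rcases Nat.eq_zero_or_pos b with h | h
    · subst h
      simp
    · rw [Nat.totient_prime_pow Nat.prime_three h]
      exact Dvd.intro_left _ (by
        show 3 * (3 ^ (b - 1) * (3 - 1)) = 2 * 3 ^ b
        have : 3 ^ b = 3 ^ (b - 1) * 3 := by rw [← pow_succ]; congr 1; omega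
        omega)
  refine (mul_dvd_mul h3 h4).trans ?_
  have e1 : 2 ^ a * (2 * 3 ^ b) = 2 ^ (a + 1) * 3 ^ b := by rw [pow_succ]; ring
  have e2 : 6 ^ (a + b + 1) = 2 ^ (a + b + 1) * 3 ^ (a + b + 1) := by rw [← mul_pow]; rfl
  rw [e1, e2]
  exact mul_dvd_mul (pow_dvd_pow _ (by omega)) (pow_dvd_pow _ (by omega))

/-- a power of `6` kills the unit group -/
lemma pow_six {a b : ℕ} (u : (ZMod (2 ^ a * 3 ^ b))ˣ) : u ^ 6 ^ (a + b + 1) = 1 := by
  obtain ⟨c, hc⟩ := totient_dvd_six a b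
  rw [hc, pow_mul, ZMod.pow_totient u, one_pow]

/-- The relation: `χ` is a character modulo `N = 2^a 3^b`, `q = p^g` is `1` modulo `12`. If
`∑ χ(x) F(x/N) = 0` and the `x` with `χ(x)^(q-1) = 1` are products of powers of `-1`, `T`, `w`, where `T^2 = 1`,
`w^L = 1`, `L` a divisor of `q - 1`, then the sum over the products `(-1)^e T^d w^c y`, `e, d < 2`, `c < L`, is zero. -/
theorem rel_main {a b g q L T w N : ℕ} (hN : N = 2 ^ a * 3 ^ b) (hq : q = p ^ g) (h3 : q % 3 = 1) (h4 : q % 4 = 1)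
    (hp2 : p ≠ 2) (hp3 : p ≠ 3) (χ : MulChar (ZMod N) k) (F : Polynomial ℤ)
    (hS : ∑ x ∈ range N, χ (x : ZMod N) * Polynomial.aeval ((x : k) / (N : ℕ)) F = 0)
    (hTN : T.Coprime N) (hwN : w.Coprime N) (hT2 : T ^ 2 ≡ 1 [MOD N]) (hwL : w ^ L ≡ 1 [MOD N]) (hL : L ∣ q - 1)
    (hgen : ∀ x : ℕ, x.Coprime N → χ (x : ZMod N) ^ (q - 1) = 1 →
      ∃ e d c : ℕ, x ≡ (N - 1) ^ e * T ^ d * w ^ c [MOD N]) (y : ℕ) (hy : y.Coprime N) :
    ∑ e ∈ range 2, ∑ d ∈ range 2, ∑ c ∈ range L, χ (-1) ^ e * χ (T : ZMod N) ^ d * χ (w : ZMod N) ^ c *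
      Polynomial.aeval ((((N - 1) ^ e * T ^ d * w ^ c * y % N : ℕ) : k) / (N : ℕ)) F = 0 := by
  have hp := (Fact.out : p.Prime)
  have hq1 : 1 ≤ q := by omega
  have hN0 : N ≠ 0 := by
    rw [hN]
    positivity
  have : NeZero N := ⟨hN0⟩
  have hN1 : 1 ≤ N := Nat.pos_of_ne_zero hN0
  have h2k : ((2 : ℕ) : k) ≠ 0 := fun h => hp2
    ((Nat.prime_dvd_prime_iff_eq hp Nat.prime_two).1 ((CharP.cast_eq_zero_iff k p 2).1 h))
  have h3k : ((3 : ℕ) : k) ≠ 0 := fun h => hp3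
    ((Nat.prime_dvd_prime_iff_eq hp Nat.prime_three).1 ((CharP.cast_eq_zero_iff k p 3).1 h))
  have h6k : ∀ R : ℕ, ((6 ^ R : ℕ) : k) ≠ 0 := by
    intro R
    have : ((6 ^ R : ℕ) : k) = (((2 : ℕ) : k) * ((3 : ℕ) : k)) ^ R := by
      push_cast
      norm_num
    rw [this]
    exact pow_ne_zero _ (mul_ne_zero h2k h3k)
  -- the character of the unit group
  let χ' : (ZMod N)ˣ →* k :=
    { toFun := fun u => χ (u : ZMod N)
      map_one' := by simp
      map_mul' := by intro u v; simp }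
  have hχ' : ∀ u : (ZMod N)ˣ, χ' u = χ (u : ZMod N) := fun _ => rfl
  set f : (ZMod N)ˣ → k := fun u => Polynomial.aeval ((((u : ZMod N).val : ℕ) : k) / (N : ℕ)) F with hf
  have hval : ∀ u : (ZMod N)ˣ, ((((u : ZMod N).val : ℕ)) : ZMod N) = u := fun u => by
    rw [ZMod.natCast_val, ZMod.cast_id', id_eq]
  have hS' : ∑ u, χ' u * f u = 0 := by
    rw [← hS]
    refine Finset.sum_of_injOn (fun u : (ZMod N)ˣ => (u : ZMod N).val) ?_ ?_ ?_ ?_
    · intro u _ v _ huv
      simp only at huv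
      apply Units.ext
      rw [← hval u, ← hval v, huv]
    · intro u _
      simpa using ZMod.val_lt (u : ZMod N)
    · intro x _ hx2
      have hx1 : x < N := by simpa using ‹x ∈ range N›
      have : ¬ IsUnit (x : ZMod N) := by
        intro h
        apply hx2
        obtain ⟨U, hU⟩ := h
        refine ⟨U, by simp, ?_⟩
        simp only
        rw [hU, ZMod.val_natCast, Nat.mod_eq_of_lt hx1]
      rw [χ.map_nonunit this, zero_mul]
    · intro u _
      rw [hχ', hf]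
      simp only
      rw [hval]
  have hfq : ∀ u, f u ^ q = f u := by
    intro u
    rw [hf, hq]
    exact frob_fix F _ N g
  have hcard : ((Fintype.card (ZMod N)ˣ : ℕ) : k) ≠ 0 := by
    rw [ZMod.card_units_eq_totient, hN]
    intro h0
    rw [CharP.cast_eq_zero_iff k p] at h0
    have h1 : p ∣ 6 ^ (a + b + 1) := h0.trans (totient_dvd_six a b)
    have h2 := hp.dvd_of_dvd_pow h1
    have h5 : p ∣ 2 * 3 := h2
    rcases (hp.dvd_mul).1 h5 with h6 | h6
    · exact hp2 ((Nat.prime_dvd_prime_iff_eq hp Nat.prime_two).1 h6)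
    · exact hp3 ((Nat.prime_dvd_prime_iff_eq hp Nat.prime_three).1 h6)
  have hTr : ∀ u, χ' u ^ (q - 1) ≠ 1 → ∑ j ∈ range (6 ^ (a + b + 1)), (χ' u) ^ q ^ j = 0 := by
    intro u hu
    refine trace6 hq h3 h4 _ ?_ hu ?_
    · rw [hχ']
      exact ((Units.isUnit u).map χ).ne_zero
    · rw [← pow_mul, mul_comm, pow_mul, ← map_pow]
      have h5 : u ^ 6 ^ (a + b + 1) = 1 := by
        subst hN
        exact pow_six u
      rw [h5, map_one, one_pow]
  set τ := ZMod.unitOfCoprime T hTN with hτ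
  set ω := ZMod.unitOfCoprime w hwN with hω
  set η := ZMod.unitOfCoprime y hy with hη
  have hτc : (τ : ZMod N) = (T : ZMod N) := ZMod.coe_unitOfCoprime T hTN
  have hωc : (ω : ZMod N) = (w : ZMod N) := ZMod.coe_unitOfCoprime w hwN
  have hηc : (η : ZMod N) = (y : ZMod N) := ZMod.coe_unitOfCoprime y hy
  have hneg : ((N - 1 : ℕ) : ZMod N) = -1 := by
    rw [Nat.cast_sub hN1, ZMod.natCast_self]
    simp
  have key := class_rel3 (G := (ZMod N)ˣ) hq χ' f hfq hTr (h6k _) hcard hS' (-1) τ ω (L := L)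
    (by simp) ?_ ?_ hL (by omega) ?_ η
  · rw [← key]
    refine Finset.sum_congr rfl fun e _ => Finset.sum_congr rfl fun d _ => Finset.sum_congr rfl fun c _ => ?_
    have e1 : (((-1 : (ZMod N)ˣ) ^ e * τ ^ d * ω ^ c * η : (ZMod N)ˣ) : ZMod N) =
        (((N - 1) ^ e * T ^ d * w ^ c * y : ℕ) : ZMod N) := by
      push_cast
      rw [hτc, hωc, hηc, hneg]
    rw [hf]
    simp only
    rw [e1, ZMod.val_natCast, hχ', hχ', hχ', hτc, hωc]
    simp
  · apply Units.ext
    push_cast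
    rw [hτc]
    have := (ZMod.natCast_eq_natCast_iff _ _ _).2 hT2
    push_cast at this
    exact this
  · apply Units.ext
    push_cast
    rw [hωc]
    have := (ZMod.natCast_eq_natCast_iff _ _ _).2 hwL
    push_cast at this
    exact this
  · intro u hu
    obtain ⟨e, d, c, h⟩ := hgen (u : ZMod N).val (ZMod.val_coe_unit_coprime u) (by rw [hval]; exact hu)
    refine ⟨e, d, c, ?_⟩
    apply Units.ext
    push_cast
    rw [hτc, hωc, ← hval u, (ZMod.natCast_eq_natCast_iff _ _ _).2 h]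
    push_cast
    rw [hneg]

end

end Pool.Agent.P8H3.GB
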