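import Pool.Agent.P8H3.GB.Pair

/-!
# Nonvanishing for large `2^a` and `3^b`
-/

set_option autoImplicit false

namespace Pool.Agent.P8H3.GB

open Finset Polynomial Pool.Agent.Y18.GX

lemma exists_between (h : ℕ) (hh : 0 < h) (U v : ℕ) (hU : U < h) : ∃ r, v ≤ U + h * r ∧ U + h * r < v + h := by
  refine ⟨(v + h - 1 - U) / h, ?_, ?_⟩
  · have h1 := Nat.div_add_mod (v + h - 1 - U) h
    have h2 := Nat.mod_lt (v + h - 1 - U) hh
    omega
  · have h1 := Nat.div_mul_le_self (v + h - 1 - U) h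
    rw [mul_comm] at h1
    omega

/-- inverses modulo a prime power -/
lemma exists_inv (c Q : ℕ) (hQ : 1 < Q) (hc : c.Coprime Q) : ∃ x, 0 < x ∧ x < Q ∧ c * x ≡ 1 [MOD Q] := by
  have : NeZero Q := ⟨by omega⟩
  refine ⟨((c : ZMod Q)⁻¹).val, ?_, ZMod.val_lt _, ?_⟩
  · rw [Nat.pos_iff_ne_zero]
    intro h
    have h1 : ((c : ZMod Q)⁻¹) = 0 := (ZMod.val_eq_zero _).1 h
    have h2 := ZMod.coe_mul_inv_eq_one c hc
    rw [h1, mul_zero] at h2
    have h3 : ((0 : ℕ) : ZMod Q) = ((1 : ℕ) : ZMod Q) := by exact_mod_cast h2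
    have h4 := (ZMod.natCast_eq_natCast_iff _ _ _).1 h3
    unfold Nat.ModEq at h4
    rw [Nat.zero_mod, Nat.mod_eq_of_lt hQ] at h4
    omega
  · rw [← ZMod.natCast_eq_natCast_iff]
    push_cast
    rw [ZMod.natCast_val, ZMod.cast_id', id_eq]
    exact ZMod.coe_mul_inv_eq_one c hc

namespace Dt

variable {k : Type*} [Field k] {p : ℕ} (D : Dt k p)

lemma cong (U y Y β : ℕ) (hU : U = 2 ^ (D.a - 1) * β) (hβ : 2 ^ (D.a - 1) * β ≡ 1 [MOD 3 ^ D.n'])
    (hsum : y + Y = 2 * U) (h3 : y ≡ U [MOD 3 ^ D.b]) (h2 : y ≡ 1 [MOD 2 ^ D.n]) :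
    y ≡ 1 [MOD D.L] ∧ y + Y ≡ 0 [MOD 2 ^ D.a] ∧ Y ≡ y [MOD 3 ^ D.b] := by
  have ha := D.ha
  have hb := D.hb
  refine ⟨?_, ?_, ?_⟩
  · rw [D.hL]
    refine (Nat.modEq_and_modEq_iff_modEq_mul (Nat.Coprime.pow _ _ (by norm_num))).1 ⟨h2, ?_⟩
    refine (h3.of_dvd (pow_dvd_pow _ (by omega))).trans ?_
    rw [hU]
    exact hβ
  · rw [hsum, hU]
    apply Nat.modEq_zero_iff_dvd.2
    refine ⟨β, ?_⟩
    have : 2 ^ D.a = 2 * 2 ^ (D.a - 1) := by
      rw [← pow_succ']
      congr 1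
      omega
    rw [this]
    ring
  · have h4 : y + Y ≡ y + y [MOD 3 ^ D.b] := by
      rw [hsum, two_mul]
      exact h3.symm.add h3.symm
    exact Nat.ModEq.add_left_cancel' y h4

/-- the sum cannot vanish -/
theorem contra [Fact p.Prime] [CharP k p] (hp5 : 5 ≤ p) (hm1 : 1 ≤ D.m) (hmp : D.m < p)
    (hdeg : D.F.natDegree ≤ D.m) (hlead : ((D.F.coeff D.m : ℤ) : k) ≠ 0)
    (hC : 2 * (2 ^ D.n * 3 ^ D.b) + max D.m 2 * (2 ^ (D.a - 1) * 3 ^ D.n') ≤ D.M) : False := by
  have hp2 : p ≠ 2 := by omega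
  have hp3 : p ≠ 3 := by omega
  have ha := D.ha
  have hb := D.hb
  have hn := D.hn
  have hn' := D.hn'
  have h20 := two_ne (k := k) hp2
  have h30 : (3 : k) ≠ 0 := by
    intro h
    apply hp3
    have h1 : ((3 : ℕ) : k) = 0 := by exact_mod_cast h
    exact (Nat.prime_dvd_prime_iff_eq Fact.out Nat.prime_three).1 ((CharP.cast_eq_zero_iff k p 3).1 h1)
  have hNk : ((D.N : ℕ) : k) ≠ 0 := by
    rw [D.hN]
    push_cast
    exact mul_ne_zero (pow_ne_zero _ h20) (pow_ne_zero _ h30)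
  have hLk : ((D.L : ℕ) : k) ≠ 0 := by
    rw [D.hL]
    push_cast
    exact mul_ne_zero (pow_ne_zero _ h20) (pow_ne_zero _ h30)
  obtain ⟨α₀, hα0, hα1, hα2⟩ := exists_inv (3 ^ D.b) (2 ^ D.n) (Nat.one_lt_pow (by omega) (by norm_num))
    (Nat.Coprime.pow _ _ (by norm_num))
  obtain ⟨β₀, hβ0, hβ1, hβ2⟩ := exists_inv (2 ^ (D.a - 1)) (3 ^ D.n') (Nat.one_lt_pow (by omega) (by norm_num))
    (Nat.Coprime.pow _ _ (by norm_num))
  set v := 2 ^ D.n * 3 ^ D.b with hv
  set h := 2 ^ (D.a - 1) * 3 ^ D.n' with hh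
  have hh0 : 0 < h := by positivity
  have hv0 : 0 < v := by positivity
  set V := 3 ^ D.b * α₀ with hV
  have hVv : V < v := by
    rw [hV, hv, mul_comm (2 ^ D.n)]
    exact Nat.mul_lt_mul_of_pos_left hα1 (by positivity)
  have hV0 : 0 < V := by positivity
  -- the numbers `U`
  have hβ : ∀ r, 2 ^ (D.a - 1) * (β₀ + 3 ^ D.n' * r) ≡ 1 [MOD 3 ^ D.n'] := by
    intro r
    have h1 : β₀ + 3 ^ D.n' * r ≡ β₀ [MOD 3 ^ D.n'] := by simp [Nat.ModEq]
    exact (h1.mul_left _).trans hβ2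
  have hU0 : 2 ^ (D.a - 1) * β₀ < h := by
    rw [hh]
    exact Nat.mul_lt_mul_of_pos_left hβ1 (by positivity)
  have hUr : ∀ r, 2 ^ (D.a - 1) * (β₀ + 3 ^ D.n' * r) = 2 ^ (D.a - 1) * β₀ + h * r := by
    intro r
    rw [hh]
    ring
  have hUmod : ∀ r, 2 ^ (D.a - 1) * (β₀ + 3 ^ D.n' * r) ≡ 0 [MOD 2 ^ D.n] := fun r =>
    Nat.modEq_zero_iff_dvd.2 ((pow_dvd_pow _ (by omega)).mul_right _)
  have hVmod : V ≡ 0 [MOD 3 ^ D.b] := Nat.modEq_zero_iff_dvd.2 (dvd_mul_right _ _)
  have hVmod2 : V ≡ 1 [MOD 2 ^ D.n] := hα2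
  have hvmod : v ≡ 0 [MOD 3 ^ D.b] := Nat.modEq_zero_iff_dvd.2 (dvd_mul_left _ _)
  have hvmod2 : v ≡ 0 [MOD 2 ^ D.n] := Nat.modEq_zero_iff_dvd.2 (dvd_mul_right _ _)
  set P := QQ D.L (D.F.map (Int.castRingHom k)) D.ζ with hP
  set Q := QQ D.L (D.F.map (Int.castRingHom k)) (D.ζ ^ D.T) with hQ
  have hfdeg : (D.F.map (Int.castRingHom k)).natDegree ≤ D.m := natDegree_map_le.trans hdeg
  have hfm : (D.F.map (Int.castRingHom k)).coeff D.m ≠ 0 := by
    rw [coeff_map]
    exact hlead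
  have hζT : (D.ζ ^ D.T) ^ D.L = 1 := by rw [← pow_mul, mul_comm, pow_mul, D.ζ_L, one_pow]
  have hPdeg : P.degree < D.m := QQ_degree hfdeg D.ζ_L (D.ζ_ne hp2)
  have hQdeg : Q.degree < D.m := QQ_degree hfdeg hζT (D.ζT_ne hp2)
  have hPc : P.coeff (D.m - 1) ≠ 0 := by
    intro h0
    have h1 := QQ_coeff hm1 hfdeg D.ζ_L (D.ζ_ne hp2) hLk
    rw [← hP, h0, mul_zero] at h1
    rcases mul_eq_zero.1 h1.symm with h2 | h2
    · rw [CharP.cast_eq_zero_iff k p] at h2
      have := Nat.le_of_dvd (by omega) h2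
      omega
    · exact hfm h2
  rcases Nat.lt_or_ge 1 D.m with hm2 | hm2
  · -- `m ≥ 2`
    have hmax : max D.m 2 = D.m := max_eq_left (by omega)
    rw [hmax] at hC
    obtain ⟨r, hr1, hr2⟩ := exists_between h hh0 (2 ^ (D.a - 1) * β₀) v hU0
    have hUi : ∀ i, i < D.m → v ≤ 2 ^ (D.a - 1) * (β₀ + 3 ^ D.n' * (r + i)) ∧
        2 ^ (D.a - 1) * (β₀ + 3 ^ D.n' * (r + i)) + v ≤ D.M := by
      intro i hi
      rw [hUr, mul_add, ← add_assoc]
      have h1 : h * i + h ≤ D.m * h := by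
        calc h * i + h = h * (i + 1) := by ring
          _ ≤ h * D.m := Nat.mul_le_mul_left _ hi
          _ = D.m * h := mul_comm _ _
      exact ⟨by omega, by omega⟩
    have hcast : ∀ i : ℕ, ((2 ^ (D.a - 1) * (β₀ + 3 ^ D.n' * (r + i)) : ℕ) : k) / D.N =
        ((2 ^ (D.a - 1) * (β₀ + 3 ^ D.n' * r) : ℕ) : k) / D.N + i * ((h : k) / D.N) := by
      intro i
      rw [hUr, hUr, mul_add, ← add_assoc]
      push_cast
      field_simp
    refine two_rel (p := p) (m := D.m) hm2 hmp hp2 hPdeg hQdeg (D.χ (D.T : ZMod D.N))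
      ((V : k) / D.N) (-(((v - V : ℕ) : k) / D.N)) ?_ hPc
      (((2 ^ (D.a - 1) * (β₀ + 3 ^ D.n' * r) : ℕ) : k) / D.N)
      (((2 ^ (D.a - 1) * (β₀ + 3 ^ D.n' * r) : ℕ) : k) / D.N) ((h : k) / D.N) ?_ ?_ ?_
    · intro h1
      rw [Nat.cast_sub hVv.le] at h1
      have h2 : (v : k) / D.N = 0 := by linear_combination h1
      rw [div_eq_zero_iff] at h2
      rcases h2 with h2 | h2
      · rw [hv] at h2
        push_cast at h2
        exact mul_ne_zero (pow_ne_zero _ h20) (pow_ne_zero _ h30) h2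
      · exact hNk h2
    · refine div_ne_zero ?_ hNk
      rw [hh]
      push_cast
      exact mul_ne_zero (pow_ne_zero _ h20) (pow_ne_zero _ h30)
    · intro i hi
      obtain ⟨hi1, hi2⟩ := hUi i hi
      set U := 2 ^ (D.a - 1) * (β₀ + 3 ^ D.n' * (r + i)) with hU
      obtain ⟨c1, c2, c3⟩ := D.cong U (U + V) (U - V) (β₀ + 3 ^ D.n' * (r + i)) hU (hβ _) (by omega)
        (by
          have := hVmod.add_left U
          rwa [add_zero] at this)
        (by
          have := (hUmod (r + i)).add hVmod2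
          rwa [zero_add] at this)
      have key := D.pair_rel hp2 hp3 (U + V) 0 (U - V) (by omega) (by omega) (by rwa [mul_zero, add_zero])
        (by rwa [mul_zero, add_zero]) (by rwa [mul_zero, add_zero])
      rw [pow_zero, one_mul, ← hP, ← hQ] at key
      rw [← hcast i, ← hU, ← key]
      congr 2
      · congr 1
        push_cast
        field_simp
      · congr 1
        rw [Nat.cast_sub (by omega)]
        field_simp
    · intro i hi
      obtain ⟨hi1, hi2⟩ := hUi i hi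
      set U := 2 ^ (D.a - 1) * (β₀ + 3 ^ D.n' * (r + i)) with hU
      have hadd : U - (v - V) + v = U + V := by omega
      obtain ⟨c1, c2, c3⟩ := D.cong U (U - (v - V)) (U + (v - V)) (β₀ + 3 ^ D.n' * (r + i)) hU (hβ _) (by omega)
        (by
          have h1 : U - (v - V) + v ≡ U + v [MOD 3 ^ D.b] := by
            rw [hadd]
            exact (hVmod.trans hvmod.symm).add_left U
          exact Nat.ModEq.add_right_cancel' v h1)
        (by
          have h1 : U - (v - V) + v ≡ 1 + v [MOD 2 ^ D.n] := by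
            rw [hadd]
            have h2 := (hUmod (r + i)).add hVmod2
            rw [zero_add] at h2
            refine h2.trans ?_
            have h3 := (hvmod2.symm).add_left 1
            rwa [add_zero] at h3
          exact Nat.ModEq.add_right_cancel' v h1)
      have key := D.pair_rel hp2 hp3 (U - (v - V)) 0 (U + (v - V)) (by omega) (by omega)
        (by rwa [mul_zero, add_zero])
        (by rwa [mul_zero, add_zero]) (by rwa [mul_zero, add_zero])
      rw [pow_zero, one_mul, ← hP, ← hQ] at key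
      rw [← hcast i, ← hU, ← key]
      congr 2
      · congr 1
        rw [Nat.cast_sub (by omega : v - V ≤ U)]
        field_simp
        ring
      · congr 1
        push_cast
        field_simp
        ring
  · -- `m = 1`
    have hm : D.m = 1 := by omega
    have hmax : max D.m 2 = 2 := by rw [hm]; rfl
    rw [hmax] at hC
    -- the polynomials are constant
    have hconst : ∀ R : k[X], R.degree < D.m → ∀ x, R.eval x = R.coeff 0 := by
      intro R hR x
      have h1 : R = C (R.coeff 0) := by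
        apply eq_C_of_degree_le_zero
        rw [hm] at hR
        exact Order.lt_succ_iff.1 (by exact_mod_cast hR)
      rw [h1]
      simp
    -- a point in the first cell
    obtain ⟨r, hr1, hr2⟩ := exists_between h hh0 (2 ^ (D.a - 1) * β₀) v hU0
    rw [← hUr] at hr1 hr2
    set U := 2 ^ (D.a - 1) * (β₀ + 3 ^ D.n' * r) with hU
    obtain ⟨c1, c2, c3⟩ := D.cong U (U + V) (U - V) (β₀ + 3 ^ D.n' * r) hU (hβ _) (by omega)
        (by
          have := hVmod.add_left U
          rwa [add_zero] at this)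
        (by
          have := (hUmod r).add hVmod2
          rwa [zero_add] at this)
    have key1 := D.pair_rel hp2 hp3 (U + V) 0 (U - V) (by omega) (by omega) (by rwa [mul_zero, add_zero])
        (by rwa [mul_zero, add_zero]) (by rwa [mul_zero, add_zero])
    rw [pow_zero, one_mul, ← hP, ← hQ, hconst P hPdeg, hconst Q hQdeg] at key1
    -- a point in the second cell
    obtain ⟨s, hs1, hs2⟩ := exists_between v hv0 V h hVv
    obtain ⟨r', hr1', hr2'⟩ := exists_between h hh0 (2 ^ (D.a - 1) * β₀) (D.M - h) hU0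
    rw [← hUr] at hr1' hr2'
    set U' := 2 ^ (D.a - 1) * (β₀ + 3 ^ D.n' * r') with hU'
    set V' := V + v * s with hV'
    have hVmod' : V' ≡ 0 [MOD 3 ^ D.b] := by
      have := hVmod.add (hvmod.mul_right s)
      rwa [zero_mul, add_zero] at this
    have hVmod2' : V' ≡ 1 [MOD 2 ^ D.n] := by
      have := hVmod2.add (hvmod2.mul_right s)
      rwa [zero_mul, add_zero] at this
    obtain ⟨d1, d2, d3⟩ := D.cong U' (U' + V') (U' - V') (β₀ + 3 ^ D.n' * r') hU' (hβ _) (by omega)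
        (by
          have := hVmod'.add_left U'
          rwa [add_zero] at this)
        (by
          have := (hUmod r').add hVmod2'
          rwa [zero_add] at this)
    have e1 : U' + V' - D.M + D.M * 1 = U' + V' := by omega
    have key2 := D.pair_rel hp2 hp3 (U' + V' - D.M) 1 (U' - V') (by omega) (by omega) (by rwa [e1])
        (by rwa [e1]) (by rwa [e1])
    rw [pow_one, ← hP, ← hQ, hconst P hPdeg, hconst Q hQdeg] at key2
    have h1 : (D.ζ - 1) * P.coeff 0 = 0 := by linear_combination D.ζ * key1 - key2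
    rcases mul_eq_zero.1 h1 with h2 | h2
    · exact D.ζ_ne hp2 (sub_eq_zero.1 h2)
    · rw [hm] at hPc
      exact hPc h2

end Dt

end Pool.Agent.P8H3.GB
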