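import Pool.Agent.P8H3.GB.Big

/-!
# The relation between two polynomials
-/

set_option autoImplicit false

namespace Pool.Agent.P8H3.GB

open Finset Polynomial Pool.Agent.Y18.GX

/-- the data -/
structure Dt (k : Type*) [Field k] (p : ℕ) where
  (a b n n' u g q L M N T m : ℕ)
  hq : q = p ^ g
  h3 : q % 3 = 1
  h4 : q % 4 = 1
  hqu : q - 1 = 2 ^ n * 3 ^ n' * u
  hu2 : u.Coprime 2
  hu3 : u.Coprime 3
  hn : 1 ≤ n
  hn' : 1 ≤ n'
  ha : 2 * n + 1 ≤ a
  hb : 2 * n' ≤ b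
  hN : N = 2 ^ a * 3 ^ b
  hM : M = 2 ^ (a - n) * 3 ^ (b - n')
  hL : L = 2 ^ n * 3 ^ n'
  hT2 : T + 1 ≡ 0 [MOD 2 ^ a]
  hT3 : T ≡ 1 [MOD 3 ^ b]
  χ : MulChar (ZMod N) k
  prim2 : ∀ x : ℕ, x ≡ 1 [MOD 3 ^ b] → x ≡ 1 + 2 ^ (a - 1) [MOD 2 ^ a] → χ (x : ZMod N) ≠ 1
  prim3 : ∀ x : ℕ, x ≡ 1 [MOD 2 ^ a] → x ≡ 1 + 3 ^ (b - 1) [MOD 3 ^ b] → χ (x : ZMod N) ≠ 1
  hpar : χ (-1) = (-1) ^ m
  F : ℤ[X]
  c₀ : k
  hF : ∀ x : k, aeval (1 - x) F = (-1) ^ m * aeval x F + c₀
  hS : ∑ x ∈ range N, χ (x : ZMod N) * aeval ((x : k) / (N : ℕ)) F = 0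

namespace Dt

variable {k : Type*} [Field k] {p : ℕ} (D : Dt k p)

/-- the root of unity `χ(1 + M)` -/
noncomputable def ζ : k := D.χ ((1 + D.M : ℕ) : ZMod D.N)

lemma hML : D.N = D.M * D.L := by
  rw [D.hN, D.hM, D.hL]
  have h1 : 2 ^ D.a = 2 ^ (D.a - D.n) * 2 ^ D.n := by
    rw [← pow_add]
    congr 1
    have := D.ha
    omega
  have h2 : 3 ^ D.b = 3 ^ (D.b - D.n') * 3 ^ D.n' := by
    rw [← pow_add]
    congr 1
    have := D.hb
    omega
  rw [h1, h2]
  ring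

lemma L_pos : 0 < D.L := by
  rw [D.hL]
  positivity

lemma M_pos : 0 < D.M := by
  rw [D.hM]
  positivity

lemma N_gt : 1 < D.N := by
  rw [D.hN]
  have h1 : 2 ≤ 2 ^ D.a := by
    calc 2 = 2 ^ 1 := (pow_one 2).symm
      _ ≤ 2 ^ D.a := Nat.pow_le_pow_right (by norm_num) (by have := D.ha; omega)
  have h2 : 1 ≤ 3 ^ D.b := Nat.one_le_pow _ _ (by norm_num)
  nlinarith

lemma hNM : D.N ∣ D.M * D.M := by
  rw [D.hN, D.hM]
  have e1 : 2 ^ (D.a - D.n) * 3 ^ (D.b - D.n') * (2 ^ (D.a - D.n) * 3 ^ (D.b - D.n')) =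
      2 ^ (D.a - D.n + (D.a - D.n)) * 3 ^ (D.b - D.n' + (D.b - D.n')) := by rw [pow_add, pow_add]; ring
  rw [e1]
  have := D.ha
  have := D.hb
  exact mul_dvd_mul (pow_dvd_pow _ (by omega)) (pow_dvd_pow _ (by omega))

lemma ζ_pow (c : ℕ) : D.ζ ^ c = D.χ ((1 + D.M * c : ℕ) : ZMod D.N) := by
  unfold ζ
  rw [← map_pow]
  congr 1
  have := (ZMod.natCast_eq_natCast_iff _ _ _).2 (one_add_pow_mod D.hNM c)
  push_cast at this ⊢
  exact this

lemma ζ_L : D.ζ ^ D.L = 1 := by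
  rw [ζ_pow, ← D.hML]
  simp

lemma L_half : ∃ L', D.L = 2 * L' := by
  rw [D.hL]
  refine ⟨2 ^ (D.n - 1) * 3 ^ D.n', ?_⟩
  have : 2 ^ D.n = 2 * 2 ^ (D.n - 1) := by
    rw [← pow_succ']
    congr 1
    have := D.hn
    omega
  rw [this]
  ring

/-- `ζ^(L/2) = -1` -/
lemma ζ_half {L' : ℕ} (hL' : D.L = 2 * L') : D.ζ ^ L' = -1 := by
  have h1 : (D.ζ ^ L' - 1) * (D.ζ ^ L' + 1) = 0 := by
    have : D.ζ ^ (2 * L') = 1 := by rw [← hL', ζ_L]
    have h2 : D.ζ ^ (2 * L') = D.ζ ^ L' * D.ζ ^ L' := by rw [two_mul, pow_add]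
    rw [h2] at this
    linear_combination this
  rcases mul_eq_zero.1 h1 with h2 | h2
  · exfalso
    have h3 := sub_eq_zero.1 h2
    rw [ζ_pow] at h3
    refine D.prim2 _ ?_ ?_ h3
    · have h4 : 3 ^ D.b ∣ D.M * L' := by
        have h5 : 3 ^ D.b ∣ 2 * (D.M * L') := by
          have : 2 * (D.M * L') = D.N := by rw [D.hML, hL']; ring
          rw [this, D.hN]
          exact dvd_mul_left _ _
        exact (Nat.Coprime.dvd_mul_left (Nat.Coprime.pow_left _ (by norm_num))).1 h5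
      have h6 := (Nat.modEq_zero_iff_dvd.2 h4).add_left 1
      exact h6
    · -- `M L' = 2^(a-1) 3^b`
      have h5 : 2 * (D.M * L') = 2 * (2 ^ (D.a - 1) * 3 ^ D.b) := by
        have h7 : 2 * (D.M * L') = D.N := by rw [D.hML, hL']; ring
        have h8 : 2 ^ D.a = 2 * 2 ^ (D.a - 1) := by
          rw [← pow_succ']
          congr 1
          have := D.ha
          omega
        rw [h7, D.hN, h8]
        ring
      have h6 : D.M * L' = 2 ^ (D.a - 1) * 3 ^ D.b := Nat.eq_of_mul_eq_mul_left (by norm_num) h5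
      rw [h6]
      apply Nat.ModEq.add_left
      have h8 : 2 ^ D.a = 2 ^ (D.a - 1) * 2 := by
        rw [← pow_succ]
        congr 1
        have := D.ha
        omega
      rw [h8]
      have h9 : 3 ^ D.b ≡ 1 [MOD 2] := by
        have : 3 ≡ 1 [MOD 2] := rfl
        have := this.pow D.b
        rwa [one_pow] at this
      have h10 := h9.mul_left' (2 ^ (D.a - 1))
      rwa [mul_one] at h10
  · exact eq_neg_of_add_eq_zero_left h2

lemma two_ne [Fact p.Prime] [CharP k p] (hp2 : p ≠ 2) : (2 : k) ≠ 0 := by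
  intro h
  apply hp2
  have h1 : ((2 : ℕ) : k) = 0 := by exact_mod_cast h
  exact (Nat.prime_dvd_prime_iff_eq Fact.out Nat.prime_two).1 ((CharP.cast_eq_zero_iff k p 2).1 h1)

lemma T_odd : Odd D.T := by
  rcases Nat.even_or_odd D.T with h | h
  · exfalso
    have h1 : D.T + 1 ≡ 0 [MOD 2] := D.hT2.of_dvd (dvd_pow_self 2 (by have := D.ha; omega))
    obtain ⟨c, hc⟩ := h
    rw [hc] at h1
    have := h1
    unfold Nat.ModEq at this
    omega
  · exact h

/-- the second root of unity -/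
lemma ζT_ne [Fact p.Prime] [CharP k p] (hp2 : p ≠ 2) : D.ζ ^ D.T ≠ 1 := by
  obtain ⟨L', hL'⟩ := D.L_half
  intro h
  have h1 : (D.ζ ^ D.T) ^ L' = -1 := by
    rw [← pow_mul, mul_comm, pow_mul, D.ζ_half hL', D.T_odd.neg_one_pow]
  rw [h, one_pow] at h1
  exact two_ne (k := k) hp2 (by linear_combination h1)

lemma ζ_ne [Fact p.Prime] [CharP k p] (hp2 : p ≠ 2) : D.ζ ≠ 1 := by
  intro h
  apply D.ζT_ne hp2
  rw [h, one_pow]

lemma T_coprime : D.T.Coprime D.N := by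
  rw [D.hN]
  refine Nat.Coprime.mul_right (Nat.Coprime.pow_right _ ?_) ?_
  · exact Nat.coprime_two_right.2 D.T_odd
  · apply Nat.Coprime.pow_right
    rw [Nat.coprime_comm, Nat.Prime.coprime_iff_not_dvd Nat.prime_three]
    intro h
    have h1 : D.T ≡ 1 [MOD 3] := D.hT3.of_dvd (dvd_pow_self 3 (by have := D.hb; have := D.hn'; omega))
    have h2 : D.T ≡ 0 [MOD 3] := Nat.modEq_zero_iff_dvd.2 h
    have h3 := h2.symm.trans h1
    unfold Nat.ModEq at h3
    omega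

lemma T_sq : D.T * D.T ≡ 1 [MOD D.N] := by
  rw [D.hN]
  refine modEq_of ?_ ?_
  · have h4 := (ZMod.natCast_eq_natCast_iff _ _ _).2 D.hT2
    push_cast at h4 ⊢
    rw [eq_neg_of_add_eq_zero_left h4]
    ring
  · have h4 := (ZMod.natCast_eq_natCast_iff _ _ _).2 D.hT3
    push_cast at h4 ⊢
    rw [h4]
    ring

lemma coprime_of {y : ℕ} (hy : y ≡ 1 [MOD D.L]) : y.Coprime D.N := by
  rw [D.hN]
  have h6 : y ≡ 1 [MOD 2] := hy.of_dvd (by
    rw [D.hL]
    exact (dvd_pow_self 2 (by have := D.hn; omega)).mul_right _)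
  have h7 : y ≡ 1 [MOD 3] := hy.of_dvd (by
    rw [D.hL]
    exact (dvd_pow_self 3 (by have := D.hn'; omega)).mul_left _)
  unfold Nat.ModEq at h6 h7
  refine Nat.Coprime.mul_right (Nat.Coprime.pow_right _ ?_) (Nat.Coprime.pow_right _ ?_)
  · rw [Nat.coprime_comm, Nat.Prime.coprime_iff_not_dvd Nat.prime_two]
    omega
  · rw [Nat.coprime_comm, Nat.Prime.coprime_iff_not_dvd Nat.prime_three]
    omega

/-- the relation of `rel_main`, after reflection -/
lemma rel_two [Fact p.Prime] [CharP k p] (hp2 : p ≠ 2) (hp3 : p ≠ 3) (y : ℕ) (hy : y.Coprime D.N) :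
    ∑ c ∈ range D.L, D.ζ ^ c * aeval ((((1 + D.M) ^ c * y % D.N : ℕ) : k) / (D.N : ℕ)) D.F +
    D.χ (D.T : ZMod D.N) * ∑ c ∈ range D.L, D.ζ ^ c *
      aeval (((D.T * (1 + D.M) ^ c * y % D.N : ℕ) : k) / (D.N : ℕ)) D.F = 0 := by
  have hN1 := D.N_gt
  have ha := D.ha
  have hb := D.hb
  have hn := D.hn
  have hn' := D.hn'
  have hwN : (1 + D.M).Coprime D.N := by
    rw [Nat.coprime_comm]
    have h1 : (1 + D.M) ^ D.L ≡ 1 [MOD D.N] := by
      refine (one_add_pow_mod D.hNM D.L).trans ?_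
      rw [← D.hML]
      simp [Nat.ModEq]
    have h2 : IsUnit ((1 + D.M : ℕ) : ZMod D.N) := by
      have h3 := (ZMod.natCast_eq_natCast_iff _ _ _).2 h1
      push_cast at h3
      have h4 : IsUnit (((1 + D.M : ℕ) : ZMod D.N) ^ D.L) := by
        push_cast
        rw [h3]
        exact isUnit_one
      exact (isUnit_pow_iff D.L_pos.ne').1 h4
    rw [Nat.coprime_comm]
    exact (ZMod.isUnit_iff_coprime _ _).1 h2
  have hwL : (1 + D.M) ^ D.L ≡ 1 [MOD D.N] := by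
    refine (one_add_pow_mod D.hNM D.L).trans ?_
    rw [← D.hML]
    simp [Nat.ModEq]
  have hLq : D.L ∣ D.q - 1 := by
    rw [D.hqu, D.hL]
    exact dvd_mul_right _ _
  have h2q : 2 ∣ D.q - 1 := by
    have := D.h4
    omega
  have hgen : ∀ x : ℕ, x.Coprime D.N → D.χ (x : ZMod D.N) ^ (D.q - 1) = 1 →
      ∃ e d c : ℕ, x ≡ (D.N - 1) ^ e * D.T ^ d * (1 + D.M) ^ c [MOD D.N] := by
    intro x hx hx1
    have hx0 : 1 ≤ x := by
      rcases Nat.eq_zero_or_pos x with h | h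
      · rw [h, Nat.coprime_zero_left] at hx
        omega
      · exact h
    refine gen_big D.hN D.hM (by omega) hb D.hT2 D.hT3 ?_ ?_ hx0 hN1
    · refine ker_loc (N₁ := 3 ^ D.b) (K := D.a) (ℓ := 2) (u := 3 ^ D.n' * D.u) (A := 3 ^ D.b)
        (by rw [D.hN, mul_comm]) D.χ (Nat.Coprime.pow_left _ (by norm_num)) (Or.inr ⟨rfl, D.h4⟩) (by omega) hn
        D.prim2 (by rw [D.hqu]; ring) ?_ ?_ ?_ h2q x hx hx1
      · exact Nat.Coprime.mul_left (Nat.Coprime.pow_left _ (by norm_num)) D.hu2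
      · rw [Nat.totient_prime_pow Nat.prime_three (by omega)]
        have e1 : 3 ^ D.b = 3 ^ (D.b - 1) * 3 := by
          rw [← pow_succ]
          congr 1
          omega
        have e2 : 3 ^ (D.b - 1) ∣ 3 ^ D.b := by
          rw [e1]
          exact dvd_mul_right _ _
        rw [mul_comm]
        exact mul_dvd_mul h2q e2
      · exact Nat.Coprime.pow_left _ (by norm_num)
    · refine ker_loc (N₁ := 2 ^ D.a) (K := D.b) (ℓ := 3) (u := 2 ^ D.n * D.u) (A := 2 ^ D.a)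
        D.hN D.χ (Nat.Coprime.pow_left _ (by norm_num)) (Or.inl ⟨rfl, D.h3⟩) hb hn'
        D.prim3 (by rw [D.hqu]; ring) ?_ ?_ ?_ h2q x hx hx1
      · exact Nat.Coprime.mul_left (Nat.Coprime.pow_left _ (by norm_num)) D.hu3
      · rw [Nat.totient_prime_pow Nat.prime_two (by omega)]
        rw [mul_comm (D.q - 1)]
        have e1 : 2 ^ D.a = 2 ^ (D.a - 1) * 2 := by
          rw [← pow_succ]
          congr 1
          omega
        have e2 : 2 ^ (D.a - 1) ∣ 2 ^ D.a := by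
          rw [e1]
          exact dvd_mul_right _ _
        exact mul_dvd_mul e2 (one_dvd _)
      · exact Nat.Coprime.pow_left _ (by norm_num)
  have key := rel_main D.hN D.hq D.h3 D.h4 hp2 hp3 D.χ D.F D.hS D.T_coprime hwN
    (by rw [sq]; exact D.T_sq) hwL hLq hgen y hy
  -- reflection
  have hNk : ((D.N : ℕ) : k) ≠ 0 := by
    rw [D.hN]
    push_cast
    refine mul_ne_zero (pow_ne_zero _ (two_ne (k := k) hp2)) (pow_ne_zero _ ?_)
    intro h
    apply hp3
    have h1 : ((3 : ℕ) : k) = 0 := by exact_mod_cast h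
    exact (Nat.prime_dvd_prime_iff_eq Fact.out Nat.prime_three).1 ((CharP.cast_eq_zero_iff k p 3).1 h1)
  have hrefl : ∀ X : ℕ, X.Coprime D.N → aeval ((((D.N - 1) * X % D.N : ℕ) : k) / (D.N : ℕ)) D.F =
      (-1) ^ D.m * aeval (((X % D.N : ℕ) : k) / (D.N : ℕ)) D.F + D.c₀ := by
    intro X hX
    have h1 : X % D.N < D.N := Nat.mod_lt _ (by omega)
    have h2 : X % D.N ≠ 0 := by
      intro h
      have h3 := Nat.dvd_gcd (Nat.dvd_of_mod_eq_zero h) (dvd_refl D.N)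
      rw [hX] at h3
      have := Nat.dvd_one.1 h3
      omega
    have h3 : (D.N - 1) * X % D.N = D.N - X % D.N := by
      have h4 : (D.N - 1) * X + X % D.N ≡ 0 [MOD D.N] := by
        calc (D.N - 1) * X + X % D.N ≡ (D.N - 1) * X + X [MOD D.N] := (Nat.mod_modEq _ _).add_left _
          _ = D.N * X := by
            have : D.N = (D.N - 1) + 1 := by omega
            conv_rhs => rw [this]
            ring
          _ ≡ 0 [MOD D.N] := Nat.modEq_zero_iff_dvd.2 (dvd_mul_right _ _)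
      have h5 : (D.N - 1) * X + X % D.N ≡ (D.N - X % D.N) + X % D.N [MOD D.N] := by
        rw [Nat.sub_add_cancel h1.le]
        exact h4.trans (Nat.modEq_zero_iff_dvd.2 dvd_rfl).symm
      have h6 := Nat.ModEq.add_right_cancel' _ h5
      unfold Nat.ModEq at h6
      rw [h6, Nat.mod_eq_of_lt (by omega)]
    rw [h3, ← D.hF]
    congr 1
    rw [Nat.cast_sub h1.le, sub_div, div_self hNk]
  have hζ0 := sum_pow_zero D.ζ_L (D.ζ_ne hp2)
  have hcopX : ∀ d c, (D.T ^ d * (1 + D.M) ^ c * y).Coprime D.N := fun d c =>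
    Nat.Coprime.mul_left (Nat.Coprime.mul_left (D.T_coprime.pow_left d) (hwN.pow_left c)) hy
  have hsq : ((-1 : k) ^ D.m) * (-1) ^ D.m = 1 := by
    rw [← mul_pow]
    simp
  have hζc : ((D.χ ((1 + D.M : ℕ) : ZMod D.N)) : k) = D.ζ := rfl
  rw [Finset.sum_range_succ, Finset.sum_range_one] at key
  simp only [Finset.sum_range_succ, Finset.sum_range_zero, zero_add, pow_zero, one_mul, pow_one, hζc] at key
  have e1 : ∀ c, aeval ((((D.N - 1) * (1 + D.M) ^ c * y % D.N : ℕ) : k) / (D.N : ℕ)) D.F =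
      (-1) ^ D.m * aeval ((((1 + D.M) ^ c * y % D.N : ℕ) : k) / (D.N : ℕ)) D.F + D.c₀ := by
    intro c
    have := hcopX 0 c
    rw [pow_zero, one_mul] at this
    rw [← hrefl _ this, mul_assoc]
  have e2 : ∀ c, aeval ((((D.N - 1) * D.T * (1 + D.M) ^ c * y % D.N : ℕ) : k) / (D.N : ℕ)) D.F =
      (-1) ^ D.m * aeval (((D.T * (1 + D.M) ^ c * y % D.N : ℕ) : k) / (D.N : ℕ)) D.F + D.c₀ := by
    intro c
    have := hcopX 1 c
    rw [pow_one] at this
    rw [← hrefl _ this]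
    have h7 : (D.N - 1) * D.T * (1 + D.M) ^ c * y = (D.N - 1) * (D.T * (1 + D.M) ^ c * y) := by ring
    rw [h7]
  simp only [mul_one, e1, e2, D.hpar] at key
  have e3 : ∑ c ∈ range D.L, (-1) ^ D.m * D.ζ ^ c *
      ((-1) ^ D.m * aeval ((((1 + D.M) ^ c * y % D.N : ℕ) : k) / (D.N : ℕ)) D.F + D.c₀) =
      ∑ c ∈ range D.L, D.ζ ^ c * aeval ((((1 + D.M) ^ c * y % D.N : ℕ) : k) / (D.N : ℕ)) D.F +
      (-1) ^ D.m * D.c₀ * ∑ c ∈ range D.L, D.ζ ^ c := by
    rw [Finset.mul_sum, ← Finset.sum_add_distrib]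
    refine Finset.sum_congr rfl fun c _ => ?_
    linear_combination (D.ζ ^ c * aeval ((((1 + D.M) ^ c * y % D.N : ℕ) : k) / (D.N : ℕ)) D.F) * hsq
  have e4 : ∑ c ∈ range D.L, (-1) ^ D.m * D.χ (D.T : ZMod D.N) * D.ζ ^ c *
      ((-1) ^ D.m * aeval (((D.T * (1 + D.M) ^ c * y % D.N : ℕ) : k) / (D.N : ℕ)) D.F + D.c₀) =
      D.χ (D.T : ZMod D.N) * ∑ c ∈ range D.L, D.ζ ^ c *
        aeval (((D.T * (1 + D.M) ^ c * y % D.N : ℕ) : k) / (D.N : ℕ)) D.F +
      (-1) ^ D.m * D.χ (D.T : ZMod D.N) * D.c₀ * ∑ c ∈ range D.L, D.ζ ^ c := by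
    rw [Finset.mul_sum, Finset.mul_sum, ← Finset.sum_add_distrib]
    refine Finset.sum_congr rfl fun c _ => ?_
    linear_combination (D.χ (D.T : ZMod D.N) * D.ζ ^ c *
      aeval (((D.T * (1 + D.M) ^ c * y % D.N : ℕ) : k) / (D.N : ℕ)) D.F) * hsq
  have e5 : ∑ c ∈ range D.L, D.χ (D.T : ZMod D.N) * D.ζ ^ c *
      aeval (((D.T * (1 + D.M) ^ c * y % D.N : ℕ) : k) / (D.N : ℕ)) D.F =
      D.χ (D.T : ZMod D.N) * ∑ c ∈ range D.L, D.ζ ^ c *
        aeval (((D.T * (1 + D.M) ^ c * y % D.N : ℕ) : k) / (D.N : ℕ)) D.F := by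
    rw [Finset.mul_sum]
    refine Finset.sum_congr rfl fun c _ => ?_
    ring
  rw [e3, e4, e5, hζ0] at key
  have h20 := two_ne (k := k) hp2
  apply mul_left_cancel₀ h20
  linear_combination key

/-- the relation between the values of two polynomials -/
theorem pair_rel [Fact p.Prime] [CharP k p] (hp2 : p ≠ 2) (hp3 : p ≠ 3) (y j Y : ℕ) (hy : y < D.M)
    (hY : Y < D.M) (hyL : y + D.M * j ≡ 1 [MOD D.L]) (h2 : y + D.M * j + Y ≡ 0 [MOD 2 ^ D.a])
    (h3 : Y ≡ y + D.M * j [MOD 3 ^ D.b]) :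
    (QQ D.L (D.F.map (Int.castRingHom k)) D.ζ).eval ((y : k) / D.N) +
      D.ζ ^ j * D.χ (D.T : ZMod D.N) *
        (QQ D.L (D.F.map (Int.castRingHom k)) (D.ζ ^ D.T)).eval ((Y : k) / D.N) = 0 := by
  have hN1 := D.N_gt
  have hNk : ((D.N : ℕ) : k) ≠ 0 := by
    rw [D.hN]
    push_cast
    refine mul_ne_zero (pow_ne_zero _ (two_ne (k := k) hp2)) (pow_ne_zero _ ?_)
    intro h
    apply hp3
    have h1 : ((3 : ℕ) : k) = 0 := by exact_mod_cast h
    exact (Nat.prime_dvd_prime_iff_eq Fact.out Nat.prime_three).1 ((CharP.cast_eq_zero_iff k p 3).1 h1)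
  have key := D.rel_two hp2 hp3 (y + D.M * j) (D.coprime_of hyL)
  rw [QQ_eval D.hML hNk, QQ_eval D.hML hNk]
  set f : ℕ → k := fun x => aeval (((x % D.N : ℕ) : k) / (D.N : ℕ)) D.F with hf
  have hfmod : ∀ x x' : ℕ, x ≡ x' [MOD D.N] → f x = f x' := by
    intro x x' h
    have h' : x % D.N = x' % D.N := h
    rw [hf]
    simp only
    rw [h']
  have hfsmall : ∀ x c : ℕ, x < D.M → c < D.L →
      aeval (((x + D.M * c : ℕ) : k) / (D.N : ℕ)) D.F = f (x + D.M * c) := by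
    intro x c hx hc
    have h1 : x + D.M * c < D.N := by
      rw [D.hML]
      calc x + D.M * c < D.M + D.M * c := by omega
        _ = D.M * (c + 1) := by ring
        _ ≤ D.M * D.L := Nat.mul_le_mul_left _ hc
    rw [hf]
    simp only
    rw [Nat.mod_eq_of_lt h1]
  have hML0 : ∀ x, D.M * (D.L * x) ≡ 0 [MOD D.N] := by
    intro x
    apply Nat.modEq_zero_iff_dvd.2
    rw [← mul_assoc, ← D.hML]
    exact dvd_mul_right _ _
  have hMmod : ∀ x x' : ℕ, x ≡ x' [MOD D.L] → D.M * x ≡ D.M * x' [MOD D.N] := by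
    intro x x' h
    rw [D.hML]
    exact h.mul_left' D.M
  -- `Y = T y`
  have hYT : Y ≡ D.T * (y + D.M * j) [MOD D.N] := by
    rw [D.hN]
    refine modEq_of ?_ ?_
    · have h4 := (ZMod.natCast_eq_natCast_iff _ _ _).2 D.hT2
      have h5 := (ZMod.natCast_eq_natCast_iff _ _ _).2 h2
      push_cast at h4 h5 ⊢
      rw [eq_neg_of_add_eq_zero_left h4]
      linear_combination h5
    · have h4 := (ZMod.natCast_eq_natCast_iff _ _ _).2 D.hT3
      have h5 := (ZMod.natCast_eq_natCast_iff _ _ _).2 h3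
      push_cast at h4 h5 ⊢
      rw [h4, h5]
      ring
  have hLN : D.L ∣ D.N := by
    rw [D.hML]
    exact dvd_mul_left _ _
  have hYL : Y ≡ D.T [MOD D.L] := by
    have h4 := (hYT.of_dvd hLN).trans (hyL.mul_left D.T)
    rwa [mul_one] at h4
  have hYY : Y * Y ≡ 1 [MOD D.L] := (hYL.mul hYL).trans (D.T_sq.of_dvd hLN)
  have hζmod : ∀ x x' : ℕ, x ≡ x' [MOD D.L] → D.ζ ^ x = D.ζ ^ x' := by
    intro x x' h
    have h' : x % D.L = x' % D.L := h
    rw [← Nat.mod_add_div x D.L, ← Nat.mod_add_div x' D.L, pow_add, pow_mul, D.ζ_L, one_pow, pow_add, pow_mul,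
      D.ζ_L, one_pow, h']
  -- the first sum
  have e1 : D.ζ ^ j * ∑ c ∈ range D.L, D.ζ ^ c *
      aeval ((((1 + D.M) ^ c * (y + D.M * j) % D.N : ℕ) : k) / (D.N : ℕ)) D.F =
      ∑ c ∈ range D.L, D.ζ ^ c * aeval (((y + D.M * c : ℕ) : k) / (D.N : ℕ)) D.F := by
    have hper := periodic_shift (fun c => D.ζ ^ c * f (y + D.M * c)) D.L (fun c => by
      have h4 : y + D.M * (c + D.L) ≡ y + D.M * c [MOD D.N] := by
        apply Nat.ModEq.add_left
        apply hMmod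
        simp [Nat.ModEq]
      rw [hfmod _ _ h4, pow_add, D.ζ_L, mul_one]) j
    rw [Finset.mul_sum]
    calc _ = ∑ c ∈ range D.L, D.ζ ^ (c + j) * f (y + D.M * (c + j)) := by
          refine Finset.sum_congr rfl fun c _ => ?_
          have h4 : (1 + D.M) ^ c * (y + D.M * j) ≡ y + D.M * (c + j) [MOD D.N] := by
            calc (1 + D.M) ^ c * (y + D.M * j) ≡ (1 + D.M * c) * (y + D.M * j) [MOD D.N] :=
                  (one_add_pow_mod D.hNM c).mul_right _
              _ = y + D.M * j + D.M * (c * (y + D.M * j)) := by ring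
              _ ≡ y + D.M * j + D.M * c [MOD D.N] := by
                  apply Nat.ModEq.add_left
                  apply hMmod
                  have := hyL.mul_left c
                  rwa [mul_one] at this
              _ = y + D.M * (c + j) := by ring
          have h5 : aeval ((((1 + D.M) ^ c * (y + D.M * j) % D.N : ℕ) : k) / (D.N : ℕ)) D.F =
              f ((1 + D.M) ^ c * (y + D.M * j)) := rfl
          rw [h5, hfmod _ _ h4, pow_add]
          ring
      _ = ∑ c ∈ range D.L, D.ζ ^ c * f (y + D.M * c) := hper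
      _ = _ := by
          refine Finset.sum_congr rfl fun c hc => ?_
          rw [hfsmall y c hy (mem_range.1 hc)]
  have e2 : ∑ c ∈ range D.L, D.ζ ^ c *
      aeval (((D.T * (1 + D.M) ^ c * (y + D.M * j) % D.N : ℕ) : k) / (D.N : ℕ)) D.F =
      ∑ c ∈ range D.L, (D.ζ ^ D.T) ^ c * aeval (((Y + D.M * c : ℕ) : k) / (D.N : ℕ)) D.F := by
    have hper := sum_mul_period (fun c => D.ζ ^ c * f (Y + D.M * (c * Y))) D.L Y Y D.L_pos hYY (fun c => by
      have h4 : Y + D.M * ((c + D.L) * Y) ≡ Y + D.M * (c * Y) [MOD D.N] := by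
        apply Nat.ModEq.add_left
        apply hMmod
        apply Nat.ModEq.mul_right
        simp [Nat.ModEq]
      rw [hfmod _ _ h4, pow_add, D.ζ_L, mul_one])
    calc _ = ∑ c ∈ range D.L, D.ζ ^ c * f (Y + D.M * (c * Y)) := by
          refine Finset.sum_congr rfl fun c _ => ?_
          have h4 : D.T * (1 + D.M) ^ c * (y + D.M * j) ≡ Y + D.M * (c * Y) [MOD D.N] := by
            calc D.T * (1 + D.M) ^ c * (y + D.M * j) = (1 + D.M) ^ c * (D.T * (y + D.M * j)) := by ring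
              _ ≡ (1 + D.M * c) * Y [MOD D.N] := (one_add_pow_mod D.hNM c).mul hYT.symm
              _ = Y + D.M * (c * Y) := by ring
          have h5 : aeval (((D.T * (1 + D.M) ^ c * (y + D.M * j) % D.N : ℕ) : k) / (D.N : ℕ)) D.F =
              f (D.T * (1 + D.M) ^ c * (y + D.M * j)) := rfl
          rw [h5, hfmod _ _ h4]
      _ = ∑ c ∈ range D.L, D.ζ ^ (c * Y) * f (Y + D.M * (c * Y * Y)) := hper.symm
      _ = _ := by
          refine Finset.sum_congr rfl fun c hc => ?_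
          rw [hfsmall Y c hY (mem_range.1 hc)]
          have h4 : Y + D.M * (c * Y * Y) ≡ Y + D.M * c [MOD D.N] := by
            apply Nat.ModEq.add_left
            apply hMmod
            rw [mul_assoc]
            have := hYY.mul_left c
            rwa [mul_one] at this
          rw [hfmod _ _ h4, mul_comm c Y, pow_mul, hζmod Y D.T hYL]
  rw [← e1, ← e2]
  linear_combination D.ζ ^ j * key

end Dt

end Pool.Agent.P8H3.GB
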