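import Pool.Agent.P8H3.GB.Tr

/-!
# From the vanishing of a character sum over a group to the vanishing of the sums over cosets
-/

set_option autoImplicit false

namespace Pool.Agent.P8H3.GB

open Finset Pool.Agent.Y18.GX

section
variable {G : Type*} [CommGroup G] [Fintype G] {k : Type*} [Field k] {p : ℕ} [Fact p.Prime] [CharP k p]

/-- Let `q = p^g`. If `∑ χ(x) f(x) = 0` for a function `f` with values in the field with `q` elements then for all `y`
the sum of `χ(u) f(u y)` over the subgroup of the `u` with `χ(u)^(q-1) = 1`, here parametrized by `Φ : I → G`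
(possibly with multiplicities), vanishes. -/
theorem class_rel {ι : Type*} {g q J : ℕ} (hq : q = p ^ g) (χ : G →* k) (f : G → k) (hf : ∀ x, f x ^ q = f x)
    (hT : ∀ x, χ x ^ (q - 1) ≠ 1 → ∑ j ∈ range J, (χ x) ^ q ^ j = 0) (hJ : (J : k) ≠ 0)
    (hG : ((Fintype.card G : ℕ) : k) ≠ 0) (hS : ∑ x, χ x * f x = 0) (I : Finset ι) (Φ : ι → G)
    (hΦ : ∀ i ∈ I, χ (Φ i) ^ q = χ (Φ i))
    (hinv : ∀ (h : G → k) (u : G), χ u ^ (q - 1) = 1 → ∑ i ∈ I, h (Φ i * u) = ∑ i ∈ I, h (Φ i)) (y : G) :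
    ∑ i ∈ I, χ (Φ i) * f (Φ i * y) = 0 := by
  classical
  have hp := (Fact.out : p.Prime)
  have hq1 : 1 ≤ q := by rw [hq]; exact Nat.one_le_pow _ _ hp.pos
  set f' : G → k := fun x => ∑ i ∈ I, χ (Φ i) * f (Φ i * x) with hf'
  -- Frobenius
  have hfrob : ∀ (s : Finset ι) (h : ι → k) (j : ℕ), (∑ i ∈ s, h i) ^ q ^ j = ∑ i ∈ s, h i ^ q ^ j := by
    intro s h j
    have h1 := map_sum (iterateFrobenius k p (g * j)) h s
    simp only [iterateFrobenius_def] at h1
    rw [hq, ← pow_mul]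
    exact h1
  have hfrobG : ∀ (h : G → k) (j : ℕ), (∑ i, h i) ^ q ^ j = ∑ i, h i ^ q ^ j := by
    intro h j
    have h1 := map_sum (iterateFrobenius k p (g * j)) h univ
    simp only [iterateFrobenius_def] at h1
    rw [hq, ← pow_mul]
    exact h1
  have hf'q : ∀ x, f' x ^ q = f' x := by
    intro x
    have h1 := hfrob I (fun i => χ (Φ i) * f (Φ i * x)) 1
    rw [pow_one] at h1
    rw [hf']
    simp only
    rw [h1]
    refine Finset.sum_congr rfl fun i hi => ?_
    rw [mul_pow, hΦ i hi, hf]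
  have hf'j : ∀ x j, f' x ^ q ^ j = f' x := by
    intro x j
    induction j with
    | zero => simp
    | succ j ih => rw [pow_succ, pow_mul, ih, hf'q]
  have hS' : ∑ x, χ x * f' x = 0 := by
    have h1 : ∀ x, χ x * f' x = ∑ i ∈ I, χ (Φ i * x) * f (Φ i * x) := by
      intro x
      rw [hf']
      simp only
      rw [Finset.mul_sum]
      refine Finset.sum_congr rfl fun i _ => ?_
      rw [map_mul]
      ring
    simp only [h1]
    rw [Finset.sum_comm]
    refine Finset.sum_eq_zero fun i _ => ?_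
    rw [← hS]
    exact Fintype.sum_equiv (Equiv.mulLeft (Φ i)) _ _ (fun x => rfl)
  have hSj : ∀ j, ∑ x, χ x ^ q ^ j * f' x = 0 := by
    intro j
    have h1 := hfrobG (fun x => χ x * f' x) j
    rw [hS', zero_pow (pow_ne_zero _ (by omega))] at h1
    rw [h1]
    refine Finset.sum_congr rfl fun x _ => ?_
    rw [mul_pow, hf'j]
  have hT' : ∀ x, ∑ j ∈ range J, (χ x) ^ q ^ j = if χ x ^ (q - 1) = 1 then (J : k) * χ x else 0 := by
    intro x
    split_ifs with h
    · exact trace_one _ hq1 h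
    · exact hT x h
  have h1 : ∑ x, (∑ j ∈ range J, (χ (x * y⁻¹)) ^ q ^ j) * f' x = 0 := by
    have h2 : ∀ x, (∑ j ∈ range J, (χ (x * y⁻¹)) ^ q ^ j) * f' x =
        ∑ j ∈ range J, (χ y⁻¹) ^ q ^ j * (χ x ^ q ^ j * f' x) := by
      intro x
      rw [Finset.sum_mul]
      refine Finset.sum_congr rfl fun j _ => ?_
      rw [map_mul, mul_pow]
      ring
    simp only [h2]
    rw [Finset.sum_comm]
    refine Finset.sum_eq_zero fun j _ => ?_
    rw [← Finset.mul_sum, hSj, mul_zero]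
  have h2 : ∑ x, (∑ j ∈ range J, (χ (x * y⁻¹)) ^ q ^ j) * f' x =
      ∑ u, if χ u ^ (q - 1) = 1 then (J : k) * f' y else 0 := by
    symm
    refine Fintype.sum_equiv (Equiv.mulRight y) _ _ (fun u => ?_)
    rw [Equiv.coe_mulRight, mul_inv_cancel_right, hT']
    split_ifs with h
    · rw [mul_assoc]
      congr 1
      have h3 := hinv (fun v => χ v * f (v * y)) u h
      rw [hf']
      simp only
      rw [← h3, Finset.mul_sum]
      refine Finset.sum_congr rfl fun i _ => ?_
      rw [map_mul, mul_assoc (Φ i) u y]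
      ring
    · rw [zero_mul]
  rw [h2, ← Finset.sum_filter, Finset.sum_const, nsmul_eq_mul] at h1
  -- the cardinality of the subgroup
  let K : Subgroup G :=
    { carrier := {u | χ u ^ (q - 1) = 1}
      mul_mem' := by
        intro a b ha hb
        simp only [Set.mem_ofPred_eq] at ha hb ⊢
        rw [map_mul, mul_pow, ha, hb, one_mul]
      one_mem' := by simp
      inv_mem' := by
        intro a ha
        simp only [Set.mem_ofPred_eq] at ha ⊢
        have h3 : χ a * χ a⁻¹ = 1 := by rw [← map_mul, mul_inv_cancel, map_one]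
        have h4 := congrArg (· ^ (q - 1)) h3
        simp only [mul_pow, ha, one_mul, one_pow] at h4
        exact h4 }
  have hcard : (univ.filter fun u => χ u ^ (q - 1) = 1).card = Nat.card K := by
    rw [Nat.card_eq_fintype_card, Fintype.card_subtype]
    rfl
  have hK : (((univ.filter fun u => χ u ^ (q - 1) = 1).card : ℕ) : k) ≠ 0 := by
    rw [hcard]
    intro h0
    apply hG
    obtain ⟨c, hc⟩ := Subgroup.card_subgroup_dvd_card K
    rw [← Nat.card_eq_fintype_card, hc]
    push_cast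
    rw [h0, zero_mul]
  rcases mul_eq_zero.1 h1 with h3 | h3
  · exact absurd h3 hK
  · rcases mul_eq_zero.1 h3 with h4 | h4
    · exact absurd h4 hJ
    · exact h4

/-- the parametrization by three elements -/
theorem class_rel3 {g q J L : ℕ} (hq : q = p ^ g) (χ : G →* k) (f : G → k) (hf : ∀ x, f x ^ q = f x)
    (hT : ∀ x, χ x ^ (q - 1) ≠ 1 → ∑ j ∈ range J, (χ x) ^ q ^ j = 0) (hJ : (J : k) ≠ 0)
    (hG : ((Fintype.card G : ℕ) : k) ≠ 0) (hS : ∑ x, χ x * f x = 0) (s t w : G)
    (hs : s ^ 2 = 1) (ht : t ^ 2 = 1) (hw : w ^ L = 1) (hL : L ∣ q - 1) (h2 : 2 ∣ q - 1)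
    (hgen : ∀ u, χ u ^ (q - 1) = 1 → ∃ a b c : ℕ, u = s ^ a * t ^ b * w ^ c) (y : G) :
    ∑ a ∈ range 2, ∑ b ∈ range 2, ∑ c ∈ range L,
      χ s ^ a * χ t ^ b * χ w ^ c * f (s ^ a * t ^ b * w ^ c * y) = 0 := by
  have hp := (Fact.out : p.Prime)
  have hq1 : 1 ≤ q := by rw [hq]; exact Nat.one_le_pow _ _ hp.pos
  have hfix : ∀ u : G, ∀ n, n ∣ q - 1 → u ^ n = 1 → χ u ^ q = χ u := by
    intro u n hn hu
    obtain ⟨c, hc⟩ := hn
    have h1 : χ u ^ (q - 1) = 1 := by
      rw [hc, pow_mul, ← map_pow, hu, map_one, one_pow]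
    calc χ u ^ q = χ u ^ (q - 1 + 1) := by rw [Nat.sub_add_cancel hq1]
      _ = χ u := by rw [pow_succ, h1, one_mul]
  have hshift : ∀ (h : G → k) (v : G) (n : ℕ), v ^ n = 1 → ∀ i, ∑ c ∈ range n, h (v ^ c * v ^ i) =
      ∑ c ∈ range n, h (v ^ c) := by
    intro h v n hv i
    have h1 := periodic_shift (fun c => h (v ^ c)) n (fun j => by
      rw [pow_add, hv, mul_one]) i
    simp only [pow_add] at h1
    exact h1
  have key := class_rel hq χ f hf hT hJ hG hS (range 2 ×ˢ range 2 ×ˢ range L)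
    (fun i : ℕ × ℕ × ℕ => s ^ i.1 * t ^ i.2.1 * w ^ i.2.2) ?_ ?_ y
  · rw [Finset.sum_product] at key
    simp only [Finset.sum_product] at key
    rw [← key]
    refine Finset.sum_congr rfl fun a _ => Finset.sum_congr rfl fun b _ => Finset.sum_congr rfl fun c _ => ?_
    rw [map_mul, map_mul, map_pow, map_pow, map_pow]
  · intro i _
    rw [map_mul, map_mul, map_pow, map_pow, map_pow, mul_pow, mul_pow, ← pow_mul, ← pow_mul, ← pow_mul,
      mul_comm i.1 q, mul_comm i.2.1 q, mul_comm i.2.2 q, pow_mul, pow_mul, pow_mul, hfix s 2 h2 hs,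
      hfix t 2 h2 ht, hfix w L hL hw]
  · intro h u hu
    obtain ⟨a', b', c', rfl⟩ := hgen u hu
    rw [Finset.sum_product, Finset.sum_product]
    simp only [Finset.sum_product]
    have e1 : ∀ a b, ∑ c ∈ range L, h (s ^ a * t ^ b * w ^ c * (s ^ a' * t ^ b' * w ^ c')) =
        ∑ c ∈ range L, h ((s ^ a * s ^ a') * (t ^ b * t ^ b') * w ^ c) := by
      intro a b
      rw [← hshift (fun v => h ((s ^ a * s ^ a') * (t ^ b * t ^ b') * v)) w L hw c']
      refine Finset.sum_congr rfl fun c _ => ?_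
      congr 1
      simp only [mul_assoc, mul_left_comm, mul_comm]
    simp only [e1]
    have e2 : ∀ a, ∑ b ∈ range 2, ∑ c ∈ range L, h ((s ^ a * s ^ a') * (t ^ b * t ^ b') * w ^ c) =
        ∑ b ∈ range 2, ∑ c ∈ range L, h ((s ^ a * s ^ a') * (t ^ b) * w ^ c) := by
      intro a
      exact hshift (fun v => ∑ c ∈ range L, h ((s ^ a * s ^ a') * v * w ^ c)) t 2 ht b'
    simp only [e2]
    exact hshift (fun v => ∑ b ∈ range 2, ∑ c ∈ range L, h (v * (t ^ b) * w ^ c)) s 2 hs a'

end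

end Pool.Agent.P8H3.GB
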