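import Pool.Agent.P8H3.GB.Big
import Pool.Agent.P8H3.GB.Chk
import Pool.Agent.Y18.GX.Small

/-!
# Soundness of the checker
-/

set_option autoImplicit false

namespace Pool.Agent.P8H3.GB

open Finset Polynomial Pool.Agent.Y18.GX

section field
variable {k : Type*} [Field k] [CharP k 5]

/-- the element coded by `u` -/
noncomputable def II (θ : k) (u : ℕ) : k := ((u % 5 : ℕ) : k) + ((u / 5 : ℕ) : k) * θ

lemma cast_mod (u : ℕ) : ((u % 5 : ℕ) : k) = (u : k) := by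
  conv_rhs => rw [← Nat.mod_add_div u 5]
  push_cast
  have := CharP.cast_eq_zero k 5
  push_cast at this
  rw [this]
  ring

lemma II_code (θ : k) (A B : ℕ) : II θ (A % 5 + 5 * (B % 5)) = (A : k) + (B : k) * θ := by
  unfold II
  have h1 : (A % 5 + 5 * (B % 5)) % 5 = A % 5 := by omega
  have h2 : (A % 5 + 5 * (B % 5)) / 5 = B % 5 := by omega
  rw [h1, h2, cast_mod, cast_mod]

variable {θ : k} (hθ : θ ^ 2 + θ + 2 = 0)

include hθ in
lemma II_mulc (u v : ℕ) : II θ (mulc u v) = II θ u * II θ v := by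
  unfold mulc
  rw [II_code]
  unfold II
  have h5 := five (k := k)
  push_cast
  linear_combination (-(((u / 5 : ℕ) : k) * ((v / 5 : ℕ) : k))) * hθ +
    (((u / 5 : ℕ) : k) * ((v / 5 : ℕ) : k)) * (1 + θ) * h5

lemma II_addc (c u : ℕ) : II θ (addc c u) = (c : k) + II θ u := by
  unfold addc
  rw [II_code]
  unfold II
  push_cast
  ring

include hθ in
lemma II_powc (r : ℕ) : II θ (powc r) = θ ^ r := by
  induction r with
  | zero =>
    unfold powc II
    simp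
  | succ r ih =>
    unfold powc
    rw [II_mulc hθ, ih, pow_succ']
    congr 1
    unfold II
    simp

include hθ in
lemma II_horner (z : ℕ) (f : ℕ → ℕ) (i n : ℕ) :
    II θ (horner z f i n) = ∑ c ∈ range n, (f (i + c) : k) * (II θ z) ^ c := by
  induction n generalizing i with
  | zero =>
    unfold horner II
    simp
  | succ n ih =>
    unfold horner
    rw [II_addc, II_mulc hθ, ih, Finset.sum_range_succ', Finset.mul_sum, add_comm]
    congr 1
    · refine Finset.sum_congr rfl fun c _ => ?_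
      rw [show i + 1 + c = i + (c + 1) by ring, pow_succ]
      ring
    · simp

lemma horner_lt (z : ℕ) (f : ℕ → ℕ) (i n : ℕ) : horner z f i n < 25 := by
  cases n with
  | zero => unfold horner; norm_num
  | succ n =>
    unfold horner addc
    omega

include hθ in
/-- the norm -/
lemma II_zero (u : ℕ) (hu : u < 25) (h : II θ u = 0) : u = 0 := by
  unfold II at h
  set A := u % 5 with hA
  set B := u / 5 with hB
  have h5 := five (k := k)
  have h1 : ((A * A + 4 * A * B + 2 * B * B : ℕ) : k) = 0 := by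
    push_cast
    linear_combination ((A : k) - (B : k) * (1 + θ)) * h + (B : k) * B * hθ + (A : k) * B * h5
  rw [CharP.cast_eq_zero_iff k 5] at h1
  have hA5 : A < 5 := Nat.mod_lt _ (by norm_num)
  have hB5 : B < 5 := by omega
  have h2 : A = 0 ∧ B = 0 := by
    clear_value A B
    revert h1
    interval_cases A <;> interval_cases B <;> simp
  omega

include hθ in
lemma theta_prim : IsPrimitiveRoot θ 24 := by
  have e : ∀ r, II θ (powc r) = θ ^ r := II_powc hθ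
  have h1 : II θ 1 = 1 := by unfold II; simp
  have h24 : θ ^ 24 = 1 := by
    rw [← e 24, ← h1]
    rfl
  have hne : ∀ r, powc r ≠ 1 → powc r < 25 → 0 < powc r → θ ^ r ≠ 1 := by
    intro r hr hr2 hr3 h
    -- subtract `1`
    have h2 : II θ (addc 4 (powc r)) = 0 := by
      rw [II_addc, e r, h]
      have := five (k := k)
      push_cast
      linear_combination this
    have h3 := II_zero hθ _ (by unfold addc; omega) h2
    unfold addc at h3
    omega
  rw [IsPrimitiveRoot.iff (by norm_num)]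
  refine ⟨h24, fun l hl1 hl2 => ?_⟩
  apply hne
  · interval_cases l <;> decide
  · interval_cases l <;> decide
  · interval_cases l <;> decide

end field

section gen

/-- units near `±1` -/
lemma near_one {ℓ K n x : ℕ} (hn : 2 * n ≤ K) (hℓ : 1 ≤ ℓ) (hx : 1 ≤ x)
    (h : ℓ ^ (K - n) ∣ x - 1 ∨ ℓ ^ (K - n) ∣ x + 1) :
    ∃ s i : ℕ, (x : ZMod (ℓ ^ K)) = (-1) ^ s * ((1 + ℓ ^ (K - n) : ℕ) : ZMod (ℓ ^ K)) ^ i := by
  have hd : ℓ ^ K ∣ ℓ ^ (K - n) * ℓ ^ (K - n) := by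
    rw [← pow_add]
    exact pow_dvd_pow _ (by omega)
  have hpow : ∀ i : ℕ, ((1 + ℓ ^ (K - n) : ℕ) : ZMod (ℓ ^ K)) ^ i = 1 + ((ℓ ^ (K - n) : ℕ) : ZMod (ℓ ^ K)) * i := by
    intro i
    have := (ZMod.natCast_eq_natCast_iff _ _ _).2 (one_add_pow_mod hd i)
    push_cast at this ⊢
    exact this
  rcases h with ⟨t, ht⟩ | ⟨t, ht⟩
  · refine ⟨0, t, ?_⟩
    rw [pow_zero, one_mul, hpow]
    have : x = 1 + ℓ ^ (K - n) * t := by omega
    rw [this]
    push_cast
    ring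
  · refine ⟨1, (ℓ ^ n - 1) * t, ?_⟩
    rw [pow_one, hpow]
    have h1 : (x : ZMod (ℓ ^ K)) + 1 = ((ℓ ^ (K - n) : ℕ) : ZMod (ℓ ^ K)) * t := by
      have := congrArg (fun y : ℕ => (y : ZMod (ℓ ^ K))) ht
      push_cast at this ⊢
      exact this
    have h2 : ((ℓ ^ (K - n) : ℕ) : ZMod (ℓ ^ K)) * ((ℓ ^ n : ℕ) : ZMod (ℓ ^ K)) = 0 := by
      rw [← Nat.cast_mul, ← pow_add, Nat.sub_add_cancel (by omega), ZMod.natCast_self]
    rw [Nat.cast_mul, Nat.cast_sub (Nat.one_le_pow _ _ hℓ), Nat.cast_one]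
    linear_combination h1 + (t : ZMod (ℓ ^ K)) * h2

lemma odd_gen : ∀ x, x < 32 → x % 2 = 1 → ∃ i, i < 8 ∧ ∃ s, s < 2 ∧ x = 31 ^ s * 5 ^ i % 32 := by
  decide

/-- generation by `-1`, `T`, `w` -/
lemma gen_of {a b N T w x : ℕ} (hN : N = 2 ^ a * 3 ^ b) (hN2 : 1 ≤ N)
    (hT2 : (T : ZMod (2 ^ a)) = -1) (hT3 : (T : ZMod (3 ^ b)) = 1)
    (hw2 : (w : ZMod (2 ^ a)) = g2 a) (hw3 : (w : ZMod (3 ^ b)) = g3 b)
    (hg2 : (g2 a : ZMod (2 ^ a)) ^ 8 = 1) (hg3 : (g3 b : ZMod (3 ^ b)) ^ 3 = 1)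
    (h2 : ∃ s i : ℕ, (x : ZMod (2 ^ a)) = (-1) ^ s * (g2 a : ZMod (2 ^ a)) ^ i)
    (h3 : ∃ s i : ℕ, (x : ZMod (3 ^ b)) = (-1) ^ s * (g3 b : ZMod (3 ^ b)) ^ i) :
    ∃ e d c : ℕ, x ≡ (N - 1) ^ e * T ^ d * w ^ c [MOD N] := by
  obtain ⟨s, i, hx2⟩ := h2
  obtain ⟨s', j, hx3⟩ := h3
  refine ⟨s', s + s', 9 * i + 16 * j, ?_⟩
  have hneg : ∀ d : ℕ, d ∣ N → ((N - 1 : ℕ) : ZMod d) = -1 := by
    intro d hd
    rw [Nat.cast_sub hN2, (ZMod.natCast_eq_zero_iff N d).2 hd]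
    simp
  have hd2 : 2 ^ a ∣ N := by rw [hN]; exact dvd_mul_right _ _
  have hd3 : 3 ^ b ∣ N := by rw [hN]; exact dvd_mul_left _ _
  have hgoal : x ≡ (N - 1) ^ s' * T ^ (s + s') * w ^ (9 * i + 16 * j) [MOD 2 ^ a * 3 ^ b] := by
    refine modEq_of ?_ ?_
    · push_cast
      rw [hneg _ hd2, hT2, hw2, hx2]
      have e1 : (g2 a : ZMod (2 ^ a)) ^ (9 * i + 16 * j) = (g2 a : ZMod (2 ^ a)) ^ i := by
        have : 9 * i + 16 * j = 8 * (i + 2 * j) + i := by ring
        rw [this, pow_add, pow_mul, hg2, one_pow, one_mul]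
      have e2 : (-1 : ZMod (2 ^ a)) ^ s' * (-1) ^ (s + s') = (-1) ^ s := by
        have : (-1 : ZMod (2 ^ a)) ^ s' * (-1) ^ (s + s') = (-1) ^ s * ((-1) * (-1)) ^ s' := by
          rw [mul_pow, pow_add]
          ring
        rw [this]
        simp
      rw [e1, e2]
    · push_cast
      rw [hneg _ hd3, hT3, hw3, hx3]
      have e1 : (g3 b : ZMod (3 ^ b)) ^ (9 * i + 16 * j) = (g3 b : ZMod (3 ^ b)) ^ j := by
        have : 9 * i + 16 * j = 3 * (3 * i + 5 * j) + j := by ring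
        rw [this, pow_add, pow_mul, hg3, one_pow, one_mul]
      rw [e1, one_pow, mul_one]
  rw [hN] at hgoal ⊢
  exact hgoal

end gen

end Pool.Agent.P8H3.GB
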