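import Pool.Agent.Y18.GX.Trace

/-!
# Sums over the Frobenius orbit of a root of unity of order `2^i 3^j`
-/

set_option autoImplicit false

namespace Pool.Agent.P8H3.GB

open Finset Pool.Agent.Y18.GX

lemma sum_range_mul' {k : Type*} [AddCommMonoid k] (A B : ℕ) (h : ℕ → k) :
    ∑ j ∈ range (A * B), h j = ∑ i ∈ range A, ∑ j ∈ range B, h (i + A * j) := by
  induction B with
  | zero => simp
  | succ B ih =>
    rw [Nat.mul_succ, Finset.sum_range_add, ih, ← Finset.sum_add_distrib]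
    refine Finset.sum_congr rfl fun i _ => ?_
    rw [Finset.sum_range_succ, add_comm (A * B) i]

/-- `ℓ^R` divides `(q^(ℓ^R) - 1)/(q - 1)` -/
lemma pow_dvd_geom {ℓ q : ℕ} (hA : Adm ℓ q) (R : ℕ) :
    ∃ c, q ^ ℓ ^ R - 1 = (q - 1) * (ℓ ^ R * c) ∧ ∑ r ∈ range (ℓ ^ R), q ^ r = ℓ ^ R * c ∧ c.Coprime ℓ := by
  have hq1 : 1 ≤ q := by rcases hA with h | h <;> omega
  induction R with
  | zero => exact ⟨1, by simp, by simp, by simp⟩
  | succ i ih =>
    obtain ⟨c, hc, hs, hcop⟩ := ih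
    obtain ⟨v, hv, hvc⟩ := (hA.pow (ℓ ^ i)).geom
    have hstep : q ^ ℓ ^ (i + 1) - 1 = (q ^ ℓ ^ i - 1) * ∑ r ∈ range ℓ, (q ^ ℓ ^ i) ^ r := by
      rw [← pow_sub_one_geom _ _ (Nat.one_le_pow _ _ hq1), ← pow_mul, pow_succ]
    refine ⟨c * v, ?_, ?_, Nat.Coprime.mul_left hcop hvc⟩
    · rw [hstep, hv, hc]
      ring
    · rcases Nat.lt_or_ge 1 q with h1 | h1
      · have h2 := pow_sub_one_geom q (ℓ ^ (i + 1)) hq1
        rw [hstep, hv, hc] at h2
        have h3 : (q - 1) * ∑ r ∈ range (ℓ ^ (i + 1)), q ^ r = (q - 1) * (ℓ ^ (i + 1) * (c * v)) := by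
          rw [← h2]
          ring
        exact Nat.eq_of_mul_eq_mul_left (by omega) h3
      · have h2 : q = 1 := by omega
        subst h2
        simp only [one_pow, Finset.sum_const, card_range, smul_eq_mul, mul_one] at hs hv ⊢
        have hℓ := hA.prime
        have h3 : c = 1 := by
          have h4 : ℓ ^ i * 1 = ℓ ^ i * c := by rw [mul_one]; exact hs
          exact (Nat.eq_of_mul_eq_mul_left (Nat.pos_of_ne_zero (pow_ne_zero _ hℓ.ne_zero)) h4).symm
        have h5 : v = 1 := by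
          have h4 : ℓ * 1 = ℓ * v := by rw [mul_one]; exact hv
          exact (Nat.eq_of_mul_eq_mul_left hℓ.pos h4).symm
        rw [h3, h5]
        simp

section
variable {k : Type*} [Field k] {p : ℕ} [Fact p.Prime] [CharP k p]

/-- the trace of `z` vanishes if `z^(q-1)` is not `1` and has order `2^i 3^j` -/
theorem trace6 {g q R : ℕ} (hq : q = p ^ g) (h3 : q % 3 = 1) (h4 : q % 4 = 1) (z : k) (hz : z ≠ 0)
    (h1 : z ^ (q - 1) ≠ 1) (hR : (z ^ (q - 1)) ^ 6 ^ R = 1) :
    ∑ j ∈ range (6 ^ R), z ^ q ^ j = 0 := by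
  have hA3 : Adm 3 q := Or.inl ⟨rfl, h3⟩
  have hA2 : Adm 2 q := Or.inr ⟨rfl, h4⟩
  have hq1 : 1 ≤ q := by omega
  have h6 : 6 ^ R = 3 ^ R * 2 ^ R := by rw [← mul_pow]; rfl
  rw [h6, sum_range_mul']
  obtain ⟨c, hc, hs, hcc⟩ := pow_dvd_geom hA3 R
  set q' := q ^ 3 ^ R with hq'
  have hA2' : Adm 2 q' := hA2.pow _
  have hsplit : ∀ i j : ℕ, z ^ q ^ (i + 3 ^ R * j) = (z ^ q' ^ j) ^ q ^ i := by
    intro i j
    rw [← pow_mul, pow_add, pow_mul q (3 ^ R) j, ← hq', mul_comm]
  by_cases hcase : z ^ (q' - 1) = 1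
  · have hfix : ∀ j, z ^ q' ^ j = z := by
      intro j
      induction j with
      | zero => simp
      | succ j ih =>
        rw [pow_succ, pow_mul, ih]
        calc z ^ q' = z ^ (q' - 1 + 1) := by rw [Nat.sub_add_cancel (Nat.one_le_pow _ _ hq1)]
          _ = z := by rw [pow_succ, hcase, one_mul]
    simp only [hsplit, hfix, Finset.sum_const, card_range, ← Finset.smul_sum]
    have h7 : (z ^ (q - 1)) ^ 3 ^ R = 1 := by
      have e1 : (z ^ (q - 1)) ^ (3 ^ R * c) = 1 := by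
        rw [← pow_mul, ← hc]
        exact hcase
      have hodd : Nat.Coprime (3 ^ R * c) (2 ^ R) := by
        apply Nat.Coprime.pow_right
        rw [Nat.coprime_comm, Nat.Prime.coprime_iff_not_dvd Nat.prime_two, ← hs]
        have h8 : ∀ n, (∑ r ∈ range n, q ^ r) % 2 = n % 2 := by
          intro n
          induction n with
          | zero => simp
          | succ n ih =>
            rw [Finset.sum_range_succ, Nat.add_mod, ih, Nat.pow_mod]
            have : q % 2 = 1 := by omega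
            rw [this, one_pow]
            omega
        intro h9
        have h10 := h8 (3 ^ R)
        rw [Nat.mod_eq_zero_of_dvd h9] at h10
        have h11 : (3 : ℕ) ^ R % 2 = 1 := by rw [Nat.pow_mod]; simp
        omega
      have h9 : orderOf (z ^ (q - 1)) ∣ 3 ^ R * c := orderOf_dvd_of_pow_eq_one e1
      have h10 : orderOf (z ^ (q - 1)) ∣ 3 ^ R * 2 ^ R := by
        rw [← h6]
        exact orderOf_dvd_of_pow_eq_one hR
      have h11 : Nat.Coprime (orderOf (z ^ (q - 1))) (2 ^ R) := Nat.Coprime.coprime_dvd_left h9 hodd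
      exact orderOf_dvd_iff_pow_eq_one.1 (h11.dvd_of_dvd_mul_right h10)
    rw [trace_zero hA3 z hz h1 h7, smul_zero]
  · have hR' : (z ^ (q' - 1)) ^ 2 ^ R = 1 := by
      rw [hc, ← pow_mul, show (q - 1) * (3 ^ R * c) * 2 ^ R = (q - 1) * 6 ^ R * c by rw [h6]; ring, pow_mul,
        pow_mul z (q - 1) (6 ^ R), hR, one_pow]
    have h7 := trace_zero hA2' z hz hcase hR'
    refine Finset.sum_eq_zero fun i _ => ?_
    simp only [hsplit]
    have h8 := congrArg (iterateFrobenius k p (g * i)) h7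
    rw [map_zero, map_sum] at h8
    rw [← h8]
    refine Finset.sum_congr rfl fun j _ => ?_
    rw [iterateFrobenius_def, hq, ← pow_mul p g i]

end

end Pool.Agent.P8H3.GB
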